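import Pool.Agent.BAPp.SysDefs
import Pool.Agent.BAPp.System
import Pool.Agent.BAPp.Had
import Pool.Agent.BAPp.Rows
import Pool.Agent.BAPp.ExSigns
import Pool.Agent.BAPp.Ident
import Pool.Agent.BAPp.PhiB

/-!
The matrix of Davie with square zero, trace one and rows of nearly optimal decay.
-/

set_option autoImplicit false
set_option maxHeartbeats 1000000
open Filter Topology Finset

namespace Pool.Agent.Y277.NN

open Pool.Agent.BAPp

/-- the combinatorial data -/
structure Sys where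
  sg : ℕ → ℕ → ℕ → ℝ
  tt : ℕ → ℕ → ℕ → ℝ
  sg_le : ∀ k j g, |sg k j g| ≤ 1
  tt_le : ∀ k j g, |tt k j g| ≤ 1
  sgsg : ∀ k, ∀ i < 2 ^ k, ∀ j < 2 ^ k,
        ∑ g ∈ range (2 ^ (k + 2)), sg k i g * sg k j g = if i = j then (2:ℝ) ^ (k + 2) else 0
  tttt : ∀ k, ∀ i < 2 ^ (k + 1), ∀ j < 2 ^ (k + 1),
        ∑ g ∈ range (2 ^ (k + 2)), tt k i g * tt k j g = if i = j then (2:ℝ) ^ (k + 2) else 0
  sgtt : ∀ k, ∀ i < 2 ^ k, ∀ j < 2 ^ (k + 1),
        ∑ g ∈ range (2 ^ (k + 2)), sg k i g * tt k j g = 0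
  flat : ∀ k, ∀ g < 2 ^ (k + 2), ∀ h < 2 ^ (k + 2),
        |∑ j ∈ range (2 ^ (k + 1)), tt k j g * tt k j h
          - 2 * ∑ j ∈ range (2 ^ k), sg k j g * sg k j h| ≤ 20 * (k + 1) * Real.sqrt (2 ^ k)
  cross : ∀ k, ∀ g < 2 ^ (k + 2), ∀ h < 2 ^ (k + 3),
        |∑ j ∈ range (2 ^ (k + 1)), tt k j g * sg (k + 1) j h|
          ≤ 20 * (k + 1) * Real.sqrt (2 ^ k)

theorem exists_sys : Nonempty Sys := by
  have signs : ∀ (m : ℕ), 0 < m → ∀ (Q : Type) (_ : Fintype Q) (c : Q → Fin m → ℝ) (M : ℝ),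
      (∀ h i, |c h i| ≤ M) → ∃ e : Fin m → Bool, ∀ h, |∑ i, sgn (e i) * c h i|
        ≤ Real.sqrt m * (Real.log (2 * Fintype.card Q) + M ^ 2 / 2) := by
    intro m hm Q _ c M hM
    have : Nonempty (Fin m) := ⟨⟨0, hm⟩⟩
    have := ExSigns.exists_signs c M hM
    simpa using this
  have h := System.exists_system Had.exists_hadamard (by
    intro k H hH1 hcol
    refine Rows.exists_rows k H hH1 hcol ?_
    intro m hm c M hM
    obtain ⟨e, he⟩ := signs m hm _ inferInstance c M hM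
    refine ⟨e, fun h => (he h).trans (le_of_eq ?_)⟩
    simp) signs
  obtain ⟨sg, tt, h1, h2, h3, h4, h5, h6, h7⟩ := h
  exact ⟨⟨sg, tt, h1, h2, h3, h4, h5, h6, h7⟩⟩

variable (s : Sys)

namespace Sys

/-- the test functions -/
noncomputable def E (l i : ℕ) (x : ℕ × ℕ) : ℝ := ee s.sg s.tt l i x

/-- the kernel -/
noncomputable def K (g x : ℕ × ℕ) : ℝ := phi s.sg s.tt g x

/-- the correction on the first level -/
noncomputable def C (g x : ℕ × ℕ) : ℝ :=
  if g.1 = 0 ∧ g.2 < 4 then (1 / 4) * s.sg 0 0 g.2 * s.E 0 0 x else 0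

/-- the matrix -/
noncomputable def A (g x : ℕ × ℕ) : ℝ := s.K g x + s.C g x

lemma E_le (l i : ℕ) (x : ℕ × ℕ) : |s.E l i x| ≤ 1 := by
  unfold E ee
  split_ifs
  · exact s.sg_le _ _ _
  · exact s.tt_le _ _ _
  · simp
  · simp

lemma E_out (l i k g : ℕ) (h : ¬ g < 2 ^ (k + 2)) : s.E l i (k, g) = 0 := by
  unfold E ee
  rw [if_neg h]

lemma E_far (l i k g : ℕ) (h : l < k) : s.E l i (k, g) = 0 := by
  unfold E ee
  dsimp only
  rw [if_neg (show ¬ k = l by omega), if_neg (show ¬ k + 1 = l by omega), ite_self]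

lemma K_bound (g x : ℕ × ℕ) : |s.K g x| ≤ 5 * (g.1 + 1) * Real.sqrt (2 ^ g.1) / 4 ^ g.1 :=
  (PhiB.phi_bound s.sg s.tt s.flat s.cross g x).1

lemma K_out (g x : ℕ × ℕ) (hg : ¬ g.2 < 2 ^ (g.1 + 2)) : s.K g x = 0 :=
  PhiB.phi_out1 s.sg s.tt g x hg

/-- the bound of the rows -/
noncomputable def bd (g : ℕ × ℕ) : ℝ :=
  if g.2 < 2 ^ (g.1 + 2) then 6 * (g.1 + 1) * Real.sqrt (2 ^ g.1) / 4 ^ g.1 else 0

lemma A_bound (g x : ℕ × ℕ) : |s.A g x| ≤ bd g := by
  unfold A bd
  by_cases hg : g.2 < 2 ^ (g.1 + 2)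
  · rw [if_pos hg]
    have h1 := s.K_bound g x
    refine (abs_add_le _ _).trans ?_
    have h0 : 0 ≤ (g.1 + 1 : ℝ) * Real.sqrt (2 ^ g.1) / 4 ^ g.1 := by positivity
    have h2 : |s.C g x| ≤ (g.1 + 1 : ℝ) * Real.sqrt (2 ^ g.1) / 4 ^ g.1 := by
      unfold C
      split_ifs with h
      · rw [abs_mul, abs_mul, h.1]
        have e1 := s.sg_le 0 0 g.2
        have e2 := s.E_le 0 0 x
        have e3 : |s.sg 0 0 g.2| * |s.E 0 0 x| ≤ 1 * 1 :=
          mul_le_mul e1 e2 (abs_nonneg _) zero_le_one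
        have e4 : |(1 / 4 : ℝ)| = 1 / 4 := by norm_num
        rw [e4]
        simp only [Nat.cast_zero, zero_add, pow_zero, Real.sqrt_one]
        nlinarith
      · rw [abs_zero]; exact h0
    have h3 : 5 * (g.1 + 1 : ℝ) * Real.sqrt (2 ^ g.1) / 4 ^ g.1 =
        5 * ((g.1 + 1 : ℝ) * Real.sqrt (2 ^ g.1) / 4 ^ g.1) := by ring
    have h4 : 6 * (g.1 + 1 : ℝ) * Real.sqrt (2 ^ g.1) / 4 ^ g.1 =
        6 * ((g.1 + 1 : ℝ) * Real.sqrt (2 ^ g.1) / 4 ^ g.1) := by ring
    rw [h3] at h1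
    rw [h4]
    linarith
  · rw [if_neg hg, s.K_out g x hg, zero_add]
    unfold C
    rw [if_neg, abs_zero]
    rintro ⟨h1, h2⟩
    apply hg
    rw [h1]
    exact h2

lemma A_far (g x : ℕ × ℕ) (h : g.1 + 1 < x.1 ∨ ¬ x.2 < 2 ^ (x.1 + 2)) : s.A g x = 0 := by
  have hE : s.E 0 0 x = 0 := by
    rcases h with h | h
    · exact s.E_far 0 0 x.1 x.2 (by omega)
    · exact s.E_out 0 0 x.1 x.2 h
  have hK : s.K g x = 0 := by
    rcases h with h | h
    · exact PhiB.phi_far s.sg s.tt g x (by omega)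
    · exact PhiB.phi_out2 s.sg s.tt g x h
  unfold A C
  rw [hE, hK, mul_zero, ite_self, add_zero]

/-- the sum over one level against a test function -/
lemma level (l i : ℕ) (hi : i < 2 ^ l) (k : ℕ) (x : ℕ × ℕ) :
    ∑ g ∈ range (2 ^ (k + 2)), s.E l i (k, g) * s.A (k, g) x =
      ((if l = k + 1 then (1 / 2 ^ l) * s.E l i x else 0) -
        (if l = k then (1 / 2 ^ l) * s.E l i x else 0)) +
      (if k = 0 then (if l = 0 then s.E 0 0 x else 0) else 0) := by
  obtain ⟨h1, h2⟩ := Ident.level_ident s.sg s.tt s.sgsg s.tttt s.sgtt l i hi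
  have h3 : ∑ g ∈ range (2 ^ (k + 2)), s.E l i (k, g) * s.A (k, g) x =
      ∑ g ∈ range (2 ^ (k + 2)), s.E l i (k, g) * s.K (k, g) x +
      ∑ g ∈ range (2 ^ (k + 2)), s.E l i (k, g) * s.C (k, g) x := by
    rw [← Finset.sum_add_distrib]
    refine Finset.sum_congr rfl fun g _ => ?_
    unfold A
    ring
  rw [h3]
  congr 1
  · exact h1 k x
  · by_cases hk : k = 0
    · subst hk
      rw [if_pos rfl]
      have h4 := h2 0 0 (by norm_num)
      have h5 : ∑ g ∈ range (2 ^ (0 + 2)), s.E l i (0, g) * s.C (0, g) x =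
          ((1 / 2 ^ (0 + 2)) * ∑ g ∈ range (2 ^ (0 + 2)),
            s.sg 0 0 g * ee s.sg s.tt l i (0, g)) * s.E 0 0 x := by
        rw [Finset.mul_sum, Finset.sum_mul]
        refine Finset.sum_congr rfl fun g hg => ?_
        unfold C
        have hg4 : g < 4 := by simpa using hg
        rw [if_pos ⟨rfl, hg4⟩]
        unfold E
        norm_num
        ring
      rw [h5, h4]
      by_cases hl : l = 0
      · subst hl
        have hi0 : i = 0 := by simpa using hi
        rw [if_pos ⟨rfl, hi0⟩, if_pos rfl, one_mul]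
      · rw [if_neg (fun h => hl h.1), if_neg hl, zero_mul]
    · rw [if_neg hk]
      refine Finset.sum_eq_zero fun g _ => ?_
      unfold C
      rw [if_neg (fun h => hk h.1), mul_zero]

/-- the test functions are killed by the matrix -/
lemma E_A (l i : ℕ) (hi : i < 2 ^ l) (x : ℕ × ℕ) :
    HasSum (fun κ : ℕ × ℕ => s.E l i κ * s.A κ x) 0 := by
  classical
  have h0 : ∑ κ ∈ range (l + 1) ×ˢ range (2 ^ (l + 2)), s.E l i κ * s.A κ x = 0 := by
    rw [Finset.sum_product]
    have h1 : ∀ k ∈ range (l + 1), ∑ g ∈ range (2 ^ (l + 2)), s.E l i (k, g) * s.A (k, g) x =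
        ((if l = k + 1 then (1 / 2 ^ l) * s.E l i x else 0) -
        (if l = k then (1 / 2 ^ l) * s.E l i x else 0)) +
      (if k = 0 then (if l = 0 then s.E 0 0 x else 0) else 0) := by
      intro k hk
      rw [← s.level l i hi k x]
      symm
      refine Finset.sum_subset ?_ ?_
      · intro g hg
        rw [Finset.mem_range] at hg hk ⊢
        exact lt_of_lt_of_le hg (Nat.pow_le_pow_right (by norm_num) (by omega))
      · intro g _ hg
        rw [Finset.mem_range] at hg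
        rw [s.E_out l i k g hg, zero_mul]
    rw [Finset.sum_congr rfl h1, Finset.sum_add_distrib, Finset.sum_sub_distrib]
    have h2 : ∑ k ∈ range (l + 1), (if l = k then (1 / 2 ^ l) * s.E l i x else 0) =
        (1 / 2 ^ l) * s.E l i x := by
      rw [Finset.sum_ite_eq (range (l + 1)) l]
      rw [if_pos (by simp)]
    have h3 : ∑ k ∈ range (l + 1), (if k = 0 then (if l = 0 then s.E 0 0 x else 0) else 0) =
        if l = 0 then s.E 0 0 x else 0 := by
      rw [Finset.sum_ite_eq' (range (l + 1)) 0]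
      rw [if_pos (by simp)]
    rw [h2, h3]
    by_cases hl : l = 0
    · subst hl
      have hi0 : i = 0 := by simpa using hi
      subst hi0
      simp
    · have h4 : ∑ k ∈ range (l + 1), (if l = k + 1 then (1 / 2 ^ l) * s.E l i x else 0) =
          (1 / 2 ^ l) * s.E l i x := by
        rw [Finset.sum_eq_single (l - 1)]
        · rw [if_pos (by omega)]
        · intro b _ hb
          rw [if_neg (by omega)]
        · intro h
          exfalso
          apply h
          rw [Finset.mem_range]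
          omega
      rw [h4, if_neg hl]
      ring
  rw [← h0]
  refine hasSum_sum_of_ne_finset_zero (fun κ hκ => ?_)
  obtain ⟨k, g⟩ := κ
  rw [Finset.mem_product, Finset.mem_range, Finset.mem_range, not_and_or] at hκ
  dsimp only at hκ
  have hz : s.E l i (k, g) = 0 := by
    by_cases hk : k < l + 1
    · refine s.E_out l i k g (fun hg => ?_)
      rcases hκ with h | h
      · exact h hk
      · apply h
        exact lt_of_lt_of_le hg (Nat.pow_le_pow_right (by norm_num) (by omega))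
    · exact s.E_far l i k g (by omega)
  rw [hz, zero_mul]

/-- the square of the matrix is zero -/
theorem A_sq (g x : ℕ × ℕ) : HasSum (fun κ : ℕ × ℕ => s.A g κ * s.A κ x) 0 := by
  have hK : HasSum (fun κ : ℕ × ℕ => s.K g κ * s.A κ x) 0 := by
    by_cases hg : g.2 < 2 ^ (g.1 + 2)
    · have h1 : HasSum (fun κ : ℕ × ℕ => ∑ j ∈ range (2 ^ (g.1 + 1)),
          s.tt g.1 j g.2 * (s.E (g.1 + 1) j κ * s.A κ x)) 0 := by
        have := hasSum_sum (s := range (2 ^ (g.1 + 1))) (fun j hj =>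
          (s.E_A (g.1 + 1) j (Finset.mem_range.mp hj) x).mul_left (s.tt g.1 j g.2))
        simpa using this
      have h2 : HasSum (fun κ : ℕ × ℕ => ∑ j ∈ range (2 ^ g.1),
          s.sg g.1 j g.2 * (s.E g.1 j κ * s.A κ x)) 0 := by
        have := hasSum_sum (s := range (2 ^ g.1)) (fun j hj =>
          (s.E_A g.1 j (Finset.mem_range.mp hj) x).mul_left (s.sg g.1 j g.2))
        simpa using this
      have h3 := ((h1.mul_left (1 / 2 ^ (g.1 + 1) : ℝ)).sub
        (h2.mul_left (1 / 2 ^ g.1 : ℝ))).mul_left (1 / 2 ^ (g.1 + 2) : ℝ)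
      rw [mul_zero, mul_zero, sub_zero, mul_zero] at h3
      refine h3.congr_fun ?_
      intro κ
      unfold K phi
      rw [if_pos hg]
      have e1 : ∑ j ∈ range (2 ^ (g.1 + 1)), s.tt g.1 j g.2 * (s.E (g.1 + 1) j κ * s.A κ x) =
          (∑ j ∈ range (2 ^ (g.1 + 1)), s.tt g.1 j g.2 * ee s.sg s.tt (g.1 + 1) j κ) *
            s.A κ x := by
        rw [Finset.sum_mul]
        refine Finset.sum_congr rfl fun j _ => ?_
        unfold E
        ring
      have e2 : ∑ j ∈ range (2 ^ g.1), s.sg g.1 j g.2 * (s.E g.1 j κ * s.A κ x) =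
          (∑ j ∈ range (2 ^ g.1), s.sg g.1 j g.2 * ee s.sg s.tt g.1 j κ) * s.A κ x := by
        rw [Finset.sum_mul]
        refine Finset.sum_congr rfl fun j _ => ?_
        unfold E
        ring
      simp only [e1, e2]
      ring
    · have : (fun κ : ℕ × ℕ => s.K g κ * s.A κ x) = fun _ => 0 := by
        funext κ
        rw [s.K_out g κ hg, zero_mul]
      rw [this]
      exact hasSum_zero
  have hC : HasSum (fun κ : ℕ × ℕ => s.C g κ * s.A κ x) 0 := by
    by_cases h : g.1 = 0 ∧ g.2 < 4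
    · have := (s.E_A 0 0 (by norm_num) x).mul_left ((1 / 4) * s.sg 0 0 g.2)
      rw [mul_zero] at this
      refine this.congr_fun ?_
      intro κ
      unfold C
      rw [if_pos h]
      ring
    · have : (fun κ : ℕ × ℕ => s.C g κ * s.A κ x) = fun _ => 0 := by
        funext κ
        unfold C
        rw [if_neg h, zero_mul]
      rw [this]
      exact hasSum_zero
  have := hK.add hC
  rw [add_zero] at this
  refine this.congr_fun ?_
  intro κ
  unfold A
  ring

/-- the diagonal on one level -/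
lemma diag_level (k : ℕ) : ∑ g ∈ range (2 ^ (k + 2)), s.A (k, g) (k, g) =
    if k = 0 then 1 else 0 := by
  have h1 : ∑ g ∈ range (2 ^ (k + 2)), s.A (k, g) (k, g) =
      ∑ g ∈ range (2 ^ (k + 2)), s.K (k, g) (k, g) +
      ∑ g ∈ range (2 ^ (k + 2)), s.C (k, g) (k, g) := by
    rw [← Finset.sum_add_distrib]
    exact Finset.sum_congr rfl fun g _ => rfl
  have h2 : ∑ g ∈ range (2 ^ (k + 2)), s.K (k, g) (k, g) = 0 := by
    have e1 : ∀ g ∈ range (2 ^ (k + 2)), s.K (k, g) (k, g) =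
        (1 / 2 ^ (k + 2) * (1 / 2 ^ (k + 1))) *
        (∑ j ∈ range (2 ^ (k + 1)), s.tt k j g * s.tt k j g
          - 2 * ∑ j ∈ range (2 ^ k), s.sg k j g * s.sg k j g) := fun g hg =>
      PhiB.phi_same s.sg s.tt (Finset.mem_range.mp hg) (Finset.mem_range.mp hg)
    rw [Finset.sum_congr rfl e1, ← Finset.mul_sum, Finset.sum_sub_distrib, ← Finset.mul_sum,
      Finset.sum_comm, Finset.sum_comm (s := range (2 ^ (k + 2))) (t := range (2 ^ k))]
    have e2 : ∀ j ∈ range (2 ^ (k + 1)), ∑ g ∈ range (2 ^ (k + 2)), s.tt k j g * s.tt k j g =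
        (2 : ℝ) ^ (k + 2) := fun j hj => by
      have := s.tttt k j (Finset.mem_range.mp hj) j (Finset.mem_range.mp hj)
      rw [if_pos rfl] at this
      exact this
    have e3 : ∀ j ∈ range (2 ^ k), ∑ g ∈ range (2 ^ (k + 2)), s.sg k j g * s.sg k j g =
        (2 : ℝ) ^ (k + 2) := fun j hj => by
      have := s.sgsg k j (Finset.mem_range.mp hj) j (Finset.mem_range.mp hj)
      rw [if_pos rfl] at this
      exact this
    rw [Finset.sum_congr rfl e2, Finset.sum_congr rfl e3, Finset.sum_const, Finset.sum_const,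
      Finset.card_range, Finset.card_range, nsmul_eq_mul, nsmul_eq_mul]
    push_cast
    ring
  rw [h1, h2, zero_add]
  by_cases hk : k = 0
  · subst hk
    rw [if_pos rfl]
    obtain ⟨_, h3⟩ := Ident.level_ident s.sg s.tt s.sgsg s.tttt s.sgtt 0 0 (by norm_num)
    have h4 := h3 0 0 (by norm_num)
    rw [if_pos ⟨rfl, rfl⟩, Finset.mul_sum] at h4
    rw [← h4]
    refine Finset.sum_congr rfl fun g hg => ?_
    have hg4 : g < 4 := by simpa using hg
    unfold C
    rw [if_pos ⟨rfl, hg4⟩]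
    unfold E
    norm_num
    ring
  · rw [if_neg hk]
    refine Finset.sum_eq_zero fun g _ => ?_
    unfold C
    rw [if_neg (fun h => hk h.1)]

end Sys

end Pool.Agent.Y277.NN
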