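import Pool.Agent.Y277.NN.DA
import Pool.Agent.Y277.NN.DB

/-!
The weights: the rows of the matrix divided by the weights are summable, and the weights are
p-summable for every p greater than two.
-/

set_option autoImplicit false
set_option maxHeartbeats 1000000
open Filter Topology

namespace Pool.Agent.Y277.NN

open Pool.Agent.Helper362.ApNoBap (Data)

/-- sums over the index set -/
lemma summable_valid (c : ℕ → ℝ) (hc : ∀ k, 0 ≤ c k)
    (h : Summable (fun k : ℕ => (2 : ℝ) ^ (k + 2) * c k)) :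
    Summable (fun g : ℕ × ℕ => if g.2 < 2 ^ (g.1 + 2) then c g.1 else 0) := by
  have hnn : 0 ≤ (fun g : ℕ × ℕ => if g.2 < 2 ^ (g.1 + 2) then c g.1 else 0) := by
    intro g
    show 0 ≤ if g.2 < 2 ^ (g.1 + 2) then c g.1 else 0
    split_ifs
    · exact hc _
    · exact le_rfl
  have hout : ∀ k : ℕ, ∀ y ∉ Finset.range (2 ^ (k + 2)),
      (fun y : ℕ => if (k, y).2 < 2 ^ ((k, y).1 + 2) then c (k, y).1 else 0) y = 0 := by
    intro k y hy
    rw [Finset.mem_range] at hy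
    show (if y < 2 ^ (k + 2) then c k else 0) = 0
    rw [if_neg hy]
  rw [summable_prod_of_nonneg hnn]
  constructor
  · intro k
    exact summable_of_ne_finset_zero (s := Finset.range (2 ^ (k + 2))) (hout k)
  · have e : ∀ k : ℕ, ∑' y : ℕ, (if (k, y).2 < 2 ^ ((k, y).1 + 2) then c (k, y).1 else 0) =
        (2 : ℝ) ^ (k + 2) * c k := by
      intro k
      rw [tsum_eq_sum (s := Finset.range (2 ^ (k + 2))) (hout k)]
      have e2 : ∀ y ∈ Finset.range (2 ^ (k + 2)),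
          (if (k, y).2 < 2 ^ ((k, y).1 + 2) then c (k, y).1 else 0) = c k := by
        intro y hy
        rw [Finset.mem_range] at hy
        show (if y < 2 ^ (k + 2) then c k else 0) = c k
        rw [if_pos hy]
      rw [Finset.sum_congr rfl e2, Finset.sum_const, Finset.card_range, nsmul_eq_mul]
      push_cast
      rfl
    simp only [e]
    exact h

lemma sqrt_pow_two (k : ℕ) : Real.sqrt ((2 : ℝ) ^ k) = Real.sqrt 2 ^ k := by
  rw [Real.sqrt_eq_iff_mul_self_eq (by positivity) (by positivity), ← mul_pow,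
    Real.mul_self_sqrt (by norm_num)]

/-- the weights -/
noncomputable def wg (g : ℕ × ℕ) : ℝ :=
  if g.2 < 2 ^ (g.1 + 2) then min 1 ((g.1 + 1 : ℝ) ^ 3 / Real.sqrt 2 ^ g.1)
  else (1 / 2) ^ (g.1 + g.2)

lemma wg_pos (g : ℕ × ℕ) : 0 < wg g := by
  unfold wg
  split_ifs
  · exact lt_min one_pos (by positivity)
  · positivity

lemma wg_le (g : ℕ × ℕ) : wg g ≤ 1 := by
  unfold wg
  split_ifs
  · exact min_le_left _ _
  · exact pow_le_one₀ (by norm_num) (by norm_num)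

/-- the rows divided by the weights -/
noncomputable def rg (g : ℕ × ℕ) : ℝ := Sys.bd g / wg g

lemma bd_nonneg (g : ℕ × ℕ) : 0 ≤ Sys.bd g := by
  unfold Sys.bd
  split_ifs
  · positivity
  · exact le_rfl

lemma one_lt_sqrt2 : 1 < Real.sqrt 2 := by
  rw [Real.lt_sqrt (by norm_num)]
  norm_num

lemma summable_poly_geom (m : ℕ) (x : ℝ) (hx0 : 0 < x) (hx1 : x < 1) :
    Summable (fun k : ℕ => (k + 1 : ℝ) ^ m * x ^ k) := by
  have h1 := summable_pow_mul_geometric_of_norm_lt_one (R := ℝ) m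
    (r := x) (by rw [Real.norm_eq_abs, abs_of_pos hx0]; exact hx1)
  have h2 := ((summable_nat_add_iff 1).mpr h1).mul_left x⁻¹
  refine h2.congr (fun k => ?_)
  rw [pow_succ]
  push_cast
  field_simp

lemma summable_rg : Summable rg := by
  set a : ℝ := Real.sqrt 2 with ha
  have ha1 : 1 < a := one_lt_sqrt2
  have ha0 : 0 < a := by linarith
  have ha2 : a * a = 2 := Real.mul_self_sqrt (by norm_num)
  let c : ℕ → ℝ := fun k => 6 * (k + 1) * a ^ k / 4 ^ k * (1 + a ^ k / (k + 1) ^ 3)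
  have hc0 : ∀ k, 0 ≤ c k := fun k => by
    show 0 ≤ 6 * (k + 1 : ℝ) * a ^ k / 4 ^ k * (1 + a ^ k / (k + 1) ^ 3)
    positivity
  have h2k : ∀ k : ℕ, (2 : ℝ) ^ k = a ^ k * a ^ k := fun k => by
    rw [← mul_pow, ha2]
  have hcs : Summable (fun k : ℕ => (2 : ℝ) ^ (k + 2) * c k) := by
    have s1 := (summable_poly_geom 1 a⁻¹ (by positivity) (inv_lt_one_of_one_lt₀ ha1)).mul_left 24
    have s2 : Summable (fun k : ℕ => 24 * (1 / (k + 1 : ℝ) ^ 2)) := by
      have := (summable_nat_add_iff 1).mpr (Real.summable_one_div_nat_pow.mpr one_lt_two)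
      refine (this.mul_left 24).congr (fun k => ?_)
      push_cast
      rfl
    refine (s1.add s2).congr (fun k => ?_)
    show 24 * ((k + 1 : ℝ) ^ 1 * a⁻¹ ^ k) + 24 * (1 / (k + 1 : ℝ) ^ 2) =
      (2 : ℝ) ^ (k + 2) * (6 * (k + 1) * a ^ k / 4 ^ k * (1 + a ^ k / (k + 1) ^ 3))
    have h4 : (4 : ℝ) ^ k = 2 ^ k * 2 ^ k := by
      rw [← mul_pow]; norm_num
    rw [h4, pow_add, h2k, inv_pow]
    have e1 : a ^ k ≠ 0 := by positivity
    have e2 : (k + 1 : ℝ) ≠ 0 := by positivity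
    field_simp
    ring
  have hmain := summable_valid c hc0 hcs
  refine Summable.of_nonneg_of_le (fun g => div_nonneg (bd_nonneg g) (wg_pos g).le) (fun g => ?_)
    hmain
  unfold rg Sys.bd wg
  by_cases hg : g.2 < 2 ^ (g.1 + 2)
  · rw [if_pos hg, if_pos hg, if_pos hg, sqrt_pow_two]
    show 6 * (g.1 + 1 : ℝ) * a ^ g.1 / 4 ^ g.1 / min 1 ((g.1 + 1 : ℝ) ^ 3 / a ^ g.1) ≤
      6 * (g.1 + 1 : ℝ) * a ^ g.1 / 4 ^ g.1 * (1 + a ^ g.1 / (g.1 + 1) ^ 3)
    rw [div_eq_mul_inv]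
    refine mul_le_mul_of_nonneg_left ?_ (by positivity)
    rcases min_choice (1 : ℝ) ((g.1 + 1 : ℝ) ^ 3 / a ^ g.1) with h | h
    · rw [h, inv_one]
      have : 0 ≤ a ^ g.1 / (g.1 + 1 : ℝ) ^ 3 := by positivity
      linarith
    · rw [h, inv_div]
      linarith
  · rw [if_neg hg, if_neg hg, if_neg hg, zero_div]

lemma summable_wg (q : ℝ) (hq : 2 < q) : Summable (fun g => wg g ^ q) := by
  set a : ℝ := Real.sqrt 2 with ha
  have ha1 : 1 < a := one_lt_sqrt2
  have ha0 : 0 < a := by linarith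
  have ha2 : a * a = 2 := Real.mul_self_sqrt (by norm_num)
  have hq0 : 0 < q := by linarith
  let c : ℕ → ℝ := fun k => ((k + 1 : ℝ) ^ 3 / a ^ k) ^ q
  have hc0 : ∀ k, 0 ≤ c k := fun k => by
    show 0 ≤ ((k + 1 : ℝ) ^ 3 / a ^ k) ^ q
    positivity
  have hx : 2 < a ^ q := by
    calc (2 : ℝ) = a ^ (2 : ℝ) := by
          rw [show (2 : ℝ) = ((2 : ℕ) : ℝ) by norm_num, Real.rpow_natCast, pow_two, ha2]
          norm_num
      _ < a ^ q := Real.rpow_lt_rpow_of_exponent_lt ha1 hq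
  have hcs : Summable (fun k : ℕ => (2 : ℝ) ^ (k + 2) * c k) := by
    obtain ⟨m, hm⟩ := exists_nat_ge q
    have hx0 : 0 < 2 / a ^ q := by positivity
    have hx1 : 2 / a ^ q < 1 := by
      rw [div_lt_one (by positivity)]; exact hx
    have s1 := (summable_poly_geom (3 * m) (2 / a ^ q) hx0 hx1).mul_left 4
    refine Summable.of_nonneg_of_le (fun k => mul_nonneg (by positivity) (hc0 k)) (fun k => ?_) s1
    show (2 : ℝ) ^ (k + 2) * ((k + 1 : ℝ) ^ 3 / a ^ k) ^ q ≤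
      4 * ((k + 1 : ℝ) ^ (3 * m) * (2 / a ^ q) ^ k)
    rw [Real.div_rpow (by positivity) (by positivity)]
    have e1 : (a ^ k) ^ q = (a ^ q) ^ k := by
      rw [← Real.rpow_natCast a k, ← Real.rpow_mul ha0.le, mul_comm, Real.rpow_mul ha0.le,
        Real.rpow_natCast]
    have e2 : ((k + 1 : ℝ) ^ 3) ^ q ≤ (k + 1 : ℝ) ^ (3 * m) := by
      calc ((k + 1 : ℝ) ^ 3) ^ q ≤ ((k + 1 : ℝ) ^ 3) ^ (m : ℝ) := by
            refine Real.rpow_le_rpow_of_exponent_le ?_ hm
            have : (1 : ℝ) ≤ k + 1 := by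
              have : (0 : ℝ) ≤ k := Nat.cast_nonneg k
              linarith
            exact one_le_pow₀ this
        _ = _ := by rw [Real.rpow_natCast, ← pow_mul]
    rw [e1, div_pow, pow_add]
    have e3 : 0 < (a ^ q) ^ k := by positivity
    calc (2 : ℝ) ^ k * 2 ^ 2 * (((k + 1 : ℝ) ^ 3) ^ q / (a ^ q) ^ k)
        ≤ (2 : ℝ) ^ k * 2 ^ 2 * ((k + 1 : ℝ) ^ (3 * m) / (a ^ q) ^ k) := by gcongr
      _ = _ := by ring
  have h1 := summable_valid c hc0 hcs
  have h2 : Summable (fun g : ℕ × ℕ => ((1 : ℝ) / 2) ^ g.1 * (1 / 2) ^ g.2) :=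
    summable_geometric_two.mul_of_nonneg summable_geometric_two
      (fun _ => by positivity) (fun _ => by positivity)
  refine Summable.of_nonneg_of_le (fun g => Real.rpow_nonneg (wg_pos g).le _) (fun g => ?_)
    (h1.add h2)
  have e0 : 0 ≤ ((1 : ℝ) / 2) ^ g.1 * (1 / 2) ^ g.2 := by positivity
  unfold wg
  by_cases hg : g.2 < 2 ^ (g.1 + 2)
  · rw [if_pos hg, if_pos hg]
    have e1 : (min 1 ((g.1 + 1 : ℝ) ^ 3 / Real.sqrt 2 ^ g.1)) ^ q ≤ c g.1 := by
      refine Real.rpow_le_rpow ?_ (min_le_right _ _) hq0.le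
      exact le_min zero_le_one (by positivity)
    linarith
  · rw [if_neg hg, if_neg hg, zero_add, ← pow_add]
    calc (((1 : ℝ) / 2) ^ (g.1 + g.2)) ^ q ≤ (((1 : ℝ) / 2) ^ (g.1 + g.2)) ^ (1 : ℝ) := by
          refine Real.rpow_le_rpow_of_exponent_ge (by positivity) ?_ (by linarith)
          exact pow_le_one₀ (by norm_num) (by norm_num)
      _ = _ := Real.rpow_one _

/-- The data with weights. -/
theorem exists_data : ∃ (D : Data) (ω : ℕ → ℝ), (∀ g, 0 < ω g) ∧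
    (∀ g h, |D.A g h| ≤ ω g * D.r g) ∧ (∀ q : ℝ, 2 < q → Summable (fun g => ω g ^ q)) ∧
    (∀ l : ℕ, ∃ M : ℕ, (∀ g, g < M → D.w l g = 1) ∧
      ((l + 1 : ℝ) / D.eps l + 1) * D.tail M ≤ 1 / 4) ∧
    ∀ l : ℕ, (l + 1 : ℝ) * D.eps l * ∑' g, D.r g ≤ 1 / 4 := by
  obtain ⟨s⟩ := exists_sys
  obtain ⟨e⟩ : Nonempty (ℕ ≃ ℕ × ℕ) := ⟨Nat.pairEquiv.symm⟩
  let A : ℕ → ℕ → ℝ := fun m n => s.A (e m) (e n)
  let r : ℕ → ℝ := fun m => rg (e m)
  have hr : Summable r := (Equiv.summable_iff e (f := rg)).mpr summable_rg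
  have hAω : ∀ g h, |A g h| ≤ wg (e g) * r g := by
    intro g h
    refine (s.A_bound (e g) (e h)).trans (le_of_eq ?_)
    show Sys.bd (e g) = wg (e g) * (Sys.bd (e g) / wg (e g))
    have := (wg_pos (e g)).ne'
    field_simp
  have hr0 : ∀ g, 0 ≤ r g := fun g => div_nonneg (bd_nonneg _) (wg_pos _).le
  have hA : ∀ g h, |A g h| ≤ r g := by
    intro g h
    refine (hAω g h).trans ?_
    calc wg (e g) * r g ≤ 1 * r g := mul_le_mul_of_nonneg_right (wg_le _) (hr0 g)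
      _ = _ := one_mul _
  have hA0 : ∀ g, Tendsto (A g) cofinite (𝓝 0) := by
    intro g
    have hfin : Set.Finite {x : ℕ × ℕ | s.A (e g) x ≠ 0} := by
      refine Set.Finite.subset (((Set.finite_Iic ((e g).1 + 1)).prod
        (Set.finite_Iio (2 ^ ((e g).1 + 1 + 2))))) (fun x hx => ?_)
      have h1 : ¬ ((e g).1 + 1 < x.1 ∨ ¬ x.2 < 2 ^ (x.1 + 2)) := fun h => hx (s.A_far _ _ h)
      push Not at h1
      refine ⟨h1.1, ?_⟩
      exact lt_of_lt_of_le h1.2 (Nat.pow_le_pow_right (by norm_num) (by omega))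
    have hfin2 : Set.Finite {n : ℕ | A g n ≠ 0} :=
      (hfin.preimage (f := e) e.injective.injOn)
    refine tendsto_const_nhds.congr' ?_
    rw [Filter.EventuallyEq, Filter.eventually_cofinite]
    refine hfin2.subset (fun n hn => ?_)
    exact fun h => hn h.symm
  have hsq : ∀ g h, ∑' k, A g k * A k h = 0 := by
    intro g h
    have h1 := (Equiv.hasSum_iff e (f := fun κ => s.A (e g) κ * s.A κ (e h))).mpr
      (s.A_sq (e g) (e h))
    exact h1.tsum_eq
  have htr : ∑' g, A g g = 1 := by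
    have h1 : ∑' g, A g g = ∑' κ : ℕ × ℕ, s.A κ κ := Equiv.tsum_eq e (fun κ => s.A κ κ)
    have hs : Summable (fun κ : ℕ × ℕ => s.A κ κ) := by
      refine Summable.of_norm_bounded summable_rg (fun κ => ?_)
      rw [Real.norm_eq_abs]
      refine (s.A_bound κ κ).trans ?_
      unfold rg
      rw [le_div_iff₀ (wg_pos κ)]
      calc Sys.bd κ * wg κ ≤ Sys.bd κ * 1 := mul_le_mul_of_nonneg_left (wg_le κ) (bd_nonneg κ)
        _ = _ := mul_one _
    rw [h1, hs.tsum_prod]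
    have h2 : ∀ k, ∑' g, s.A (k, g) (k, g) = if k = 0 then 1 else 0 := by
      intro k
      rw [tsum_eq_sum (s := Finset.range (2 ^ (k + 2))) (fun g hg => ?_)]
      · exact s.diag_level k
      · rw [Finset.mem_range] at hg
        exact s.A_far _ _ (Or.inr hg)
    simp_rw [h2]
    exact tsum_ite_eq 0 _
  obtain ⟨D, hDA, hDr, hM, hE⟩ := mk_data A r hr hA hA0 hsq htr
  refine ⟨D, fun g => wg (e g), fun g => wg_pos _, fun g h => ?_, fun q hq => ?_, hM, hE⟩
  · rw [hDA, hDr]; exact hAω g h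
  · exact (Equiv.summable_iff e (f := fun g => wg g ^ q)).mpr (summable_wg q hq)

end Pool.Agent.Y277.NN
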