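import Pool.Agent.Y277.NN.MC

/-!
Operators of nuclear norm one whose distance to the operators attaining their nuclear norm is
almost one half.
-/

set_option autoImplicit false
set_option maxHeartbeats 1000000
open scoped ENNReal Topology
open Filter

namespace Pool.Agent.Y277.NN

open Pool.Agent.Helper362.ApNoBap (Data)

section

variable {𝕜 : Type} [RCLike 𝕜] {X Y : Type} [NormedAddCommGroup X]
  [NormedSpace 𝕜 X] [NormedAddCommGroup Y] [NormedSpace 𝕜 Y]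

lemma attains_smul {S : X →L[𝕜] Y} (hS : AttainsNuclearNorm S) (c : 𝕜) :
    AttainsNuclearNorm (c • S) := by
  obtain ⟨f, y, h1, h2⟩ := hS
  have h3 := rep_smul c h1
  exact ⟨f, _, h3.1, by rw [nn_smul ⟨f, y, h1⟩, h3.2, h2]⟩

end

section

variable {𝕜 : Type} [RCLike 𝕜] {D : Data} {ω : ℕ → ℝ} {X Y : Type} [NormedAddCommGroup X]
  [NormedSpace 𝕜 X] [NormedAddCommGroup Y] [NormedSpace 𝕜 Y] {yd : YD 𝕜 D Y}
  (xd : XD 𝕜 D ω X Y yd)

/-- lower bound of the nuclear norms of the bad operators -/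
lemma nn_TT_ge (l M : ℕ) (hM1 : ∀ g, g < M → D.w l g = 1) (ht : D.tail M ≤ 1 / 4) :
    3 / 4 / xd.κ ≤ nuclearNorm (TT xd l M) := by
  have hκ0 : 0 < xd.κ := lt_of_lt_of_le one_pos xd.hκ
  have hB0 : ∀ (y : Y) (x' : X →L[𝕜] 𝕜),
      ‖(0 : Y →L[𝕜] (X →L[𝕜] 𝕜) →L[𝕜] 𝕜) y x'‖ ≤ ‖y‖ * ‖x'‖ := fun y x' => by
    rw [zero_apply, zero_apply, norm_zero]
    positivity
  have h1 := nn_lower yd (Bc xd 0 hB0 1 zero_le_one le_rfl 0 l (Nat.zero_le _)) (Finset.range M)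
    (fun g => xd.d l g) (fun g => yd.v l M g) (Bc_le xd 0 hB0 1 zero_le_one le_rfl 0 l
      (Nat.zero_le _))
  refine le_trans ?_ h1
  have e1 : ∑ g ∈ Finset.range M, Bc xd 0 hB0 1 zero_le_one le_rfl 0 l (Nat.zero_le _)
      (yd.v l M g) (xd.d l g) = (((1 / xd.κ) * ∑ g ∈ Finset.range M, D.A g g : ℝ) : 𝕜) := by
    rw [RCLike.ofReal_mul, ← sum_dJ xd l M hM1, Finset.mul_sum]
    refine Finset.sum_congr rfl (fun g _ => ?_)
    rw [Bc_apply, zero_apply, zero_apply, mul_zero, zero_add]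
  rw [e1, RCLike.norm_ofReal]
  have h2 := diag_ge (D := D) M ht
  refine le_trans ?_ (le_abs_self _)
  have h3 : 3 / 4 / xd.κ = (1 / xd.κ) * (3 / 4) := by ring
  rw [h3]
  exact mul_le_mul_of_nonneg_left h2 (by positivity)

variable (hω : ∀ g, 0 < ω g) (hA : ∀ g h, |D.A g h| ≤ ω g * D.r g)
  (hM : ∀ l : ℕ, ∃ M : ℕ, (∀ g, g < M → D.w l g = 1) ∧
    ((l + 1 : ℝ) / D.eps l + 1) * D.tail M ≤ 1 / 4)
  (hE : ∀ l : ℕ, (l + 1 : ℝ) * D.eps l * ∑' g, D.r g ≤ 1 / 4)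

include xd hω hA hM hE in
/-- The relative distance of a nuclear operator of finite rank to the operators attaining their
nuclear norm can be any number less than one half. -/
theorem ratio (c : ℝ) (hc : c < 1 / 2) :
    ∃ T : X →L[𝕜] Y, IsNuclear T ∧ FiniteDimensional 𝕜 (LinearMap.range (T : X →ₗ[𝕜] Y)) ∧
      nuclearNorm T = 1 ∧
      ∀ S : X →L[𝕜] Y, AttainsNuclearNorm S → c ≤ nuclearNorm (T - S) := by
  have hκ0 : 0 < xd.κ := lt_of_lt_of_le one_pos xd.hκ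
  obtain ⟨l, hl⟩ := exists_nat_gt (xd.κ / (1 / 2 - c))
  obtain ⟨M, hM1, hM2⟩ := hM l
  have ht := tail_le (D := D) l M hM2
  set τ : ℝ := nuclearNorm (TT xd l M) with hτ
  have hτ1 : 3 / 4 / xd.κ ≤ τ := nn_TT_ge xd l M hM1 ht
  have hτ0 : 0 < τ := lt_of_lt_of_le (by positivity) hτ1
  have hTn := nuclear_TT xd l M
  -- distance of the bad operator
  have key : ∀ S : X →L[𝕜] Y, AttainsNuclearNorm S →
      (τ - 1 / (2 * (l + 1))) / 2 ≤ nuclearNorm (TT xd l M - S) := by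
    intro S hS
    have hSn : IsNuclear S := by
      obtain ⟨f, y, h, _⟩ := hS
      exact ⟨f, y, h⟩
    have h1 : τ ≤ nuclearNorm (TT xd l M - S) + nuclearNorm S := by
      have := nn_add_le (nuclear_sub hTn hSn) hSn
      rwa [sub_add_cancel] at this
    by_cases hpos : 0 < nuclearNorm S
    · obtain ⟨B, hB, ⟨y0, x', hy0, hx', hyx⟩, hle⟩ :=
        exists_B hS hpos (Finset.range M) (fun g => xd.d l g) (fun g => yd.v l M g)
      have h3 := form_small xd hω hA B hB y0 x' hy0 hx' hyx l M hM1 hM2 (hE l)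
      have h4 : nuclearNorm (S - ∑ g ∈ Finset.range M, (xd.d l g).smulRight (yd.v l M g)) =
          nuclearNorm (TT xd l M - S) := nn_sub_comm hSn hTn
      rw [h4] at hle
      linarith
    · have h5 : nuclearNorm S = 0 := le_antisymm (not_lt.mp hpos) (nn_nonneg _)
      rw [h5, add_zero] at h1
      have h6 : 0 < 1 / (2 * ((l : ℝ) + 1)) := by positivity
      linarith
  have hτne : (τ : 𝕜) ≠ 0 := by
    rw [Ne, RCLike.ofReal_eq_zero]; exact hτ0.ne'
  refine ⟨((τ⁻¹ : ℝ) : 𝕜) • TT xd l M, nuclear_smul _ hTn, ?_, ?_, fun S hS => ?_⟩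
  · have h1 : LinearMap.range ((((τ⁻¹ : ℝ) : 𝕜) • TT xd l M : X →L[𝕜] Y) : X →ₗ[𝕜] Y) ≤
        Submodule.span 𝕜 ((fun g => yd.v l M g) '' (Finset.range M : Set ℕ)) := by
      rintro _ ⟨x, rfl⟩
      have h2 : (((τ⁻¹ : ℝ) : 𝕜) • TT xd l M) x =
          ((τ⁻¹ : ℝ) : 𝕜) • ∑ g ∈ Finset.range M, xd.d l g x • yd.v l M g := by
        unfold TT
        rw [smul_apply, sum_apply]
        rfl
      show (((τ⁻¹ : ℝ) : 𝕜) • TT xd l M) x ∈ _
      rw [h2]
      exact Submodule.smul_mem _ _ (Submodule.sum_mem _ (fun g hg => Submodule.smul_mem _ _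
        (Submodule.subset_span ⟨g, hg, rfl⟩)))
    have h3 : FiniteDimensional 𝕜
        (Submodule.span 𝕜 ((fun g => yd.v l M g) '' (Finset.range M : Set ℕ))) :=
      FiniteDimensional.span_of_finite 𝕜 ((Finset.finite_toSet _).image _)
    exact Submodule.finiteDimensional_of_le h1
  · rw [nn_smul hTn, RCLike.norm_ofReal, abs_of_pos (inv_pos.mpr hτ0), ← hτ,
      inv_mul_cancel₀ hτ0.ne']
  · have h1 := key ((τ : 𝕜) • S) (attains_smul hS _)
    have hSn : IsNuclear S := by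
      obtain ⟨f, y, h, _⟩ := hS
      exact ⟨f, y, h⟩
    have h2 : ((τ⁻¹ : ℝ) : 𝕜) • TT xd l M - S =
        ((τ⁻¹ : ℝ) : 𝕜) • (TT xd l M - (τ : 𝕜) • S) := by
      rw [smul_sub, smul_smul, ← RCLike.ofReal_mul, inv_mul_cancel₀ hτ0.ne', RCLike.ofReal_one,
        one_smul]
    rw [h2, nn_smul (nuclear_sub hTn (nuclear_smul _ hSn)), RCLike.norm_ofReal,
      abs_of_pos (inv_pos.mpr hτ0)]
    have h3 := mul_le_mul_of_nonneg_left h1 (inv_pos.mpr hτ0).le
    refine le_trans ?_ h3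
    have hl0 : (0 : ℝ) < l + 1 := by positivity
    have h4 : xd.κ < (1 / 2 - c) * (l + 1) := by
      rw [div_lt_iff₀ (by linarith)] at hl
      nlinarith
    have h5 : 1 / (2 * ((l : ℝ) + 1)) ≤ τ * (1 - 2 * c) := by
      have e1 : 1 / (2 * ((l : ℝ) + 1)) ≤ 3 / 4 / xd.κ * (1 - 2 * c) := by
        rw [div_mul_eq_mul_div, div_le_div_iff₀ (by positivity) hκ0]
        nlinarith
      exact e1.trans (mul_le_mul_of_nonneg_right hτ1 (by linarith))
    rw [le_inv_mul_iff₀ hτ0]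
    linarith

end

end Pool.Agent.Y277.NN
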