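import Pool.Agent.Helper362.ApC

/-!
From a matrix to the data of the construction.
-/

set_option autoImplicit false
open scoped Topology ENNReal
open Filter

namespace Pool.Agent.Y277.NN

open Pool.Agent.Helper362.ApNoBap (Data)

theorem mk_data (A : ℕ → ℕ → ℝ) (r : ℕ → ℝ) (hr : Summable r) (hA : ∀ g h, |A g h| ≤ r g)
    (hA0 : ∀ g, Tendsto (A g) cofinite (𝓝 0)) (hsq : ∀ g h, ∑' k, A g k * A k h = 0)
    (htr : ∑' g, A g g = 1) :
    ∃ D : Data, D.A = A ∧ D.r = r ∧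
      (∀ l : ℕ, ∃ M : ℕ, (∀ g, g < M → D.w l g = 1) ∧
        ((l + 1 : ℝ) / D.eps l + 1) * D.tail M ≤ 1 / 4) ∧
      ∀ l : ℕ, (l + 1 : ℝ) * D.eps l * ∑' g, D.r g ≤ 1 / 4 := by
  have hr0 : ∀ g, 0 ≤ r g := fun g => (abs_nonneg _).trans (hA g g)
  have hR : 0 ≤ ∑' g, r g := tsum_nonneg hr0
  let eps : ℕ → ℝ := fun l => 1 / (4 * (l + 1) * (∑' g, r g + 1))
  have eps_pos : ∀ l, 0 < eps l := fun l => by
    show 0 < 1 / (4 * (l + 1 : ℝ) * (∑' g, r g + 1))
    positivity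
  have eps_le : ∀ l, eps l ≤ 1 := fun l => by
    show 1 / (4 * (l + 1 : ℝ) * (∑' g, r g + 1)) ≤ 1
    have hl : (0 : ℝ) ≤ l := Nat.cast_nonneg l
    rw [div_le_one (by positivity)]
    nlinarith [mul_nonneg hl hR]
  have exists_M : ∀ l : ℕ, ∃ M : ℕ,
      ((l + 1 : ℝ) / eps l + 1) * (∑' g, r (g + M)) ≤ 1 / 4 := by
    intro l
    have ht : Tendsto (fun M : ℕ => ((l + 1 : ℝ) / eps l + 1) * (∑' g, r (g + M))) atTop
        (𝓝 0) := by
      simpa using (tendsto_sum_nat_add r).const_mul ((l + 1 : ℝ) / eps l + 1)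
    obtain ⟨M, hM⟩ :=
      eventually_atTop.mp (ht.eventually_le_const (show (0 : ℝ) < 1 / 4 by norm_num))
    exact ⟨M, hM M le_rfl⟩
  choose ML hML using exists_M
  let D : Data :=
    { A := A
      r := r
      e := (Denumerable.eqv (ℕ × ℕ × ℕ)).symm
      w := fun l g => if g < ML l then 1 else eps l
      eps := eps
      hr := hr
      hA := hA
      hA0 := hA0
      hsq := hsq
      htr := htr
      heps := eps_pos
      heps1 := eps_le
      hw := fun l g => by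
        show eps l ≤ if g < ML l then 1 else eps l
        split_ifs <;> [exact eps_le l; exact le_rfl]
      hw1 := fun l g => by
        show (if g < ML l then 1 else eps l) ≤ 1
        split_ifs <;> [exact le_rfl; exact eps_le l] }
  refine ⟨D, rfl, rfl, fun l => ⟨ML l, fun g hg => if_pos hg, hML l⟩, fun l => ?_⟩
  show (l + 1 : ℝ) * (1 / (4 * (l + 1 : ℝ) * (∑' g, r g + 1))) * ∑' g, r g ≤ 1 / 4
  have hl : (0 : ℝ) ≤ l := Nat.cast_nonneg l
  have h1 : (l + 1 : ℝ) * (1 / (4 * (l + 1 : ℝ) * (∑' g, r g + 1))) * ∑' g, r g =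
      (∑' g, r g) / (4 * (∑' g, r g + 1)) := by
    have h2 : ∑' g, r g + 1 ≠ 0 := by linarith
    have h3 : (l + 1 : ℝ) ≠ 0 := by linarith
    field_simp
  rw [h1, div_le_div_iff₀ (by positivity) (by norm_num)]
  linarith

end Pool.Agent.Y277.NN
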