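import Pool.Agent.Y277.NN.XC

/-!
The main estimate for bilinear forms that attain their norm.
-/

set_option autoImplicit false
set_option maxHeartbeats 1000000
open scoped ENNReal Topology
open Filter

namespace Pool.Agent.Y277.NN

open Pool.Agent.Helper362.ApNoBap (Data)

section

variable {𝕜 : Type} [RCLike 𝕜] {E : Type} [NormedAddCommGroup E] [NormedSpace 𝕜 E]

lemma expansion_abs (co : ℕ → (E →L[𝕜] 𝕜)) (F : Finset ℕ) :
    ∃ (n : ℕ) (f : Fin n → (E →L[𝕜] 𝕜)) (z : Fin n → E),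
    ∀ y : E, ∀ i ∈ F, co i (y - ∑ j, f j y • z j) = 0 := by
  let π : E →L[𝕜] (F → 𝕜) := ContinuousLinearMap.pi (fun i : F => co i)
  set Rg := LinearMap.range (π : E →ₗ[𝕜] (F → 𝕜)) with hRg
  let c := Module.finBasis 𝕜 Rg
  let π' : E →L[𝕜] Rg := π.codRestrict Rg (fun x => ⟨x, rfl⟩)
  let φ : Fin (Module.finrank 𝕜 Rg) → (E →L[𝕜] 𝕜) := fun j =>
    (LinearMap.toContinuousLinearMap (c.coord j)).comp π'
  have hz : ∀ j, ∃ z : E, π z = ((c j : Rg) : F → 𝕜) := fun j => (c j).2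
  choose z hz using hz
  refine ⟨_, φ, z, fun y i hi => ?_⟩
  have h1 := c.sum_repr (π' y)
  have h2 : ((π' y : Rg) : F → 𝕜) = π y := rfl
  have h3 : π y = ∑ j, φ j y • π (z j) := by
    rw [← h2, ← h1, AddSubmonoidClass.coe_finsetSum]
    refine Finset.sum_congr rfl (fun j _ => ?_)
    rw [hz]
    rfl
  have h4 : π (y - ∑ j, φ j y • z j) = 0 := by
    rw [map_sub, map_sum, h3, sub_eq_zero]
    exact Finset.sum_congr rfl (fun j _ => (map_smul _ _ _).symm)
  exact congrFun h4 ⟨i, hi⟩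

end

section

variable {𝕜 : Type} [RCLike 𝕜] {D : Data} {ω : ℕ → ℝ} {X Y : Type} [NormedAddCommGroup X]
  [NormedSpace 𝕜 X] [NormedAddCommGroup Y] [NormedSpace 𝕜 Y] {yd : YD 𝕜 D Y}
  (xd : XD 𝕜 D ω X Y yd) (hω : ∀ g, 0 < ω g)
  (hA : ∀ g h, |D.A g h| ≤ ω g * D.r g)
  (B : Y →L[𝕜] (X →L[𝕜] 𝕜) →L[𝕜] 𝕜) (hB : ∀ y x', ‖B y x'‖ ≤ ‖y‖ * ‖x'‖)

include hB in
lemma kills (y : Y) (x' : X →L[𝕜] 𝕜) (hy : ‖y‖ = 1) (hx' : ‖x'‖ = 1) (h1 : B y x' = 1) :
    ∃ F : Finset ℕ, ∀ w : Y, (∀ i ∈ F, yd.co i w = 0) →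
      ∀ l g, B w (xd.d l g) = 0 := by
  obtain ⟨F, hF⟩ := yd.flat y hy
  refine ⟨F, fun w hw l g => ?_⟩
  obtain ⟨t, ht, ht1, ht2⟩ := hF w hw
  have b1 : ∀ g, ‖B (y + (t : 𝕜) • w) g‖ ≤ ‖g‖ := fun g => (hB _ g).trans (by
    calc _ ≤ 1 * ‖g‖ := mul_le_mul_of_nonneg_right ht1 (norm_nonneg _)
      _ = _ := one_mul _)
  have b2 : ∀ g, ‖B (y - (t : 𝕜) • w) g‖ ≤ ‖g‖ := fun g => (hB _ g).trans (by
    calc _ ≤ 1 * ‖g‖ := mul_le_mul_of_nonneg_right ht2 (norm_nonneg _)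
      _ = _ := one_mul _)
  have e1 : B (y + (t : 𝕜) • w) x' + B (y - (t : 𝕜) • w) x' = 2 := by
    rw [map_add, map_sub, add_apply, sub_apply, h1]; ring
  have u1 := b1 x'
  have u2 := b2 x'
  rw [hx'] at u1 u2
  have v1 := (RCLike.re_le_norm (B (y + (t : 𝕜) • w) x')).trans u1
  have v2 := (RCLike.re_le_norm (B (y - (t : 𝕜) • w) x')).trans u2
  have e2 : RCLike.re (B (y + (t : 𝕜) • w) x') + RCLike.re (B (y - (t : 𝕜) • w) x') = 2 := by
    rw [← map_add, e1]; simp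
  have h3 := xd.strict x' hx' (B (y + (t : 𝕜) • w)) (B (y - (t : 𝕜) • w)) b1 b2
    (eq_one_of_re _ u1 (by linarith)) (eq_one_of_re _ u2 (by linarith)) l g
  rw [map_add, map_sub, add_apply, sub_apply, map_smul, smul_apply, smul_eq_mul] at h3
  have h4 : (t : 𝕜) * B w (xd.d l g) = 0 := by linear_combination h3 / 2
  have h5 : (t : 𝕜) ≠ 0 := by
    rw [Ne, RCLike.ofReal_eq_zero]; exact ht.ne'
  exact (mul_eq_zero.mp h4).resolve_left h5

/-- normalized coordinates of the form -/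
noncomputable def cc (l g : ℕ) (y : Y) : 𝕜 := B y (xd.d l g) / (D.w l g : 𝕜)

include hB in
lemma norm_cc_le_w (l g : ℕ) (y : Y) :
    ‖cc xd B l g y‖ ≤ ‖y‖ * (ω g)⁻¹ / D.w l g := by
  unfold cc
  rw [norm_div, RCLike.norm_ofReal, abs_of_pos (D.w_pos l g)]
  refine div_le_div_of_nonneg_right ?_ (D.w_pos l g).le
  exact (hB _ _).trans (mul_le_mul_of_nonneg_left (xd.hd l g) (norm_nonneg _))

include hB hω in
lemma norm_cc_le (l g : ℕ) (y : Y) :
    ‖cc xd B l g y‖ ≤ ‖y‖ * (ω g)⁻¹ / D.eps l :=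
  (norm_cc_le_w xd B hB l g y).trans
    (div_le_div_of_nonneg_left (mul_nonneg (norm_nonneg _) (inv_pos.mpr (hω g)).le) (D.heps l)
      (D.hw l g))

lemma cc_add (l g : ℕ) (y z : Y) : cc xd B l g (y + z) = cc xd B l g y + cc xd B l g z := by
  unfold cc
  rw [map_add, add_apply, add_div]

lemma cc_sub (l g : ℕ) (y z : Y) : cc xd B l g (y - z) = cc xd B l g y - cc xd B l g z := by
  unfold cc
  rw [map_sub, sub_apply, sub_div]

include hω in
lemma inv_mul_r (g : ℕ) : (ω g)⁻¹ * (ω g * D.r g) = D.r g := by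
  have := (hω g).ne'
  field_simp

include hω hA hB in
lemma cc_A_bound (l g h : ℕ) (y : Y) :
    ‖cc xd B l g y * (D.A g h : 𝕜)‖ ≤ (‖y‖ / D.eps l) * D.r g := by
  rw [norm_mul, RCLike.norm_ofReal]
  have h1 := norm_cc_le xd hω B hB l g y
  have h2 := hA g h
  calc ‖cc xd B l g y‖ * |D.A g h| ≤ (‖y‖ * (ω g)⁻¹ / D.eps l) * (ω g * D.r g) :=
        mul_le_mul h1 h2 (abs_nonneg _)
          (div_nonneg (mul_nonneg (norm_nonneg _) (inv_pos.mpr (hω g)).le) (D.heps l).le)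
    _ = (‖y‖ / D.eps l) * ((ω g)⁻¹ * (ω g * D.r g)) := by ring
    _ = _ := by rw [inv_mul_r hω]

lemma cc_rel (l h : ℕ) (y : Y) : ∑' g, cc xd B l g y * (D.A g h : 𝕜) = 0 := by
  have h1 := (xd.rel l h).mapL (B y)
  rw [map_zero] at h1
  rw [← h1.tsum_eq]
  refine tsum_congr (fun g => ?_)
  unfold cc
  rw [map_smul, smul_eq_mul, RCLike.ofReal_div]
  ring

/-- trace like sums -/
noncomputable def Th (l k : ℕ) : 𝕜 := ∑ g ∈ Finset.range k, cc xd B l g (yd.v l k g)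

include hω hA hB in
lemma Th_bound (l : ℕ) (F : Finset ℕ) (hF : ∀ w : Y,
    (∀ i ∈ F, yd.co i w = 0) → ∀ l g, B w (xd.d l g) = 0) :
    ∃ c : ℝ, ∀ k, ‖Th xd B l k‖ ≤ c * D.tail k := by
  obtain ⟨n, f, z, hfz⟩ := expansion_abs yd.co F
  have hcc : ∀ g y, cc xd B l g y = ∑ j, f j y * cc xd B l g (z j) := by
    intro g y
    have h1 := hF _ (hfz y) l g
    rw [map_sub, sub_apply, sub_eq_zero, map_sum, sum_apply] at h1
    unfold cc
    rw [h1, Finset.sum_div]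
    refine Finset.sum_congr rfl (fun j _ => ?_)
    rw [map_smul, smul_apply, smul_eq_mul, mul_div_assoc]
  refine ⟨∑ j, ‖f j‖ * (‖z j‖ / D.eps l), fun k => ?_⟩
  have h3 : Th xd B l k =
      ∑ j, f j (∑ g ∈ Finset.range k, cc xd B l g (z j) • yd.v l k g) := by
    unfold Th
    have : ∀ g ∈ Finset.range k, cc xd B l g (yd.v l k g) =
        ∑ j, f j (yd.v l k g) * cc xd B l g (z j) := fun g _ => hcc g _
    rw [Finset.sum_congr rfl this, Finset.sum_comm]
    refine Finset.sum_congr rfl (fun j _ => ?_)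
    rw [map_sum]
    refine Finset.sum_congr rfl (fun g _ => ?_)
    rw [map_smul, smul_eq_mul, mul_comm]
  rw [h3, Finset.sum_mul]
  refine (norm_sum_le _ _).trans (Finset.sum_le_sum (fun j _ => ?_))
  refine ((f j).le_opNorm _).trans ?_
  rw [mul_assoc]
  exact mul_le_mul_of_nonneg_left
    (yd.comb l k _ _ (fun g h => cc_A_bound xd hω hA B hB l g h (z j))
      (fun h => cc_rel xd B l h (z j))) (norm_nonneg (f j))

include hω hA hB in
/-- The main estimate. -/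
theorem main_est (l M : ℕ) (hM1 : ∀ g, g < M → D.w l g = 1) (F : Finset ℕ)
    (hF : ∀ w : Y, (∀ i ∈ F, yd.co i w = 0) →
      ∀ l g, B w (xd.d l g) = 0) :
    ‖∑ g ∈ Finset.range M, B (yd.v l M g) (xd.d l g)‖ ≤
      D.eps l * ∑' g, D.r g + D.tail M / D.eps l := by
  obtain ⟨c1, hc1⟩ := Th_bound xd hω hA B hB l F hF
  have he := D.heps l
  have hcw : ∀ g ∈ Finset.range M, B (yd.v l M g) (xd.d l g) = cc xd B l g (yd.v l M g) := by
    intro g hg
    unfold cc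
    rw [hM1 g (Finset.mem_range.mp hg), RCLike.ofReal_one, div_one]
  rw [Finset.sum_congr rfl hcw]
  have key : ∀ k, M ≤ k → ‖∑ g ∈ Finset.range M, cc xd B l g (yd.v l M g)‖ ≤
      c1 * D.tail k + (D.eps l * ∑' g, D.r g + D.tail M / D.eps l) := by
    intro k hk
    have e1 : ∑ g ∈ Finset.range M, cc xd B l g (yd.v l M g) = Th xd B l k -
        (∑ g ∈ Finset.range M, cc xd B l g (yd.v l k g - yd.v l M g) +
          ∑ g ∈ Finset.Ico M k, cc xd B l g (yd.v l k g)) := by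
      unfold Th
      rw [← Finset.sum_range_add_sum_Ico _ hk]
      have : ∑ g ∈ Finset.range M, cc xd B l g (yd.v l k g - yd.v l M g) =
          ∑ g ∈ Finset.range M, cc xd B l g (yd.v l k g) -
          ∑ g ∈ Finset.range M, cc xd B l g (yd.v l M g) := by
        rw [← Finset.sum_sub_distrib]
        refine Finset.sum_congr rfl (fun g _ => ?_)
        rw [cc_sub]
      rw [this]; ring
    rw [e1]
    have b0 := hc1 k
    have b1 : ‖∑ g ∈ Finset.range M, cc xd B l g (yd.v l k g - yd.v l M g)‖ ≤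
        D.eps l * ∑' g, D.r g := by
      refine (norm_sum_le _ _).trans ?_
      have h1 : ∀ g ∈ Finset.range M, ‖cc xd B l g (yd.v l k g - yd.v l M g)‖ ≤
          D.eps l * D.r g := by
        intro g hg
        have hgM := Finset.mem_range.mp hg
        have h2 := norm_cc_le_w xd B hB l g (yd.v l k g - yd.v l M g)
        rw [hM1 g hgM, div_one] at h2
        have h3 := yd.hvs l k M g (ω g * D.r g) (hA g) (by omega) hgM
        calc _ ≤ ‖yd.v l k g - yd.v l M g‖ * (ω g)⁻¹ := h2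
          _ ≤ (D.eps l * (ω g * D.r g)) * (ω g)⁻¹ :=
            mul_le_mul_of_nonneg_right h3 (inv_pos.mpr (hω g)).le
          _ = D.eps l * ((ω g)⁻¹ * (ω g * D.r g)) := by ring
          _ = _ := by rw [inv_mul_r hω]
      refine (Finset.sum_le_sum h1).trans ?_
      rw [← Finset.mul_sum]
      exact mul_le_mul_of_nonneg_left (D.hr.sum_le_tsum _ (fun g _ => D.r_nonneg g)) he.le
    have b2 : ‖∑ g ∈ Finset.Ico M k, cc xd B l g (yd.v l k g)‖ ≤ D.tail M / D.eps l := by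
      refine (norm_sum_le _ _).trans ?_
      have h1 : ∀ g ∈ Finset.Ico M k, ‖cc xd B l g (yd.v l k g)‖ ≤
          (D.eps l)⁻¹ * D.r g := by
        intro g _
        have h2 := norm_cc_le xd hω B hB l g (yd.v l k g)
        have h3 := yd.hv l k g (ω g * D.r g) (hA g)
        calc _ ≤ ‖yd.v l k g‖ * (ω g)⁻¹ / D.eps l := h2
          _ ≤ (ω g * D.r g) * (ω g)⁻¹ / D.eps l :=
            div_le_div_of_nonneg_right
              (mul_le_mul_of_nonneg_right h3 (inv_pos.mpr (hω g)).le) he.le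
          _ = (D.eps l)⁻¹ * ((ω g)⁻¹ * (ω g * D.r g)) := by ring
          _ = _ := by rw [inv_mul_r hω]
      refine (Finset.sum_le_sum h1).trans ?_
      rw [← Finset.mul_sum]
      have h7 := mul_le_mul_of_nonneg_left (D.sum_Ico_le M k) (inv_nonneg.mpr he.le)
      refine h7.trans (le_of_eq ?_)
      ring
    have b3 := norm_add_le (∑ g ∈ Finset.range M, cc xd B l g (yd.v l k g - yd.v l M g))
      (∑ g ∈ Finset.Ico M k, cc xd B l g (yd.v l k g))
    have b4 := norm_sub_le (Th xd B l k)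
      (∑ g ∈ Finset.range M, cc xd B l g (yd.v l k g - yd.v l M g) +
          ∑ g ∈ Finset.Ico M k, cc xd B l g (yd.v l k g))
    linarith
  have hlim : Tendsto (fun k => c1 * D.tail k + (D.eps l * ∑' g, D.r g + D.tail M / D.eps l))
      atTop (𝓝 (c1 * 0 + (D.eps l * ∑' g, D.r g + D.tail M / D.eps l))) :=
    (D.tendsto_tail.const_mul c1).add_const _
  rw [mul_zero, zero_add] at hlim
  exact ge_of_tendsto hlim (eventually_atTop.mpr ⟨M, key⟩)

end

end Pool.Agent.Y277.NN
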