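import Pool.Agent.Y277.NN.YC

/-!
The properties of the range space used in the proof, as a structure.
-/

set_option autoImplicit false
set_option maxHeartbeats 1000000
open scoped ENNReal Topology
open Filter

namespace Pool.Agent.Y277.NN

open Pool.Agent.Helper362.ApNoBap (Data)

/-- the properties of the range space -/
structure YD (𝕜 : Type) [RCLike 𝕜] (D : Data) (Y : Type) [NormedAddCommGroup Y]
    [NormedSpace 𝕜 Y] where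
  /-- coordinate functionals -/
  co : ℕ → (Y →L[𝕜] 𝕜)
  flat : ∀ y, ‖y‖ = 1 → ∃ F : Finset ℕ, ∀ w, (∀ i ∈ F, co i w = 0) →
    ∃ t : ℝ, 0 < t ∧ ‖y + (t : 𝕜) • w‖ ≤ 1 ∧ ‖y - (t : 𝕜) • w‖ ≤ 1
  /-- basic vectors -/
  v : ℕ → ℕ → ℕ → Y
  hv : ∀ l k g (c : ℝ), (∀ h, |D.A g h| ≤ c) → ‖v l k g‖ ≤ c
  hvs : ∀ l k M g (c : ℝ), (∀ h, |D.A g h| ≤ c) → g < k → g < M →
    ‖v l k g - v l M g‖ ≤ D.eps l * c
  comb : ∀ l k (c : ℕ → 𝕜) (C : ℝ), (∀ g h, ‖c g * (D.A g h : 𝕜)‖ ≤ C * D.r g) →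
    (∀ h, ∑' g, c g * (D.A g h : 𝕜) = 0) → ‖∑ g ∈ Finset.range k, c g • v l k g‖ ≤ C * D.tail k
  cov : ∀ l M g, g < M → co (D.e.symm (l, 0, g)) (v l M g) = (D.w l g : 𝕜) * (D.A g g : 𝕜)
  /-- restrictions to the first blocks -/
  R : ℕ → (Y →L[𝕜] Y)
  hR : ∀ L, ‖R L‖ ≤ 1
  limR : ∀ y, Tendsto (fun L => R L y) atTop (𝓝 y)
  Rv : ∀ L l k g, L ≤ l → R L (v l k g) = 0
  /-- finite rank operators -/
  T : ℕ → ℕ → (Y →L[𝕜] Y)
  Tfin : ∀ L N, FiniteDimensional 𝕜 (LinearMap.range (T L N : Y →ₗ[𝕜] Y))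
  hT : ∀ L N, ‖T L N‖ ≤ 1 + D.B L
  limT : ∀ L y, Tendsto (fun N => T L N y) atTop (𝓝 (R L y))

section

variable {𝕜 : Type} [RCLike 𝕜] (D : Data)

lemma norm_coe_S (y : S 𝕜 D) : ‖(y : lp (fun _ : ℕ => 𝕜) ∞)‖ = ‖y‖ := rfl

lemma flatS (y : S 𝕜 D) (hy : ‖y‖ = 1) : ∃ F : Finset ℕ, ∀ w : S 𝕜 D,
    (∀ i ∈ F, (w : lp (fun _ : ℕ => 𝕜) ∞) i = 0) →
    ∃ t : ℝ, 0 < t ∧ ‖y + (t : 𝕜) • w‖ ≤ 1 ∧ ‖y - (t : 𝕜) • w‖ ≤ 1 := by
  have h1 := (Metric.tendsto_nhds.mp (S_c0 (𝕜 := 𝕜) D y y.2)) (1 / 2) (by norm_num)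
  rw [eventually_cofinite] at h1
  refine ⟨h1.toFinset, fun w hw => ?_⟩
  have hw0 : 0 < 2 * (‖w‖ + 1) := by positivity
  set t : ℝ := 1 / (2 * (‖w‖ + 1)) with ht
  have ht0 : 0 < t := by positivity
  have key : ∀ c : 𝕜, ‖c‖ = t → ‖y + c • w‖ ≤ 1 := by
    intro c hc
    rw [← norm_coe_S]
    refine norm_le _ 1 zero_le_one (fun i => ?_)
    have e1 : ((y + c • w : S 𝕜 D) : lp (fun _ : ℕ => 𝕜) ∞) i =
        (y : lp (fun _ : ℕ => 𝕜) ∞) i + c * (w : lp (fun _ : ℕ => 𝕜) ∞) i := rfl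
    rw [e1]
    by_cases hi : i ∈ h1.toFinset
    · rw [hw i hi, mul_zero, add_zero]
      have := abs_le_norm (y : lp (fun _ : ℕ => 𝕜) ∞) i
      rw [norm_coe_S, hy] at this
      exact this
    · rw [Set.Finite.mem_toFinset] at hi
      have h2 : dist ((y : lp (fun _ : ℕ => 𝕜) ∞) i) 0 < 1 / 2 := by
        by_contra hc
        exact hi hc
      rw [dist_eq_norm, sub_zero] at h2
      have h3 : ‖c * (w : lp (fun _ : ℕ => 𝕜) ∞) i‖ ≤ 1 / 2 := by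
        rw [norm_mul, hc]
        have h4 : ‖(w : lp (fun _ : ℕ => 𝕜) ∞) i‖ ≤ ‖w‖ :=
          abs_le_norm (w : lp (fun _ : ℕ => 𝕜) ∞) i
        rw [ht, one_div, inv_mul_le_iff₀ hw0]
        linarith
      refine (norm_add_le _ _).trans ?_
      linarith
  refine ⟨t, ht0, key _ ?_, ?_⟩
  · rw [RCLike.norm_ofReal, abs_of_pos ht0]
  · have := key (-(t : 𝕜)) (by rw [norm_neg, RCLike.norm_ofReal, abs_of_pos ht0])
    rwa [neg_smul, ← sub_eq_add_neg] at this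

/-- coordinate functionals of the space -/
noncomputable def coS (i : ℕ) : S 𝕜 D →L[𝕜] 𝕜 :=
  LinearMap.mkContinuous
    { toFun := fun x => (x : lp (fun _ : ℕ => 𝕜) ∞) i
      map_add' := fun x y => rfl
      map_smul' := fun c x => rfl } 1 (fun x => by
      rw [one_mul]
      exact abs_le_norm (x : lp (fun _ : ℕ => 𝕜) ∞) i)

lemma coS_apply (i : ℕ) (y : S 𝕜 D) : coS D i y = (y : lp (fun _ : ℕ => 𝕜) ∞) i := rfl

lemma coS_v (l M g : ℕ) (hg : g < M) :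
    coS D (D.e.symm (l, 0, g)) (v 𝕜 D l M g) = (D.w l g : 𝕜) * (D.A g g : 𝕜) := by
  rw [coS_apply, v_coe D l M g hg, J_apply, row_apply, Equiv.apply_symm_apply]
  unfold Data.jc
  rw [Equiv.apply_symm_apply]
  simp

lemma RS_v (L l k g : ℕ) (hl : L ≤ l) : RS 𝕜 D L (v 𝕜 D l k g) = 0 := by
  by_cases h : g < k
  · refine Subtype.ext ?_
    rw [RS_coe, v_coe D l k g h, R_J_ge D L l k hl]
    rfl
  · unfold v
    rw [dif_neg h]
    refine Subtype.ext ?_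
    rw [RS_coe]
    exact (R 𝕜 D L).map_zero

variable (𝕜) in
/-- the structure on the subspace of the null sequences -/
noncomputable def ydS : YD 𝕜 D (S 𝕜 D) where
  co := coS D
  flat := flatS D
  v := v 𝕜 D
  hv := norm_v_le D
  hvs := norm_v_sub_le D
  comb := norm_comb_le D
  cov := coS_v D
  R := RS 𝕜 D
  hR := norm_RS_le 𝕜 D
  limR := tendsto_RS 𝕜 D
  Rv := RS_v D
  T := T 𝕜 D
  Tfin := T_fin 𝕜 D
  hT := norm_T_le 𝕜 D
  limT := tendsto_T 𝕜 D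

end

end Pool.Agent.Y277.NN
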