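import Pool.Agent.Y277.NN.NB
import Pool.Agent.Y277.NN.YD

/-!
The pairing of a bounded bilinear form with a nuclear operator into the space does not depend on
the nuclear representation.
-/

set_option autoImplicit false
open Filter Topology
open scoped ENNReal

namespace Pool.Agent.Y277.NN

open Pool.Agent.Helper362.ApNoBap (Data)

section

variable {𝕜 : Type} [RCLike 𝕜] {D : Data}
variable {X Y : Type} [NormedAddCommGroup X] [NormedSpace 𝕜 X] [NormedAddCommGroup Y]
  [NormedSpace 𝕜 Y] (yd : YD 𝕜 D Y)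
  (B : Y →L[𝕜] (X →L[𝕜] 𝕜) →L[𝕜] 𝕜)
  {ι : Type} (s : Finset ι) (a : ι → X →L[𝕜] 𝕜) (b : ι → Y)
  (f : ℕ → X →L[𝕜] 𝕜) (y : ℕ → Y)

/-- the trace formula holds after composition with an operator -/
def Good (P : Y →L[𝕜] Y) : Prop :=
  ∑' n, B (P (y n)) (f n) = ∑ i ∈ s, B (P (b i)) (a i)

lemma good_fin (hrep : IsRep (∑ i ∈ s, (a i).smulRight (b i)) f y) (P : Y →L[𝕜] Y)
    (hP : FiniteDimensional 𝕜 (LinearMap.range (P : Y →ₗ[𝕜] Y))) :
    Good B s a b f y P := by
  set Rg := LinearMap.range (P : Y →ₗ[𝕜] Y) with hRg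
  let c := Module.finBasis 𝕜 Rg
  let P' : Y →L[𝕜] Rg := P.codRestrict Rg (fun x => ⟨x, rfl⟩)
  let φ : Fin (Module.finrank 𝕜 Rg) → (Y →L[𝕜] 𝕜) := fun j =>
    (LinearMap.toContinuousLinearMap (c.coord j)).comp P'
  have hφ : ∀ x, P x = ∑ j, φ j x • ((c j : Rg) : Y) := by
    intro x
    have h1 := c.sum_repr (P' x)
    have h2 : ((P' x : Rg) : Y) = P x := rfl
    rw [← h2, ← h1]
    rw [AddSubmonoidClass.coe_finsetSum]
    exact Finset.sum_congr rfl (fun j _ => rfl)
  have h1 : ∀ j, HasSum (fun n => φ j (y n) * B ((c j : Rg) : Y) (f n))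
      (∑ i ∈ s, φ j (b i) * B ((c j : Rg) : Y) (a i)) := by
    intro j
    have hs : Summable (fun n => φ j (y n) • f n) := by
      refine Summable.of_norm_bounded (hrep.1.mul_left ‖φ j‖) (fun n => ?_)
      rw [norm_smul]
      calc ‖φ j (y n)‖ * ‖f n‖ ≤ (‖φ j‖ * ‖y n‖) * ‖f n‖ :=
            mul_le_mul_of_nonneg_right ((φ j).le_opNorm _) (norm_nonneg _)
        _ = _ := by ring
    have h0 : ∑' n, φ j (y n) • f n = ∑ i ∈ s, φ j (b i) • a i := by
      refine ContinuousLinearMap.ext (fun x => ?_)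
      have h2 : HasSum (fun n => (φ j (y n) • f n) x) ((∑' n, φ j (y n) • f n) x) :=
        hs.hasSum.mapL (ContinuousLinearMap.apply 𝕜 𝕜 x)
      have h3 := (hrep.2 x).mapL (φ j)
      have h4 : φ j ((∑ i ∈ s, (a i).smulRight (b i)) x) = (∑ i ∈ s, φ j (b i) • a i) x := by
        rw [sum_apply, map_sum, sum_apply]
        refine Finset.sum_congr rfl (fun i _ => ?_)
        show φ j (a i x • b i) = φ j (b i) * a i x
        rw [map_smul, smul_eq_mul, mul_comm]
      rw [h4] at h3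
      refine h2.unique ?_
      convert h3 using 2
      rw [map_smul, smul_eq_mul, mul_comm]
      rfl
    have h5 := hs.hasSum.mapL (B ((c j : Rg) : Y))
    rw [h0, map_sum] at h5
    simp only [map_smul, smul_eq_mul] at h5
    exact h5
  have h2 := hasSum_sum (s := Finset.univ) (fun j _ => h1 j)
  unfold Good
  have h3 : ∀ z : Y, ∀ g : X →L[𝕜] 𝕜, B (P z) g =
      ∑ j, φ j z * B ((c j : Rg) : Y) g := by
    intro z g
    rw [hφ, map_sum, sum_apply]
    refine Finset.sum_congr rfl (fun j _ => ?_)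
    rw [map_smul, smul_apply, smul_eq_mul]
  simp_rw [h3]
  rw [h2.tsum_eq, Finset.sum_comm]

lemma good_lim (hB : ∀ y x', ‖B y x'‖ ≤ ‖y‖ * ‖x'‖) (hsum : Summable (fun n => ‖f n‖ * ‖y n‖)) (T : ℕ → Y →L[𝕜] Y)
    (T0 : Y →L[𝕜] Y) (C : ℝ) (hC : ∀ m, ‖T m‖ ≤ C)
    (hlim : ∀ x, Tendsto (fun m => T m x) atTop (𝓝 (T0 x)))
    (hgood : ∀ m, Good B s a b f y (T m)) : Good B s a b f y T0 := by
  have hlim' : ∀ x g, Tendsto (fun m => B (T m x) g) atTop (𝓝 (B (T0 x) g)) := by
    intro x g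
    have h1 : Continuous (fun z => B z g) := (B.flip g).continuous
    exact (h1.tendsto _).comp (hlim x)
  have h1 : Tendsto (fun m => ∑' n, B (T m (y n)) (f n)) atTop
      (𝓝 (∑' n, B (T0 (y n)) (f n))) := by
    refine tendsto_tsum_of_dominated_convergence (bound := fun n => C * (‖f n‖ * ‖y n‖))
      (hsum.mul_left _) (fun n => ?_) (Eventually.of_forall (fun m n => ?_))
    · exact hlim' (y n) (f n)
    · have e1 : ‖B (T m (y n)) (f n)‖ ≤ ‖T m (y n)‖ * ‖f n‖ := hB _ _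
      have e3 : ‖T m (y n)‖ ≤ C * ‖y n‖ := (T m).le_of_opNorm_le (hC m) _
      calc _ ≤ _ := e1
        _ ≤ (C * ‖y n‖) * ‖f n‖ := mul_le_mul_of_nonneg_right e3 (norm_nonneg _)
        _ = _ := by ring
  have h2 : Tendsto (fun m => ∑ i ∈ s, B (T m (b i)) (a i)) atTop
      (𝓝 (∑ i ∈ s, B (T0 (b i)) (a i))) :=
    tendsto_finsetSum _ (fun i _ => hlim' (b i) (a i))
  have h3 : (fun m => ∑' n, B (T m (y n)) (f n)) = fun m => ∑ i ∈ s, B (T m (b i)) (a i) :=
    funext hgood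
  rw [h3] at h1
  exact tendsto_nhds_unique h1 h2

include yd in
/-- The pairing of a nuclear operator with a bilinear form does not depend on the
representation. -/
theorem trace_eq (hB : ∀ y x', ‖B y x'‖ ≤ ‖y‖ * ‖x'‖)
    (hrep : IsRep (∑ i ∈ s, (a i).smulRight (b i)) f y) :
    ∑' n, B (y n) (f n) = ∑ i ∈ s, B (b i) (a i) := by
  have h1 : ∀ L, Good B s a b f y (yd.R L) := by
    intro L
    refine good_lim B s a b f y hB hrep.1 (fun N => yd.T L N) (yd.R L) (1 + D.B L)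
      (fun N => yd.hT L N) (yd.limT L)
      (fun N => good_fin B s a b f y hrep _ (yd.Tfin L N))
  exact good_lim B s a b f y hB hrep.1 (fun L => yd.R L) (ContinuousLinearMap.id 𝕜 Y) 1
    (fun L => yd.hR L) yd.limR h1

include yd in
/-- A bilinear form of norm at most one gives a lower bound of the nuclear norm. -/
theorem nn_lower (hB : ∀ y x', ‖B y x'‖ ≤ ‖y‖ * ‖x'‖) :
    ‖∑ i ∈ s, B (b i) (a i)‖ ≤ nuclearNorm (∑ i ∈ s, (a i).smulRight (b i)) := by
  refine le_nn (nuclear_sum s a b) _ (fun f y hrep => ?_)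
  rw [← trace_eq yd B s a b f y hB hrep]
  exact tsum_of_norm_bounded hrep.1.hasSum (fun n => by
    rw [mul_comm]
    exact hB _ _)

end

end Pool.Agent.Y277.NN
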