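import Pool.Agent.Y277.NN.MA
import Pool.Agent.Y277.NN.NC

/-!
Assembly: the operators attaining their nuclear norm are nowhere dense.
-/

set_option autoImplicit false
set_option maxHeartbeats 1000000
open scoped ENNReal Topology
open Filter

namespace Pool.Agent.Y277.NN

open Pool.Agent.Helper362.ApNoBap (Data)

section

variable {𝕜 : Type} [RCLike 𝕜] {D : Data} {ω : ℕ → ℝ} {X Y : Type} [NormedAddCommGroup X]
  [NormedSpace 𝕜 X] [NormedAddCommGroup Y] [NormedSpace 𝕜 Y] {yd : YD 𝕜 D Y}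
  (xd : XD 𝕜 D ω X Y yd)

/-- functionals are almost carried by the first blocks -/
lemma comp_Q_lim (x' : X →L[𝕜] 𝕜) (δ : ℝ) (hδ : 0 < δ) :
    ∃ L0, ∀ L ≥ L0, ‖x'.comp (ContinuousLinearMap.id 𝕜 X - xd.Q L)‖ ≤ δ := by
  have hx : 0 ≤ ‖x'‖ := norm_nonneg x'
  set β : ℝ := min 1 (δ / (2 * (‖x'‖ + 1))) with hβ
  have hβ0 : 0 < β := lt_min one_pos (by positivity)
  have hβ1 : β ≤ 1 := min_le_left _ _
  have hβ2 : β * ‖x'‖ ≤ δ / 2 := by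
    have h1 : β ≤ δ / (2 * (‖x'‖ + 1)) := min_le_right _ _
    rw [le_div_iff₀ (by positivity)] at h1
    nlinarith
  obtain ⟨u, hu1, hu2⟩ := exists_almost x' (β * δ / 4) (by positivity)
  have hlim : Tendsto (fun L => x' (xd.Q L u)) atTop (𝓝 (x' u)) :=
    (x'.continuous.tendsto _).comp (xd.Qlim u)
  obtain ⟨L0, hL0⟩ := Metric.tendsto_atTop.mp hlim (β * δ / 4) (by positivity)
  refine ⟨L0, fun L hL => ?_⟩
  have h1 := hL0 L hL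
  rw [dist_eq_norm] at h1
  have h2 := xd.ab L β hβ0.le hβ1 x'
  have h3 : ‖x'‖ - β * δ / 2 ≤ ‖x'.comp (xd.Q L)‖ := by
    have e1 : RCLike.re (x' (xd.Q L u)) ≤ ‖x'.comp (xd.Q L)‖ := by
      refine (RCLike.re_le_norm _).trans ?_
      have := (x'.comp (xd.Q L)).le_opNorm u
      refine this.trans ?_
      calc ‖x'.comp (xd.Q L)‖ * ‖u‖ ≤ ‖x'.comp (xd.Q L)‖ * 1 :=
            mul_le_mul_of_nonneg_left hu1 (norm_nonneg _)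
        _ = _ := mul_one _
    have e2 : RCLike.re (x' u) - RCLike.re (x' (xd.Q L u)) ≤ β * δ / 4 := by
      have := RCLike.re_le_norm (x' u - x' (xd.Q L u))
      rw [map_sub, norm_sub_rev] at this
      linarith
    linarith
  have hα : 0 ≤ 1 - β ^ 2 := by nlinarith
  have h4 := mul_le_mul_of_nonneg_left h3 hα
  have h5 : β * ‖x'.comp (ContinuousLinearMap.id 𝕜 X - xd.Q L)‖ ≤ β * δ := by
    have h6 : 0 < β * δ := by positivity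
    nlinarith [mul_le_mul_of_nonneg_left hβ2 hβ0.le, sq_nonneg β]
  exact le_of_mul_le_mul_left h5 hβ0

lemma Bc_bound (B0 : Y →L[𝕜] (X →L[𝕜] 𝕜) →L[𝕜] 𝕜) (hB0 : ∀ y x', ‖B0 y x'‖ ≤ ‖y‖ * ‖x'‖)
    (β : ℝ) (hβ0 : 0 ≤ β) (hβ1 : β ≤ 1) (L l : ℕ) (hl : L ≤ l) (y : Y) (x' : X →L[𝕜] 𝕜) :
    ‖((1 - β ^ 2 : ℝ) : 𝕜) * B0 (yd.R L y) (x'.comp (xd.Q L)) +
        ((β / xd.κ : ℝ) : 𝕜) * x' (xd.J l y)‖ ≤ ‖y‖ * ‖x'‖ := by
  have hα : 0 ≤ 1 - β ^ 2 := by nlinarith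
  have hκ : 0 < xd.κ := lt_of_lt_of_le one_pos xd.hκ
  have h1 : ‖B0 (yd.R L y) (x'.comp (xd.Q L))‖ ≤ ‖y‖ * ‖x'.comp (xd.Q L)‖ := by
    refine (hB0 _ _).trans (mul_le_mul_of_nonneg_right ?_ (norm_nonneg _))
    have := (yd.R L).le_of_opNorm_le (yd.hR L) y
    rwa [one_mul] at this
  have h2 : ‖x' (xd.J l y)‖ ≤
      ‖x'.comp (ContinuousLinearMap.id 𝕜 X - xd.Q L)‖ * (xd.κ * ‖y‖) := by
    have e1 : x' (xd.J l y) =
        x'.comp (ContinuousLinearMap.id 𝕜 X - xd.Q L) (xd.J l y) := by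
      show _ = x' (xd.J l y - xd.Q L (xd.J l y))
      rw [xd.QJ L l y hl, sub_zero]
    rw [e1]
    refine (ContinuousLinearMap.le_opNorm _ _).trans ?_
    exact mul_le_mul_of_nonneg_left (xd.hJ' l y) (norm_nonneg _)
  have h3 := xd.ab L β hβ0 hβ1 x'
  refine (norm_add_le _ _).trans ?_
  rw [norm_mul, norm_mul, RCLike.norm_ofReal, RCLike.norm_ofReal, abs_of_nonneg hα,
    abs_of_nonneg (by positivity)]
  have h4 := mul_le_mul_of_nonneg_left h1 hα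
  have h5 := mul_le_mul_of_nonneg_left h2 (show 0 ≤ β / xd.κ by positivity)
  have h6 : β / xd.κ * (‖x'.comp (ContinuousLinearMap.id 𝕜 X - xd.Q L)‖ * (xd.κ * ‖y‖)) =
      ‖y‖ * (β * ‖x'.comp (ContinuousLinearMap.id 𝕜 X - xd.Q L)‖) := by
    field_simp
  rw [h6] at h5
  have h7 := mul_le_mul_of_nonneg_left h3 (norm_nonneg y)
  linarith

/-- the combined form -/
noncomputable def Bc (B0 : Y →L[𝕜] (X →L[𝕜] 𝕜) →L[𝕜] 𝕜) (hB0 : ∀ y x', ‖B0 y x'‖ ≤ ‖y‖ * ‖x'‖)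
    (β : ℝ) (hβ0 : 0 ≤ β) (hβ1 : β ≤ 1) (L l : ℕ) (hl : L ≤ l) :
    Y →L[𝕜] (X →L[𝕜] 𝕜) →L[𝕜] 𝕜 :=
  LinearMap.mkContinuous₂ (LinearMap.mk₂ 𝕜 (fun (y : Y) (x' : X →L[𝕜] 𝕜) =>
      ((1 - β ^ 2 : ℝ) : 𝕜) * B0 (yd.R L y) (x'.comp (xd.Q L)) +
        ((β / xd.κ : ℝ) : 𝕜) * x' (xd.J l y))
    (fun y y' x' => by
      rw [map_add, map_add, add_apply, map_add, map_add]; ring)
    (fun c y x' => by
      rw [map_smul, map_smul, smul_apply, map_smul, map_smul, smul_eq_mul, smul_eq_mul,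
        smul_eq_mul]; ring)
    (fun y x' x'' => by
      rw [ContinuousLinearMap.add_comp, map_add, add_apply]; ring)
    (fun c y x' => by
      rw [ContinuousLinearMap.smul_comp, map_smul, smul_apply, smul_eq_mul, smul_eq_mul,
        smul_eq_mul]; ring)) 1 (fun y x' => by
      rw [one_mul]
      exact Bc_bound xd B0 hB0 β hβ0 hβ1 L l hl y x')

lemma Bc_apply (B0 : Y →L[𝕜] (X →L[𝕜] 𝕜) →L[𝕜] 𝕜) (hB0 : ∀ y x', ‖B0 y x'‖ ≤ ‖y‖ * ‖x'‖)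
    (β : ℝ) (hβ0 : 0 ≤ β) (hβ1 : β ≤ 1) (L l : ℕ) (hl : L ≤ l) (y : Y) (x' : X →L[𝕜] 𝕜) :
    Bc xd B0 hB0 β hβ0 hβ1 L l hl y x' =
      ((1 - β ^ 2 : ℝ) : 𝕜) * B0 (yd.R L y) (x'.comp (xd.Q L)) +
        ((β / xd.κ : ℝ) : 𝕜) * x' (xd.J l y) := rfl

lemma Bc_le (B0 : Y →L[𝕜] (X →L[𝕜] 𝕜) →L[𝕜] 𝕜) (hB0 : ∀ y x', ‖B0 y x'‖ ≤ ‖y‖ * ‖x'‖)
    (β : ℝ) (hβ0 : 0 ≤ β) (hβ1 : β ≤ 1) (L l : ℕ) (hl : L ≤ l) (y : Y) (x' : X →L[𝕜] 𝕜) :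
    ‖Bc xd B0 hB0 β hβ0 hβ1 L l hl y x'‖ ≤ ‖y‖ * ‖x'‖ := by
  rw [Bc_apply]
  exact Bc_bound xd B0 hB0 β hβ0 hβ1 L l hl y x'

/-- the bad operators -/
noncomputable def TT (l M : ℕ) : X →L[𝕜] Y :=
  ∑ g ∈ Finset.range M, (xd.d l g).smulRight (yd.v l M g)

lemma nuclear_TT (l M : ℕ) : IsNuclear (TT xd l M) := nuclear_sum _ _ _

variable (hω : ∀ g, 0 < ω g) (hA : ∀ g h, |D.A g h| ≤ ω g * D.r g)

include hω hA in
lemma nn_TT_le (l M : ℕ) : nuclearNorm (TT xd l M) ≤ ∑' g, D.r g := by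
  refine (nn_sum_le _ _ _).trans ?_
  refine le_trans (Finset.sum_le_sum (fun g _ => ?_))
    (D.hr.sum_le_tsum (Finset.range M) (fun g _ => D.r_nonneg g))
  have h1 := xd.hd l g
  have h2 := yd.hv l M g (ω g * D.r g) (hA g)
  calc ‖xd.d l g‖ * ‖yd.v l M g‖ ≤ (ω g)⁻¹ * (ω g * D.r g) :=
        mul_le_mul h1 h2 (norm_nonneg _) (inv_pos.mpr (hω g)).le
    _ = _ := inv_mul_r hω g

lemma sum_dJ (l M : ℕ) (hM1 : ∀ g, g < M → D.w l g = 1) :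
    ∑ g ∈ Finset.range M, xd.d l g (xd.J l (yd.v l M g)) =
      ((∑ g ∈ Finset.range M, D.A g g : ℝ) : 𝕜) := by
  rw [RCLike.ofReal_sum]
  refine Finset.sum_congr rfl (fun g hg => ?_)
  have hgM := Finset.mem_range.mp hg
  rw [xd.dJ, yd.cov l M g hgM, hM1 g hgM, RCLike.ofReal_one, one_mul]

lemma diag_ge (M : ℕ) (h : D.tail M ≤ 1 / 4) : 3 / 4 ≤ ∑ g ∈ Finset.range M, D.A g g := by
  have := (abs_le.mp (D.abs_sum_diag M)).1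
  linarith

include hω hA in
/-- forms that attain their norm are small on the bad operators -/
lemma form_small (B : Y →L[𝕜] (X →L[𝕜] 𝕜) →L[𝕜] 𝕜) (hB : ∀ y x', ‖B y x'‖ ≤ ‖y‖ * ‖x'‖)
    (y : Y) (x' : X →L[𝕜] 𝕜) (hy : ‖y‖ = 1) (hx' : ‖x'‖ = 1) (h1 : B y x' = 1)
    (l M : ℕ) (hM1 : ∀ g, g < M → D.w l g = 1)
    (hM2 : ((l + 1 : ℝ) / D.eps l + 1) * D.tail M ≤ 1 / 4)
    (hE : (l + 1 : ℝ) * D.eps l * ∑' g, D.r g ≤ 1 / 4) :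
    ‖∑ g ∈ Finset.range M, B (yd.v l M g) (xd.d l g)‖ ≤ 1 / (2 * (l + 1)) := by
  obtain ⟨F, hF⟩ := kills xd B hB y x' hy hx' h1
  refine (main_est xd hω hA B hB l M hM1 F hF).trans ?_
  have he := D.heps l
  have ht := D.tail_nonneg M
  have hl : (0 : ℝ) < l + 1 := by positivity
  have e1 : D.eps l * ∑' g, D.r g ≤ 1 / (4 * (l + 1)) := by
    rw [le_div_iff₀ (by positivity)]
    nlinarith
  have e2 : D.tail M / D.eps l ≤ 1 / (4 * (l + 1)) := by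
    rw [le_div_iff₀ (by positivity)]
    have : (l + 1 : ℝ) / D.eps l * D.tail M = (l + 1) * (D.tail M / D.eps l) := by ring
    nlinarith
  calc _ ≤ 1 / (4 * ((l : ℝ) + 1)) + 1 / (4 * (l + 1)) := add_le_add e1 e2
    _ = _ := by field_simp; norm_num

lemma tail_le (l M : ℕ) (hM2 : ((l + 1 : ℝ) / D.eps l + 1) * D.tail M ≤ 1 / 4) :
    D.tail M ≤ 1 / 4 := by
  have he := D.heps l
  have ht := D.tail_nonneg M
  have h1 : 0 ≤ (l + 1 : ℝ) / D.eps l * D.tail M := by positivity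
  nlinarith

end

end Pool.Agent.Y277.NN
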