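import Pool.Agent.Y277.NN.MB

/-!
The operators attaining their nuclear norm are nowhere dense: the abstract theorem.
-/

set_option autoImplicit false
set_option maxHeartbeats 1000000
open scoped ENNReal Topology
open Filter

namespace Pool.Agent.Y277.NN

open Pool.Agent.Helper362.ApNoBap (Data)

section

variable {𝕜 : Type} [RCLike 𝕜] {D : Data} {ω : ℕ → ℝ} {X Y : Type} [NormedAddCommGroup X]
  [NormedSpace 𝕜 X] [NormedAddCommGroup Y] [NormedSpace 𝕜 Y] {yd : YD 𝕜 D Y}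
  (xd : XD 𝕜 D ω X Y yd)

/-- convergence of the compressed form -/
lemma form_lim (B0 : Y →L[𝕜] (X →L[𝕜] 𝕜) →L[𝕜] 𝕜) (hB0 : ∀ y x', ‖B0 y x'‖ ≤ ‖y‖ * ‖x'‖)
    (N : ℕ) (f : ℕ → X →L[𝕜] 𝕜) (y : ℕ → Y) (η : ℝ) (hη : 0 < η) :
    ∃ L, ‖∑ n ∈ Finset.range N, B0 (yd.R L (y n)) ((f n).comp (xd.Q L)) -
      ∑ n ∈ Finset.range N, B0 (y n) (f n)‖ ≤ η := by
  have h1 : ∀ n, Tendsto (fun L => B0 (yd.R L (y n)) ((f n).comp (xd.Q L))) atTop
      (𝓝 (B0 (y n) (f n))) := by
    intro n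
    rw [Metric.tendsto_atTop]
    intro ε hε
    obtain ⟨L1, h1⟩ := comp_Q_lim xd (f n) (ε / (3 * (‖y n‖ + 1))) (by positivity)
    obtain ⟨L2, h2⟩ := Metric.tendsto_atTop.mp (yd.limR (y n)) (ε / (3 * (‖f n‖ + 1)))
      (by positivity)
    refine ⟨max L1 L2, fun L hL => ?_⟩
    have e1 := h1 L (le_trans (le_max_left _ _) hL)
    have e2 := h2 L (le_trans (le_max_right _ _) hL)
    rw [dist_eq_norm] at e2 ⊢
    have e3 : B0 (yd.R L (y n)) ((f n).comp (xd.Q L)) - B0 (y n) (f n) =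
        B0 (yd.R L (y n) - y n) (f n) -
          B0 (yd.R L (y n)) ((f n).comp (ContinuousLinearMap.id 𝕜 X - xd.Q L)) := by
      have e4 : (f n).comp (ContinuousLinearMap.id 𝕜 X - xd.Q L) =
          f n - (f n).comp (xd.Q L) := by
        refine ContinuousLinearMap.ext (fun x => ?_)
        show f n (x - xd.Q L x) = f n x - f n (xd.Q L x)
        rw [map_sub]
      rw [e4, map_sub, map_sub, sub_apply]; ring
    rw [e3]
    have b1 : ‖B0 (yd.R L (y n) - y n) (f n)‖ ≤ ε / 3 := by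
      refine (hB0 _ _).trans ?_
      have : ‖yd.R L (y n) - y n‖ * ‖f n‖ ≤ (ε / (3 * (‖f n‖ + 1))) * (‖f n‖ + 1) :=
        mul_le_mul e2.le (by linarith) (norm_nonneg _) (by positivity)
      refine this.trans (le_of_eq ?_)
      field_simp
    have b2 : ‖B0 (yd.R L (y n)) ((f n).comp (ContinuousLinearMap.id 𝕜 X - xd.Q L))‖ ≤
        ε / 3 := by
      refine (hB0 _ _).trans ?_
      have hr : ‖yd.R L (y n)‖ ≤ ‖y n‖ := by
        have := (yd.R L).le_of_opNorm_le (yd.hR L) (y n)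
        rwa [one_mul] at this
      have : ‖yd.R L (y n)‖ * ‖(f n).comp (ContinuousLinearMap.id 𝕜 X - xd.Q L)‖ ≤
          (‖y n‖ + 1) * (ε / (3 * (‖y n‖ + 1))) :=
        mul_le_mul (by linarith) e1 (norm_nonneg _) (by positivity)
      refine this.trans (le_of_eq ?_)
      field_simp
    have b3 := norm_sub_le (B0 (yd.R L (y n) - y n) (f n))
      (B0 (yd.R L (y n)) ((f n).comp (ContinuousLinearMap.id 𝕜 X - xd.Q L)))
    linarith
  have h2 := tendsto_finsetSum (Finset.range N) (fun n _ => h1 n)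
  obtain ⟨L, hL⟩ := Metric.tendsto_atTop.mp h2 η hη
  have := hL L le_rfl
  rw [dist_eq_norm] at this
  exact ⟨L, this.le⟩

/-- the embeddings of the far blocks are small on given vectors -/
lemma J_lim (N : ℕ) (f : ℕ → X →L[𝕜] 𝕜) (y : ℕ → Y) (η : ℝ) (hη : 0 < η) :
    ∃ l0, ∀ l ≥ l0, ‖∑ n ∈ Finset.range N, f n (xd.J l (y n))‖ ≤ η := by
  have h1 : ∀ n, Tendsto (fun l => f n (xd.J l (y n))) atTop (𝓝 0) := by
    intro n
    have h2 : Tendsto (fun l => ‖f n‖ * (xd.κ * ‖yd.R (l + 1) (y n) - yd.R l (y n)‖)) atTop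
        (𝓝 (‖f n‖ * (xd.κ * ‖y n - y n‖))) := by
      have e1 := (yd.limR (y n)).comp (tendsto_add_atTop_nat 1)
      exact (((e1.sub (yd.limR (y n))).norm).const_mul xd.κ).const_mul ‖f n‖
    rw [sub_self, norm_zero, mul_zero, mul_zero] at h2
    rw [tendsto_zero_iff_norm_tendsto_zero]
    refine squeeze_zero (fun l => norm_nonneg _) (fun l => ?_) h2
    exact ((f n).le_opNorm _).trans (mul_le_mul_of_nonneg_left (xd.hJ l (y n)) (norm_nonneg _))
  have h2 := tendsto_finsetSum (Finset.range N) (fun n _ => h1 n)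
  rw [Finset.sum_const_zero] at h2
  obtain ⟨l0, hl0⟩ := Metric.tendsto_atTop.mp h2 η hη
  refine ⟨l0, fun l hl => ?_⟩
  have := hl0 l hl
  rw [dist_eq_norm, sub_zero] at this
  exact this.le

variable (hω : ∀ g, 0 < ω g) (hA : ∀ g h, |D.A g h| ≤ ω g * D.r g)
  (hM : ∀ l : ℕ, ∃ M : ℕ, (∀ g, g < M → D.w l g = 1) ∧
    ((l + 1 : ℝ) / D.eps l + 1) * D.tail M ≤ 1 / 4)
  (hE : ∀ l : ℕ, (l + 1 : ℝ) * D.eps l * ∑' g, D.r g ≤ 1 / 4)

include xd hω hA hM hE in
/-- The operators attaining their nuclear norm are nowhere dense. -/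
theorem nowhere (S0 : X →L[𝕜] Y) (hS0 : IsNuclear S0) (ε : ℝ) (hε : 0 < ε) :
    ∃ T : X →L[𝕜] Y, IsNuclear T ∧ FiniteDimensional 𝕜 (LinearMap.range (T : X →ₗ[𝕜] Y)) ∧
      nuclearNorm (T - S0) < ε ∧
      ∃ δ : ℝ, 0 < δ ∧ ∀ S : X →L[𝕜] Y, AttainsNuclearNorm S → δ ≤ nuclearNorm (T - S) := by
  -- a finite sum near the given operator
  obtain ⟨f, y, hrep⟩ := hS0
  have htail := tendsto_sum_nat_add (fun n => ‖f n‖ * ‖y n‖)
  obtain ⟨N, hN⟩ := (htail.eventually_lt_const (show (0 : ℝ) < ε / 2 by positivity)).exists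
  set S1 : X →L[𝕜] Y := ∑ n ∈ Finset.range N, (f n).smulRight (y n) with hS1
  have hS1n : IsNuclear S1 := nuclear_sum _ _ _
  have hS0n : IsNuclear S0 := ⟨f, y, hrep⟩
  have h01 : nuclearNorm (S0 - S1) < ε / 2 := lt_of_le_of_lt (nn_le (rep_tail hrep N)) hN
  set s1 : ℝ := nuclearNorm S1 with hs1
  have hs10 : 0 ≤ s1 := nn_nonneg _
  obtain ⟨B0, hB0, hB0s⟩ := exists_norming (Finset.range N) f y
  rw [← hS1, ← hs1] at hB0s
  -- parameters
  set R0 : ℝ := ∑' g, D.r g with hR0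
  have hR00 : 0 ≤ R0 := tsum_nonneg D.r_nonneg
  set t : ℝ := ε / (2 * (R0 + 1)) with ht
  have ht0 : 0 < t := by positivity
  have htR : t * R0 < ε / 2 := by
    have h1 : t * (R0 + 1) = ε / 2 := by
      rw [ht]
      field_simp
    nlinarith
  have hκ : 1 ≤ xd.κ := xd.hκ
  have hκ0 : 0 < xd.κ := by linarith
  set β : ℝ := min 1 (t / (4 * xd.κ * (s1 + 1))) with hβ
  have hβ0 : 0 < β := lt_min one_pos (by positivity)
  have hβ1 : β ≤ 1 := min_le_left _ _
  have hβ2 : β * s1 ≤ t / (4 * xd.κ) := by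
    have h1 : β ≤ t / (4 * xd.κ * (s1 + 1)) := min_le_right _ _
    have h2 : β * (s1 + 1) ≤ t / (4 * xd.κ) := by
      have h3 : t / (4 * xd.κ * (s1 + 1)) * (s1 + 1) = t / (4 * xd.κ) := by
        field_simp
      rw [← h3]
      exact mul_le_mul_of_nonneg_right h1 (by linarith)
    nlinarith
  set G : ℝ := t * β / (2 * xd.κ) with hG
  have hG0 : 0 < G := by positivity
  obtain ⟨L, hL⟩ := form_lim xd B0 hB0 N f y (G / 16) (by positivity)
  obtain ⟨l0, hl0⟩ := J_lim xd N f y (G / 16) (by positivity)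
  obtain ⟨l1, hl1⟩ := exists_nat_gt (t / (G / 8))
  set l : ℕ := max L (max l0 l1) with hl
  have hlL : L ≤ l := le_max_left _ _
  have hll0 : l0 ≤ l := le_trans (le_max_left _ _) (le_max_right _ _)
  have hll1 : (l1 : ℝ) ≤ l := by
    exact_mod_cast le_trans (le_max_right _ _) (le_max_right _ _)
  obtain ⟨M, hM1, hM2⟩ := hM l
  have hsm : t * (1 / (2 * ((l : ℝ) + 1))) ≤ G / 8 := by
    have h1 : t / (G / 8) < l + 1 := by linarith
    rw [div_lt_iff₀ (by positivity)] at h1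
    rw [mul_one_div, div_le_iff₀ (by positivity)]
    nlinarith
  -- the operator
  set s : Finset (ℕ ⊕ ℕ) := (Finset.range N).disjSum (Finset.range M) with hs
  set a : ℕ ⊕ ℕ → X →L[𝕜] 𝕜 := Sum.elim f (fun g => xd.d l g) with ha
  set b : ℕ ⊕ ℕ → Y := Sum.elim y (fun g => (t : 𝕜) • yd.v l M g) with hb
  set T : X →L[𝕜] Y := ∑ i ∈ s, (a i).smulRight (b i) with hT
  have hTeq : T = S1 + (t : 𝕜) • TT xd l M := by
    rw [hT, hs, Finset.sum_disjSum, hS1]
    congr 1
    unfold TT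
    rw [Finset.smul_sum]
    refine Finset.sum_congr rfl (fun g _ => ?_)
    refine ContinuousLinearMap.ext (fun x => ?_)
    show xd.d l g x • ((t : 𝕜) • yd.v l M g) = (t : 𝕜) • (xd.d l g x • yd.v l M g)
    rw [smul_comm]
  have hTn : IsNuclear T := nuclear_sum _ _ _
  have hdist : nuclearNorm (T - S0) < ε := by
    have e1 : T - S0 = (S1 - S0) + (t : 𝕜) • TT xd l M := by rw [hTeq]; abel
    rw [e1]
    have e2 := nn_add_le (nuclear_sub hS1n hS0n) (nuclear_smul (t : 𝕜) (nuclear_TT xd l M))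
    rw [nn_smul (nuclear_TT xd l M), RCLike.norm_ofReal, abs_of_pos ht0,
      nn_sub_comm hS1n hS0n] at e2
    have e3 := mul_le_mul_of_nonneg_left (nn_TT_le xd hω hA l M) ht0.le
    linarith
  -- lower bound of its nuclear norm
  have hlow : s1 + 7 * G / 8 ≤ nuclearNorm T := by
    have h1 := nn_lower yd (Bc xd B0 hB0 β hβ0.le hβ1 L l hlL) s a b
      (Bc_le xd B0 hB0 β hβ0.le hβ1 L l hlL)
    rw [← hT] at h1
    refine le_trans ?_ h1
    have e1 : ∑ i ∈ s, Bc xd B0 hB0 β hβ0.le hβ1 L l hlL (b i) (a i) =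
        ((1 - β ^ 2 : ℝ) : 𝕜) *
          (∑ n ∈ Finset.range N, B0 (yd.R L (y n)) ((f n).comp (xd.Q L))) +
        ((β / xd.κ : ℝ) : 𝕜) * (∑ n ∈ Finset.range N, f n (xd.J l (y n))) +
        ((t * (β / xd.κ) * ∑ g ∈ Finset.range M, D.A g g : ℝ) : 𝕜) := by
      rw [hs, Finset.sum_disjSum]
      congr 1
      · rw [Finset.mul_sum, Finset.mul_sum, ← Finset.sum_add_distrib]
        exact Finset.sum_congr rfl (fun n _ => Bc_apply xd B0 hB0 β hβ0.le hβ1 L l hlL _ _)
      · have e2 : ∀ g ∈ Finset.range M,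
            Bc xd B0 hB0 β hβ0.le hβ1 L l hlL (b (Sum.inr g)) (a (Sum.inr g)) =
            ((t * (β / xd.κ) : ℝ) : 𝕜) * xd.d l g (xd.J l (yd.v l M g)) := by
          intro g _
          have e3 : b (Sum.inr g) = (t : 𝕜) • yd.v l M g := rfl
          have e4 : a (Sum.inr g) = xd.d l g := rfl
          have e5 : yd.R L ((t : 𝕜) • yd.v l M g) = 0 := by
            rw [map_smul, yd.Rv L l M g hlL, smul_zero]
          rw [e3, e4, Bc_apply, e5, map_zero, zero_apply, mul_zero, zero_add, map_smul, map_smul,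
            smul_eq_mul, RCLike.ofReal_mul]
          ring
        rw [Finset.sum_congr rfl e2, ← Finset.mul_sum, sum_dJ xd l M hM1, ← RCLike.ofReal_mul]
    rw [e1]
    have hdiag := diag_ge (D := D) M (tail_le l M hM2)
    have hα : 0 ≤ 1 - β ^ 2 := by nlinarith
    have hα1 : 1 - β ^ 2 ≤ 1 := by nlinarith
    have hβκ : β / xd.κ ≤ 1 := by
      rw [div_le_one hκ0]; linarith
    have hβκ0 : 0 < β / xd.κ := by positivity
    -- real part
    have r1 : s1 - G / 16 ≤ RCLike.re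
        (∑ n ∈ Finset.range N, B0 (yd.R L (y n)) ((f n).comp (xd.Q L))) := by
      have := (RCLike.abs_re_le_norm (∑ n ∈ Finset.range N, B0 (yd.R L (y n))
        ((f n).comp (xd.Q L)) - ∑ n ∈ Finset.range N, B0 (y n) (f n))).trans hL
      rw [hB0s, map_sub, RCLike.ofReal_re] at this
      linarith [(abs_le.mp this).1]
    have r2 : -(G / 16) ≤ RCLike.re (∑ n ∈ Finset.range N, f n (xd.J l (y n))) := by
      have := (RCLike.abs_re_le_norm _).trans (hl0 l hll0)
      exact (abs_le.mp this).1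
    refine le_trans ?_ (RCLike.re_le_norm _)
    rw [map_add, map_add, RCLike.re_ofReal_mul, RCLike.re_ofReal_mul, RCLike.ofReal_re]
    have q1 := mul_le_mul_of_nonneg_left r1 hα
    have q2 := mul_le_mul_of_nonneg_left r2 hβκ0.le
    have q3 := mul_le_mul_of_nonneg_left hdiag (show 0 ≤ t * (β / xd.κ) by positivity)
    have q4 : β / xd.κ * (G / 16) ≤ G / 16 := by nlinarith
    have q5 : β ^ 2 * s1 ≤ G / 2 := by
      have : β ^ 2 * s1 = β * (β * s1) := by ring
      rw [this]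
      calc β * (β * s1) ≤ β * (t / (4 * xd.κ)) := mul_le_mul_of_nonneg_left hβ2 hβ0.le
        _ = G / 2 := by rw [hG]; field_simp; norm_num
    have q6 : t * (β / xd.κ) * (3 / 4) = 3 / 2 * G := by rw [hG]; field_simp; norm_num
    have q7 : (1 - β ^ 2) * (G / 16) ≤ G / 16 := by nlinarith
    nlinarith
  refine ⟨T, hTn, ?_, hdist, G / 4, by positivity, fun S hS => ?_⟩
  · have h1 : LinearMap.range (T : X →ₗ[𝕜] Y) ≤ Submodule.span 𝕜 (b '' (s : Set (ℕ ⊕ ℕ))) := by
      rintro _ ⟨x, rfl⟩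
      have h2 : T x = ∑ i ∈ s, a i x • b i := by
        rw [hT, sum_apply]
        rfl
      show T x ∈ _
      rw [h2]
      exact Submodule.sum_mem _ (fun i hi => Submodule.smul_mem _ _
        (Submodule.subset_span ⟨i, hi, rfl⟩))
    have h3 : FiniteDimensional 𝕜 (Submodule.span 𝕜 (b '' (s : Set (ℕ ⊕ ℕ)))) :=
      FiniteDimensional.span_of_finite 𝕜 (s.finite_toSet.image b)
    exact Submodule.finiteDimensional_of_le h1
  · by_contra hcon
    push Not at hcon
    have hSn : IsNuclear S := by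
      obtain ⟨f, y, h, _⟩ := hS
      exact ⟨f, y, h⟩
    have h1 : nuclearNorm T ≤ nuclearNorm (T - S) + nuclearNorm S := by
      have := nn_add_le (nuclear_sub hTn hSn) hSn
      rwa [sub_add_cancel] at this
    have hpos : 0 < nuclearNorm S := by linarith
    obtain ⟨B, hB, ⟨y0, x', hy0, hx', hyx⟩, hle⟩ := exists_B hS hpos s a b
    rw [← hT, nn_sub_comm hSn hTn] at hle
    have h2 : ‖∑ i ∈ s, B (b i) (a i)‖ ≤ s1 + G / 8 := by
      rw [hs, Finset.sum_disjSum]
      refine (norm_add_le _ _).trans (add_le_add ?_ ?_)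
      · exact nn_lower yd B (Finset.range N) f y hB
      · have e2 : ∀ g ∈ Finset.range M, B (b (Sum.inr g)) (a (Sum.inr g)) =
            (t : 𝕜) * B (yd.v l M g) (xd.d l g) := by
          intro g _
          have e3 : b (Sum.inr g) = (t : 𝕜) • yd.v l M g := rfl
          have e4 : a (Sum.inr g) = xd.d l g := rfl
          rw [e3, e4, map_smul, smul_apply, smul_eq_mul]
        rw [Finset.sum_congr rfl e2, ← Finset.mul_sum, norm_mul, RCLike.norm_ofReal,
          abs_of_pos ht0]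
        have h3 := form_small xd hω hA B hB y0 x' hy0 hx' hyx l M hM1 hM2 (hE l)
        exact (mul_le_mul_of_nonneg_left h3 ht0.le).trans hsm
    linarith

end

end Pool.Agent.Y277.NN
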