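import Mathlib

/-!
Nuclear operators between Banach spaces over the real or complex scalars, the nuclear norm,
attainment of the nuclear norm, norming functionals.
-/

set_option autoImplicit false
open Filter Topology

namespace Pool.Agent.Y277.NN

section

variable {𝕜 : Type} [RCLike 𝕜] {X Y : Type} [NormedAddCommGroup X] [NormedSpace 𝕜 X]
  [NormedAddCommGroup Y] [NormedSpace 𝕜 Y]

/-- The sequences `f` of functionals on `X` and `y` of vectors of `Y` are a nuclear representation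
of the bounded operator `T`. -/
def IsRep (T : X →L[𝕜] Y) (f : ℕ → X →L[𝕜] 𝕜) (y : ℕ → Y) : Prop :=
  Summable (fun n => ‖f n‖ * ‖y n‖) ∧ ∀ x, HasSum (fun n => f n x • y n) (T x)

/-- `T` is nuclear. -/
def IsNuclear (T : X →L[𝕜] Y) : Prop := ∃ f y, IsRep T f y

/-- The nuclear norm: the infimum of `∑ ‖f n‖ * ‖y n‖` over all nuclear representations. -/
noncomputable def nuclearNorm (T : X →L[𝕜] Y) : ℝ :=
  sInf {r : ℝ | ∃ f y, IsRep T f y ∧ r = ∑' n, ‖f n‖ * ‖y n‖}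

/-- `T` is nuclear and attains its nuclear norm. -/
def AttainsNuclearNorm (T : X →L[𝕜] Y) : Prop :=
  ∃ f y, IsRep T f y ∧ nuclearNorm T = ∑' n, ‖f n‖ * ‖y n‖

/-- interleaving of two sequences -/
def mix {α : Type} (a b : ℕ → α) (n : ℕ) : α := if Even n then a (n / 2) else b (n / 2)

lemma mix_even {α : Type} (a b : ℕ → α) (k : ℕ) : mix a b (2 * k) = a k := by
  unfold mix
  rw [if_pos (even_two_mul k)]
  congr 1
  omega

lemma mix_odd {α : Type} (a b : ℕ → α) (k : ℕ) : mix a b (2 * k + 1) = b k := by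
  unfold mix
  rw [if_neg (by simp)]
  congr 1
  omega

lemma hasSum_mix {E : Type} [NormedAddCommGroup E] {f : ℕ → E} {a b : ℕ → E} {x y : E}
    (ha : HasSum a x) (hb : HasSum b y) (h1 : ∀ k, f (2 * k) = a k)
    (h2 : ∀ k, f (2 * k + 1) = b k) : HasSum f (x + y) := by
  refine HasSum.even_add_odd ?_ ?_
  · simpa [h1] using ha
  · simpa [h2] using hb

lemma rep_add {T T' : X →L[𝕜] Y} {f f' : ℕ → X →L[𝕜] 𝕜} {y y' : ℕ → Y}
    (h : IsRep T f y) (h' : IsRep T' f' y') :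
    IsRep (T + T') (mix f f') (mix y y') ∧
      ∑' n, ‖mix f f' n‖ * ‖mix y y' n‖ =
        ∑' n, ‖f n‖ * ‖y n‖ + ∑' n, ‖f' n‖ * ‖y' n‖ := by
  have h1 : HasSum (fun n => ‖mix f f' n‖ * ‖mix y y' n‖)
      (∑' n, ‖f n‖ * ‖y n‖ + ∑' n, ‖f' n‖ * ‖y' n‖) := by
    refine hasSum_mix h.1.hasSum h'.1.hasSum (fun k => ?_) (fun k => ?_)
    · rw [mix_even, mix_even]
    · rw [mix_odd, mix_odd]
  refine ⟨⟨h1.summable, fun x => ?_⟩, h1.tsum_eq⟩
  rw [add_apply]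
  refine hasSum_mix (h.2 x) (h'.2 x) (fun k => ?_) (fun k => ?_)
  · rw [mix_even, mix_even]
  · rw [mix_odd, mix_odd]

lemma rep_smul {T : X →L[𝕜] Y} {f : ℕ → X →L[𝕜] 𝕜} {y : ℕ → Y} (c : 𝕜)
    (h : IsRep T f y) :
    IsRep (c • T) f (fun n => c • y n) ∧
      ∑' n, ‖f n‖ * ‖c • y n‖ = ‖c‖ * ∑' n, ‖f n‖ * ‖y n‖ := by
  have e1 : (fun n => ‖f n‖ * ‖c • y n‖) = fun n => ‖c‖ * (‖f n‖ * ‖y n‖) := by
    funext n
    rw [norm_smul]; ring
  refine ⟨⟨?_, fun x => ?_⟩, ?_⟩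
  · rw [e1]; exact h.1.mul_left _
  · have := (h.2 x).const_smul c
    rw [smul_apply]
    convert this using 2
    rw [smul_comm]
  · rw [e1, tsum_mul_left]

lemma rep_rank_one (a : X →L[𝕜] 𝕜) (b : Y) :
    IsRep (a.smulRight b) (fun n => if n = 0 then a else 0) (fun n => if n = 0 then b else 0) ∧
      ∑' n : ℕ, ‖(if n = 0 then a else 0 : X →L[𝕜] 𝕜)‖ * ‖(if n = 0 then b else 0 : Y)‖ =
        ‖a‖ * ‖b‖ := by
  have h1 : HasSum (fun n : ℕ => ‖(if n = 0 then a else 0 : X →L[𝕜] 𝕜)‖ *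
      ‖(if n = 0 then b else 0 : Y)‖) (‖a‖ * ‖b‖) := by
    have := hasSum_single (f := fun n : ℕ => ‖(if n = 0 then a else 0 : X →L[𝕜] 𝕜)‖ *
      ‖(if n = 0 then b else 0 : Y)‖) 0 (fun n hn => by simp [hn])
    simpa using this
  refine ⟨⟨h1.summable, fun x => ?_⟩, h1.tsum_eq⟩
  have := hasSum_single (f := fun n : ℕ => (if n = 0 then a else 0 : X →L[𝕜] 𝕜) x •
      (if n = 0 then b else 0 : Y)) 0 (fun n hn => by simp [hn])
  simpa using this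

lemma rep_tail {T : X →L[𝕜] Y} {f : ℕ → X →L[𝕜] 𝕜} {y : ℕ → Y} (h : IsRep T f y) (N : ℕ) :
    IsRep (T - ∑ n ∈ Finset.range N, (f n).smulRight (y n)) (fun n => f (n + N))
      (fun n => y (n + N)) := by
  refine ⟨(summable_nat_add_iff N).mpr h.1, fun x => ?_⟩
  have h1 := (hasSum_nat_add_iff' N).mpr (h.2 x)
  convert h1 using 1
  rw [sub_apply, sum_apply]
  rfl

lemma bddBelow_set (T : X →L[𝕜] Y) :
    BddBelow {r : ℝ | ∃ f y, IsRep T f y ∧ r = ∑' n, ‖f n‖ * ‖y n‖} := by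
  refine ⟨0, ?_⟩
  rintro r ⟨f, y, _, rfl⟩
  exact tsum_nonneg (fun n => by positivity)

lemma nn_nonneg (T : X →L[𝕜] Y) : 0 ≤ nuclearNorm T := by
  refine Real.sInf_nonneg ?_
  rintro r ⟨f, y, _, rfl⟩
  exact tsum_nonneg (fun n => by positivity)

lemma nn_le {T : X →L[𝕜] Y} {f : ℕ → X →L[𝕜] 𝕜} {y : ℕ → Y} (h : IsRep T f y) :
    nuclearNorm T ≤ ∑' n, ‖f n‖ * ‖y n‖ :=
  csInf_le (bddBelow_set T) ⟨f, y, h, rfl⟩

lemma le_nn {T : X →L[𝕜] Y} (hT : IsNuclear T) (r : ℝ)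
    (h : ∀ f y, IsRep T f y → r ≤ ∑' n, ‖f n‖ * ‖y n‖) : r ≤ nuclearNorm T := by
  obtain ⟨f, y, hf⟩ := hT
  refine le_csInf ⟨_, f, y, hf, rfl⟩ ?_
  rintro r' ⟨f, y, h', rfl⟩
  exact h f y h'

lemma exists_rep {T : X →L[𝕜] Y} (hT : IsNuclear T) (ε : ℝ) (hε : 0 < ε) :
    ∃ f y, IsRep T f y ∧ ∑' n, ‖f n‖ * ‖y n‖ < nuclearNorm T + ε := by
  obtain ⟨f, y, hf⟩ := hT
  have h1 : nuclearNorm T < nuclearNorm T + ε := by linarith
  have hne : {r : ℝ | ∃ f y, IsRep T f y ∧ r = ∑' n, ‖f n‖ * ‖y n‖}.Nonempty :=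
    ⟨_, f, y, hf, rfl⟩
  obtain ⟨r, ⟨f, y, h2, rfl⟩, h3⟩ := exists_lt_of_csInf_lt hne h1
  exact ⟨f, y, h2, h3⟩

lemma nuclear_add {T T' : X →L[𝕜] Y} (h : IsNuclear T) (h' : IsNuclear T') :
    IsNuclear (T + T') := by
  obtain ⟨f, y, hf⟩ := h
  obtain ⟨f', y', hf'⟩ := h'
  exact ⟨_, _, (rep_add hf hf').1⟩

lemma nuclear_smul {T : X →L[𝕜] Y} (c : 𝕜) (h : IsNuclear T) : IsNuclear (c • T) := by
  obtain ⟨f, y, hf⟩ := h
  exact ⟨_, _, (rep_smul c hf).1⟩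

lemma nuclear_rank_one (a : X →L[𝕜] 𝕜) (b : Y) : IsNuclear (a.smulRight b) :=
  ⟨_, _, (rep_rank_one a b).1⟩

lemma nuclear_zero : IsNuclear (0 : X →L[𝕜] Y) := by
  refine ⟨fun _ => 0, fun _ => 0, ?_, fun x => ?_⟩
  · simp
  · simp

lemma nn_add_le {T T' : X →L[𝕜] Y} (h : IsNuclear T) (h' : IsNuclear T') :
    nuclearNorm (T + T') ≤ nuclearNorm T + nuclearNorm T' := by
  refine le_of_forall_pos_le_add (fun ε hε => ?_)
  obtain ⟨f, y, hf, hf2⟩ := exists_rep h (ε / 2) (by positivity)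
  obtain ⟨f', y', hf', hf2'⟩ := exists_rep h' (ε / 2) (by positivity)
  have h1 := rep_add hf hf'
  have h2 := nn_le h1.1
  rw [h1.2] at h2
  linarith

lemma nn_smul_le {T : X →L[𝕜] Y} (h : IsNuclear T) (c : 𝕜) :
    nuclearNorm (c • T) ≤ ‖c‖ * nuclearNorm T := by
  refine le_of_forall_pos_le_add (fun ε hε => ?_)
  obtain ⟨f, y, hf, hf2⟩ := exists_rep h (ε / (‖c‖ + 1)) (by positivity)
  have h1 := rep_smul c hf
  have h2 := nn_le h1.1
  rw [h1.2] at h2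
  refine h2.trans ?_
  calc ‖c‖ * ∑' n, ‖f n‖ * ‖y n‖ ≤ ‖c‖ * (nuclearNorm T + ε / (‖c‖ + 1)) :=
        mul_le_mul_of_nonneg_left hf2.le (norm_nonneg c)
    _ = ‖c‖ * nuclearNorm T + (‖c‖ / (‖c‖ + 1)) * ε := by ring
    _ ≤ ‖c‖ * nuclearNorm T + 1 * ε := by
        have : ‖c‖ / (‖c‖ + 1) ≤ 1 := by
          rw [div_le_one (by positivity)]; linarith
        have := mul_le_mul_of_nonneg_right this hε.le
        linarith
    _ = _ := by ring

lemma nn_smul {T : X →L[𝕜] Y} (h : IsNuclear T) (c : 𝕜) :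
    nuclearNorm (c • T) = ‖c‖ * nuclearNorm T := by
  refine le_antisymm (nn_smul_le h c) ?_
  by_cases hc : c = 0
  · rw [hc]; simpa using nn_nonneg _
  · have h1 := nn_smul_le (nuclear_smul c h) c⁻¹
    rw [inv_smul_smul₀ hc, norm_inv] at h1
    have h2 : 0 < ‖c‖ := norm_pos_iff.mpr hc
    calc ‖c‖ * nuclearNorm T ≤ ‖c‖ * (‖c‖⁻¹ * nuclearNorm (c • T)) :=
          mul_le_mul_of_nonneg_left h1 h2.le
      _ = nuclearNorm (c • T) := by
          rw [← mul_assoc, mul_inv_cancel₀ h2.ne', one_mul]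

lemma nuclear_neg {T : X →L[𝕜] Y} (h : IsNuclear T) : IsNuclear (-T) := by
  have := nuclear_smul (-1 : 𝕜) h
  rwa [neg_one_smul] at this

lemma nn_neg {T : X →L[𝕜] Y} (h : IsNuclear T) : nuclearNorm (-T) = nuclearNorm T := by
  have := nn_smul h (-1 : 𝕜)
  rwa [neg_one_smul, norm_neg, norm_one, one_mul] at this

lemma nuclear_sub {T T' : X →L[𝕜] Y} (h : IsNuclear T) (h' : IsNuclear T') :
    IsNuclear (T - T') := by
  rw [sub_eq_add_neg]
  exact nuclear_add h (nuclear_neg h')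

lemma nn_sub_comm {T T' : X →L[𝕜] Y} (h : IsNuclear T) (h' : IsNuclear T') :
    nuclearNorm (T - T') = nuclearNorm (T' - T) := by
  rw [← neg_sub, nn_neg (nuclear_sub h' h)]

lemma nn_rank_one_le (a : X →L[𝕜] 𝕜) (b : Y) : nuclearNorm (a.smulRight b) ≤ ‖a‖ * ‖b‖ := by
  have h := rep_rank_one a b
  exact (nn_le h.1).trans h.2.le

lemma nn_zero : nuclearNorm (0 : X →L[𝕜] Y) = 0 := by
  refine le_antisymm ?_ (nn_nonneg _)
  have h : IsRep (0 : X →L[𝕜] Y) (fun _ => 0) (fun _ => 0) := by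
    refine ⟨?_, fun x => ?_⟩
    · simp
    · simp
  have := nn_le h
  simpa using this

/-- the operator norm is at most the nuclear norm -/
lemma opNorm_le_nn {T : X →L[𝕜] Y} (h : IsNuclear T) : ‖T‖ ≤ nuclearNorm T := by
  refine le_nn h _ (fun f y hf => ?_)
  refine ContinuousLinearMap.opNorm_le_bound _ (tsum_nonneg (fun n => by positivity)) (fun x => ?_)
  rw [← (hf.2 x).tsum_eq, ← tsum_mul_right]
  refine tsum_of_norm_bounded (hf.1.mul_right ‖x‖).hasSum (fun n => ?_)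
  rw [norm_smul]
  calc ‖f n x‖ * ‖y n‖ ≤ (‖f n‖ * ‖x‖) * ‖y n‖ :=
        mul_le_mul_of_nonneg_right ((f n).le_opNorm x) (norm_nonneg _)
    _ = _ := by ring

variable (𝕜 X Y) in
/-- the space of nuclear operators -/
def NucSub : Submodule 𝕜 (X →L[𝕜] Y) where
  carrier := {T | IsNuclear T}
  add_mem' h h' := nuclear_add h h'
  zero_mem' := nuclear_zero
  smul_mem' c _ h := nuclear_smul c h

lemma mem_NucSub {T : X →L[𝕜] Y} : T ∈ NucSub 𝕜 X Y ↔ IsNuclear T := Iff.rfl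

lemma nuclear_sum {ι : Type} (s : Finset ι) (a : ι → X →L[𝕜] 𝕜) (b : ι → Y) :
    IsNuclear (∑ i ∈ s, (a i).smulRight (b i)) := by
  have : ∑ i ∈ s, (a i).smulRight (b i) ∈ NucSub 𝕜 X Y :=
    Submodule.sum_mem _ (fun i _ => nuclear_rank_one (a i) (b i))
  exact this

lemma nn_sum_le {ι : Type} (s : Finset ι) (a : ι → X →L[𝕜] 𝕜) (b : ι → Y) :
    nuclearNorm (∑ i ∈ s, (a i).smulRight (b i)) ≤ ∑ i ∈ s, ‖a i‖ * ‖b i‖ := by
  classical
  induction s using Finset.induction_on with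
  | empty => rw [Finset.sum_empty, Finset.sum_empty, nn_zero]
  | insert i s hi ih =>
    rw [Finset.sum_insert hi, Finset.sum_insert hi]
    exact (nn_add_le (nuclear_rank_one _ _) (nuclear_sum s a b)).trans
      (add_le_add (nn_rank_one_le _ _) ih)

variable (𝕜 X Y) in
/-- the space of nuclear operators, as a type -/
def Nuc : Type := NucSub 𝕜 X Y

noncomputable instance : AddCommGroup (Nuc 𝕜 X Y) := inferInstanceAs (AddCommGroup (NucSub 𝕜 X Y))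

noncomputable instance : Module 𝕜 (Nuc 𝕜 X Y) := inferInstanceAs (Module 𝕜 (NucSub 𝕜 X Y))

noncomputable instance : Norm (Nuc 𝕜 X Y) := ⟨fun T => nuclearNorm (T.1 : X →L[𝕜] Y)⟩

lemma norm_Nuc (T : Nuc 𝕜 X Y) : ‖T‖ = nuclearNorm (T.1 : X →L[𝕜] Y) := rfl

variable (𝕜 X Y) in
lemma nuc_core : NormedSpace.Core 𝕜 (Nuc 𝕜 X Y) where
  norm_nonneg T := nn_nonneg _
  norm_smul c T := nn_smul T.2 c
  norm_triangle T T' := nn_add_le T.2 T'.2
  norm_eq_zero_iff T := by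
    constructor
    · intro h
      have h1 : ‖(T.1 : X →L[𝕜] Y)‖ ≤ 0 := (opNorm_le_nn T.2).trans h.le
      have h2 : (T.1 : X →L[𝕜] Y) = 0 := norm_le_zero_iff.mp h1
      exact Subtype.ext h2
    · rintro rfl
      exact nn_zero

noncomputable instance : NormedAddCommGroup (Nuc 𝕜 X Y) :=
  NormedAddCommGroup.ofCore (nuc_core 𝕜 X Y)

noncomputable instance : NormedSpace 𝕜 (Nuc 𝕜 X Y) := NormedSpace.ofCore (nuc_core 𝕜 X Y)

/-- a nuclear operator as an element of the space -/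
def mkN (S : X →L[𝕜] Y) (hS : IsNuclear S) : Nuc 𝕜 X Y := (⟨S, hS⟩ : NucSub 𝕜 X Y)

lemma norm_mkN (S : X →L[𝕜] Y) (hS : IsNuclear S) : ‖mkN S hS‖ = nuclearNorm S := rfl

/-- Hahn-Banach for the nuclear norm. -/
lemma exists_functional {S : X →L[𝕜] Y} (hS : IsNuclear S) :
    ∃ g : NucSub 𝕜 X Y →ₗ[𝕜] 𝕜, g ⟨S, hS⟩ = (nuclearNorm S : 𝕜) ∧ ∀ T : NucSub 𝕜 X Y, ‖g T‖ ≤
      nuclearNorm (T : X →L[𝕜] Y) := by
  by_cases h0 : nuclearNorm S = 0
  · refine ⟨0, ?_, fun T => ?_⟩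
    · rw [h0]; simp
    · simpa using nn_nonneg _
  · have h1 : ‖mkN S hS‖ ≠ 0 := h0
    obtain ⟨g, hg1, hg2⟩ := exists_dual_vector (E := Nuc 𝕜 X Y) 𝕜 (mkN S hS) h1
    refine ⟨(g : Nuc 𝕜 X Y →ₗ[𝕜] 𝕜), hg2, fun T => ?_⟩
    have h3 := g.le_opNorm (mkN T.1 T.2)
    rw [hg1, one_mul] at h3
    exact h3

end

end Pool.Agent.Y277.NN
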