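import Pool.Agent.Y277.NN.NA

/-!
Bilinear forms given by functionals on the space of nuclear operators; forms at an operator that
attains its nuclear norm.
-/

set_option autoImplicit false
open Filter Topology

namespace Pool.Agent.Y277.NN

section

variable {𝕜 : Type} [RCLike 𝕜] {X Y : Type} [NormedAddCommGroup X] [NormedSpace 𝕜 X]
  [NormedAddCommGroup Y] [NormedSpace 𝕜 Y]

/-- the rank one operator as a nuclear operator -/
def rk (a : X →L[𝕜] 𝕜) (b : Y) : NucSub 𝕜 X Y := ⟨a.smulRight b, nuclear_rank_one a b⟩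

/-- the bilinear form associated with a functional on nuclear operators -/
noncomputable def toB (g : NucSub 𝕜 X Y →ₗ[𝕜] 𝕜)
    (hg : ∀ T : NucSub 𝕜 X Y, ‖g T‖ ≤ nuclearNorm (T : X →L[𝕜] Y)) :
    Y →L[𝕜] (X →L[𝕜] 𝕜) →L[𝕜] 𝕜 :=
  LinearMap.mkContinuous₂ (LinearMap.mk₂ 𝕜 (fun (b : Y) (a : X →L[𝕜] 𝕜) => g (rk a b))
    (fun b b' a => by
      rw [← map_add]; congr 1
      refine Subtype.ext (ContinuousLinearMap.ext fun x => ?_)
      show a x • (b + b') = a x • b + a x • b'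
      rw [smul_add])
    (fun c b a => by
      rw [← map_smul]; congr 1
      refine Subtype.ext (ContinuousLinearMap.ext fun x => ?_)
      show a x • (c • b) = c • (a x • b)
      rw [smul_comm])
    (fun b a a' => by
      rw [← map_add]; congr 1
      refine Subtype.ext (ContinuousLinearMap.ext fun x => ?_)
      show (a x + a' x) • b = a x • b + a' x • b
      rw [add_smul])
    (fun c b a => by
      rw [← map_smul]; congr 1
      refine Subtype.ext (ContinuousLinearMap.ext fun x => ?_)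
      show (c • a x) • b = c • (a x • b)
      rw [smul_assoc])) 1 (fun b a => by
      rw [one_mul, mul_comm]
      exact (hg _).trans (nn_rank_one_le a b))

lemma toB_apply (g : NucSub 𝕜 X Y →ₗ[𝕜] 𝕜)
    (hg : ∀ T : NucSub 𝕜 X Y, ‖g T‖ ≤ nuclearNorm (T : X →L[𝕜] Y)) (b : Y) (a : X →L[𝕜] 𝕜) :
    toB g hg b a = g (rk a b) := rfl

lemma toB_le (g : NucSub 𝕜 X Y →ₗ[𝕜] 𝕜)
    (hg : ∀ T : NucSub 𝕜 X Y, ‖g T‖ ≤ nuclearNorm (T : X →L[𝕜] Y)) (b : Y) (a : X →L[𝕜] 𝕜) :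
    ‖toB g hg b a‖ ≤ ‖b‖ * ‖a‖ := by
  rw [toB_apply, mul_comm]
  exact (hg _).trans (nn_rank_one_le a b)

lemma toB_sum (g : NucSub 𝕜 X Y →ₗ[𝕜] 𝕜)
    (hg : ∀ T : NucSub 𝕜 X Y, ‖g T‖ ≤ nuclearNorm (T : X →L[𝕜] Y)) {ι : Type} (s : Finset ι)
    (a : ι → X →L[𝕜] 𝕜) (b : ι → Y) :
    ∑ i ∈ s, toB g hg (b i) (a i) = g ⟨∑ i ∈ s, (a i).smulRight (b i), nuclear_sum s a b⟩ := by
  have h1 : (⟨∑ i ∈ s, (a i).smulRight (b i), nuclear_sum s a b⟩ : NucSub 𝕜 X Y) =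
      ∑ i ∈ s, rk (a i) (b i) := by
    refine Subtype.ext ?_
    rw [AddSubmonoidClass.coe_finsetSum]
    rfl
  rw [h1, map_sum]
  exact Finset.sum_congr rfl (fun i _ => toB_apply g hg _ _)

/-- a norming form for an operator of finite expansion -/
theorem exists_norming {ι : Type} (s : Finset ι) (a : ι → X →L[𝕜] 𝕜) (b : ι → Y) :
    ∃ B : Y →L[𝕜] (X →L[𝕜] 𝕜) →L[𝕜] 𝕜, (∀ y x', ‖B y x'‖ ≤ ‖y‖ * ‖x'‖) ∧
      ∑ i ∈ s, B (b i) (a i) = (nuclearNorm (∑ i ∈ s, (a i).smulRight (b i)) : 𝕜) := by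
  obtain ⟨g, hg1, hg2⟩ := exists_functional (nuclear_sum s a b)
  exact ⟨toB g hg2, toB_le g hg2, by rw [toB_sum, hg1]⟩

/-- the form at an operator that attains its nuclear norm -/
theorem exists_B {S : X →L[𝕜] Y} (hS : AttainsNuclearNorm S) (hpos : 0 < nuclearNorm S)
    {ι : Type} (s : Finset ι) (a : ι → X →L[𝕜] 𝕜) (b : ι → Y) :
    ∃ B : Y →L[𝕜] (X →L[𝕜] 𝕜) →L[𝕜] 𝕜, (∀ y x', ‖B y x'‖ ≤ ‖y‖ * ‖x'‖) ∧
      (∃ y x', ‖y‖ = 1 ∧ ‖x'‖ = 1 ∧ B y x' = 1) ∧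
      nuclearNorm S ≤ ‖∑ i ∈ s, B (b i) (a i)‖ +
        nuclearNorm (S - ∑ i ∈ s, (a i).smulRight (b i)) := by
  obtain ⟨f, y, hrep, hatt⟩ := hS
  have hSn : IsNuclear S := ⟨f, y, hrep⟩
  obtain ⟨g, hg1, hg2⟩ := exists_functional hSn
  refine ⟨toB g hg2, toB_le g hg2, ?_, ?_⟩
  · have hu1 : ∀ n, ‖g (rk (f n) (y n))‖ ≤ ‖f n‖ * ‖y n‖ := fun n =>
      (hg2 _).trans (nn_rank_one_le _ _)
    have hus : Summable (fun n => g (rk (f n) (y n))) :=
      Summable.of_norm_bounded hrep.1 hu1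
    have hu : HasSum (fun n => g (rk (f n) (y n))) (nuclearNorm S : 𝕜) := by
      rw [hus.hasSum_iff_tendsto_nat]
      have ht := tendsto_sum_nat_add (fun n => ‖f n‖ * ‖y n‖)
      rw [tendsto_iff_norm_sub_tendsto_zero]
      refine squeeze_zero (fun N => norm_nonneg _) (fun N => ?_) ht
      have h1 : ∑ n ∈ Finset.range N, g (rk (f n) (y n)) - (nuclearNorm S : 𝕜) =
          - g ((⟨S, hSn⟩ : NucSub 𝕜 X Y) - ∑ n ∈ Finset.range N, rk (f n) (y n)) := by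
        rw [map_sub, map_sum, hg1]; ring
      rw [h1, norm_neg]
      refine (hg2 _).trans ?_
      have h2 := nn_le (rep_tail hrep N)
      refine le_trans (le_of_eq ?_) h2
      congr 1
      rw [Submodule.coe_sub, AddSubmonoidClass.coe_finsetSum]
      rfl
    have hv : HasSum (fun n => ‖f n‖ * ‖y n‖) (nuclearNorm S) := by
      rw [hatt]; exact hrep.1.hasSum
    have hu' : HasSum (fun n => RCLike.re (g (rk (f n) (y n)))) (nuclearNorm S) := by
      have := (RCLike.reCLM (K := 𝕜)).hasSum hu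
      simpa using this
    have hd := hv.sub hu'
    rw [sub_self] at hd
    have hre : ∀ n, RCLike.re (g (rk (f n) (y n))) ≤ ‖f n‖ * ‖y n‖ := fun n =>
      (RCLike.re_le_norm _).trans (hu1 n)
    have hz := (hasSum_zero_iff_of_nonneg (fun n => by
      have := hre n
      show 0 ≤ ‖f n‖ * ‖y n‖ - RCLike.re (g (rk (f n) (y n)))
      linarith)).mp hd
    have hex : ∃ n, ‖f n‖ * ‖y n‖ ≠ 0 := by
      by_contra hcon
      push Not at hcon
      have h0 : HasSum (fun n => ‖f n‖ * ‖y n‖) 0 := by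
        simp_rw [hcon]; exact hasSum_zero
      have := h0.unique hv
      linarith
    obtain ⟨n, hn⟩ := hex
    have hf : ‖f n‖ ≠ 0 := left_ne_zero_of_mul hn
    have hy : ‖y n‖ ≠ 0 := right_ne_zero_of_mul hn
    have h1 : ‖f n‖ * ‖y n‖ - RCLike.re (g (rk (f n) (y n))) = 0 := congrFun hz n
    have h2 : g (rk (f n) (y n)) = ((‖f n‖ * ‖y n‖ : ℝ) : 𝕜) := by
      have h3 : RCLike.re (g (rk (f n) (y n))) = ‖g (rk (f n) (y n))‖ := by
        refine le_antisymm (RCLike.re_le_norm _) ?_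
        have := hu1 n
        linarith
      have h4 : (RCLike.re (g (rk (f n) (y n))) : 𝕜) = g (rk (f n) (y n)) :=
        RCLike.re_eq_self_of_le h3.ge
      rw [← h4]
      congr 1
      linarith
    refine ⟨((‖y n‖⁻¹ : ℝ) : 𝕜) • y n, ((‖f n‖⁻¹ : ℝ) : 𝕜) • f n, ?_, ?_, ?_⟩
    · rw [norm_smul, RCLike.norm_ofReal, abs_inv, abs_norm, inv_mul_cancel₀ hy]
    · rw [norm_smul, RCLike.norm_ofReal, abs_inv, abs_norm, inv_mul_cancel₀ hf]
    · rw [map_smul, map_smul, smul_apply, toB_apply, h2, smul_eq_mul,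
        smul_eq_mul, ← RCLike.ofReal_mul, ← RCLike.ofReal_mul]
      have h5 : ‖y n‖⁻¹ * (‖f n‖⁻¹ * (‖f n‖ * ‖y n‖)) = 1 := by field_simp
      have h6 : ‖f n‖⁻¹ * (‖y n‖⁻¹ * (‖f n‖ * ‖y n‖)) = 1 := by field_simp
      first
        | rw [h5, RCLike.ofReal_one]
        | rw [h6, RCLike.ofReal_one]
  · have h1 : (nuclearNorm S : 𝕜) = ∑ i ∈ s, toB g hg2 (b i) (a i) +
        g ((⟨S, hSn⟩ : NucSub 𝕜 X Y) -
          ⟨∑ i ∈ s, (a i).smulRight (b i), nuclear_sum s a b⟩) := by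
      rw [map_sub, toB_sum, hg1]; ring
    have h2 := hg2 ((⟨S, hSn⟩ : NucSub 𝕜 X Y) -
          ⟨∑ i ∈ s, (a i).smulRight (b i), nuclear_sum s a b⟩)
    have h3 : ‖(nuclearNorm S : 𝕜)‖ = nuclearNorm S := by
      rw [RCLike.norm_ofReal, abs_of_nonneg (nn_nonneg _)]
    rw [← h3, h1]
    refine (norm_add_le _ _).trans (add_le_add le_rfl ?_)
    exact h2

end

end Pool.Agent.Y277.NN
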