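import Mathlib

/-!
Elementary inequalities in the spaces of p-summable sequences for p at least two: a Clarkson
inequality, sums of pieces with disjoint supports; a norming functional of a functional of norm
one is unique on the coordinate functionals of a subspace.
-/

set_option autoImplicit false
open Filter Topology
open scoped ENNReal

namespace Pool.Agent.Y277.NN

section

variable {𝕜 : Type} [RCLike 𝕜]

lemma clarkson_scalar (a b : 𝕜) (q : ℝ) (hq : 2 ≤ q) :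
    ‖a + b‖ ^ q + ‖a - b‖ ^ q ≤ 2 ^ (q - 1) * (‖a‖ ^ q + ‖b‖ ^ q) := by
  have hs : (1 : ℝ) ≤ q / 2 := by linarith
  have hpow : ∀ x : ℝ, 0 ≤ x → (x ^ 2) ^ (q / 2) = x ^ q := by
    intro x hx
    rw [← Real.rpow_natCast, ← Real.rpow_mul hx]
    congr 1
    push_cast
    ring
  have hpar := parallelogram_law_with_norm 𝕜 a b
  have h1 : (‖a + b‖ ^ 2) ^ (q / 2) + (‖a - b‖ ^ 2) ^ (q / 2) ≤
      (‖a + b‖ ^ 2 + ‖a - b‖ ^ 2) ^ (q / 2) := by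
    have := NNReal.add_rpow_le_rpow_add (⟨‖a + b‖ ^ 2, by positivity⟩ : NNReal)
      ⟨‖a - b‖ ^ 2, by positivity⟩ hs
    exact_mod_cast this
  have h2 : (‖a‖ ^ 2 + ‖b‖ ^ 2) ^ (q / 2) ≤
      2 ^ (q / 2 - 1) * ((‖a‖ ^ 2) ^ (q / 2) + (‖b‖ ^ 2) ^ (q / 2)) := by
    have := NNReal.rpow_add_le_mul_rpow_add_rpow (⟨‖a‖ ^ 2, by positivity⟩ : NNReal)
      ⟨‖b‖ ^ 2, by positivity⟩ hs
    exact_mod_cast this
  rw [hpow _ (norm_nonneg _), hpow _ (norm_nonneg _)] at h1 h2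
  have h3 : ‖a + b‖ ^ 2 + ‖a - b‖ ^ 2 = 2 * (‖a‖ ^ 2 + ‖b‖ ^ 2) := by
    exact hpar
  rw [h3, Real.mul_rpow (by norm_num) (by positivity)] at h1
  have h4 : (0 : ℝ) ≤ 2 ^ (q / 2) := by positivity
  have h5 : (2 : ℝ) ^ (q / 2) * 2 ^ (q / 2 - 1) = 2 ^ (q - 1) := by
    rw [← Real.rpow_add (by norm_num)]
    congr 1
    ring
  calc _ ≤ _ := h1
    _ ≤ 2 ^ (q / 2) * (2 ^ (q / 2 - 1) * (‖a‖ ^ q + ‖b‖ ^ q)) := mul_le_mul_of_nonneg_left h2 h4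
    _ = _ := by rw [← mul_assoc, h5]

variable {p : ℝ≥0∞} [Fact (1 ≤ p)]

omit [Fact (1 ≤ p)] in
lemma two_le_toReal (hp : 2 ≤ p) (hp' : p ≠ ∞) : 2 ≤ p.toReal := by
  have := ENNReal.toReal_mono hp' hp
  simpa using this

lemma summable_lp (hp : 2 ≤ p) (hp' : p ≠ ∞) (ξ : lp (fun _ : ℕ => 𝕜) p) :
    Summable (fun n => ‖ξ n‖ ^ p.toReal) :=
  (lp.memℓp ξ).summable (by linarith [two_le_toReal hp hp'])

lemma norm_rpow (hp : 2 ≤ p) (hp' : p ≠ ∞) (ξ : lp (fun _ : ℕ => 𝕜) p) :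
    ‖ξ‖ ^ p.toReal = ∑' n, ‖ξ n‖ ^ p.toReal :=
  lp.norm_rpow_eq_tsum (by linarith [two_le_toReal hp hp']) ξ

lemma clarkson (hp : 2 ≤ p) (hp' : p ≠ ∞) (ξ η : lp (fun _ : ℕ => 𝕜) p) (hξ : ‖ξ‖ ≤ 1)
    (hη : ‖η‖ ≤ 1) (i : ℕ) :
    ‖ξ + η‖ ^ p.toReal + ‖ξ i - η i‖ ^ p.toReal ≤ 2 ^ p.toReal := by
  have hq := two_le_toReal hp hp'
  set q := p.toReal with hqd
  have s1 := summable_lp hp hp' ξ
  have s2 := summable_lp hp hp' η
  have s3 := summable_lp hp hp' (ξ + η)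
  have s4 := summable_lp hp hp' (ξ - η)
  have h1 : ‖ξ i - η i‖ ^ q ≤ ∑' n, ‖(ξ - η) n‖ ^ q := by
    have := s4.le_tsum i (fun j _ => by positivity)
    simpa using this
  have h2 : ‖ξ + η‖ ^ q = ∑' n, ‖(ξ + η) n‖ ^ q := norm_rpow hp hp' _
  have h3 : ∑' n, ‖(ξ + η) n‖ ^ q + ∑' n, ‖(ξ - η) n‖ ^ q ≤
      2 ^ (q - 1) * (∑' n, ‖ξ n‖ ^ q + ∑' n, ‖η n‖ ^ q) := by
    rw [← s3.tsum_add s4, ← s1.tsum_add s2, ← tsum_mul_left]
    refine Summable.tsum_le_tsum (fun n => ?_) (s3.add s4) ((s1.add s2).mul_left _)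
    exact clarkson_scalar (ξ n) (η n) q hq
  rw [← norm_rpow hp hp' ξ, ← norm_rpow hp hp' η] at h3
  have h4 : ‖ξ‖ ^ q ≤ 1 := Real.rpow_le_one (norm_nonneg _) hξ (by linarith)
  have h5 : ‖η‖ ^ q ≤ 1 := Real.rpow_le_one (norm_nonneg _) hη (by linarith)
  have h6 : (0 : ℝ) ≤ 2 ^ (q - 1) := by positivity
  have h7 : (2 : ℝ) ^ (q - 1) * 2 = 2 ^ q := by
    rw [Real.rpow_sub (by norm_num), Real.rpow_one]
    ring
  calc _ ≤ ∑' n, ‖(ξ + η) n‖ ^ q + ∑' n, ‖(ξ - η) n‖ ^ q := by rw [h2]; linarith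
    _ ≤ _ := h3
    _ ≤ 2 ^ (q - 1) * 2 := mul_le_mul_of_nonneg_left (by linarith) h6
    _ = _ := h7

/-- combinations of pieces with disjoint supports -/
lemma disjoint_norm_le (hp : 2 ≤ p) (hp' : p ≠ ∞) (ξ η ζ : lp (fun _ : ℕ => 𝕜) p)
    (hξ : ‖ξ‖ ≤ 1) (hη : ‖η‖ ≤ 1) (β : ℝ) (hβ0 : 0 ≤ β) (hβ1 : β ≤ 1)
    (h : ∀ n, ‖ζ n‖ ≤ (1 - β ^ 2) * ‖ξ n‖ ∨ ‖ζ n‖ ≤ β * ‖η n‖) : ‖ζ‖ ≤ 1 := by
  have hq := two_le_toReal hp hp'
  have s1 := summable_lp hp hp' ξ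
  have s2 := summable_lp hp hp' η
  have hα0 : 0 ≤ 1 - β ^ 2 := by nlinarith
  have hα1 : 1 - β ^ 2 ≤ 1 := by nlinarith
  refine lp.norm_le_of_tsum_le (by linarith) zero_le_one ?_
  set q := p.toReal with hqd
  have hα : (1 - β ^ 2) ^ q ≤ 1 - β ^ 2 := by
    calc (1 - β ^ 2) ^ q ≤ (1 - β ^ 2) ^ (1 : ℝ) :=
          Real.rpow_le_rpow_of_exponent_ge' hα0 hα1 (by norm_num) (by linarith)
      _ = _ := Real.rpow_one _
  have hβ : β ^ q ≤ β ^ 2 := by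
    calc β ^ q ≤ β ^ (2 : ℝ) :=
          Real.rpow_le_rpow_of_exponent_ge' hβ0 hβ1 (by norm_num) (by linarith)
      _ = β ^ 2 := by rw [← Real.rpow_natCast]; norm_num
  have h1 : ∑' n, ‖ζ n‖ ^ q ≤
      ∑' n, ((1 - β ^ 2) * ‖ξ n‖ ^ q + β ^ 2 * ‖η n‖ ^ q) := by
    refine Summable.tsum_le_tsum (fun n => ?_) (summable_lp hp hp' ζ)
      ((s1.mul_left _).add (s2.mul_left _))
    have e1 : 0 ≤ ‖ξ n‖ ^ q := by positivity
    have e2 : 0 ≤ ‖η n‖ ^ q := by positivity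
    rcases h n with h | h
    · have h2 : ‖ζ n‖ ^ q ≤ ((1 - β ^ 2) * ‖ξ n‖) ^ q :=
        Real.rpow_le_rpow (norm_nonneg _) h (by linarith)
      rw [Real.mul_rpow hα0 (norm_nonneg _)] at h2
      have h3 := mul_le_mul_of_nonneg_right hα e1
      have h4 : 0 ≤ β ^ 2 * ‖η n‖ ^ q := by positivity
      linarith
    · have h2 : ‖ζ n‖ ^ q ≤ (β * ‖η n‖) ^ q :=
        Real.rpow_le_rpow (norm_nonneg _) h (by linarith)
      rw [Real.mul_rpow hβ0 (norm_nonneg _)] at h2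
      have h3 := mul_le_mul_of_nonneg_right hβ e2
      have h4 : 0 ≤ (1 - β ^ 2) * ‖ξ n‖ ^ q := mul_nonneg hα0 e1
      linarith
  refine h1.trans ?_
  rw [(s1.mul_left _).tsum_add (s2.mul_left _), tsum_mul_left, tsum_mul_left,
    ← norm_rpow hp hp' ξ, ← norm_rpow hp hp' η, Real.one_rpow]
  have h4 : ‖ξ‖ ^ q ≤ 1 := Real.rpow_le_one (norm_nonneg _) hξ (by linarith)
  have h5 : ‖η‖ ^ q ≤ 1 := Real.rpow_le_one (norm_nonneg _) hη (by linarith)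
  nlinarith [mul_nonneg hα0 (sub_nonneg.mpr h4), mul_nonneg (sq_nonneg β) (sub_nonneg.mpr h5)]

end

section

variable {𝕜 : Type} [RCLike 𝕜] {X : Type} [NormedAddCommGroup X] [NormedSpace 𝕜 X]

/-- almost norming vectors -/
lemma exists_almost (f : X →L[𝕜] 𝕜) (ε : ℝ) (hε : 0 < ε) :
    ∃ x, ‖x‖ ≤ 1 ∧ ‖f‖ - ε ≤ RCLike.re (f x) := by
  by_cases hf : ‖f‖ - ε < 0
  · exact ⟨0, by simp, by rw [map_zero, map_zero]; exact hf.le⟩
  · push Not at hf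
    obtain ⟨x, hx1, hx2⟩ := f.exists_lt_apply_of_lt_opNorm (show ‖f‖ - ε < ‖f‖ by linarith)
    have hne : f x ≠ 0 := by
      intro h
      rw [h, norm_zero] at hx2
      linarith
    have hn : ‖f x‖ ≠ 0 := norm_ne_zero_iff.mpr hne
    set c : 𝕜 := (starRingEnd 𝕜) (f x) / (‖f x‖ : 𝕜) with hc
    have hc1 : ‖c‖ = 1 := by
      rw [hc, norm_div, RCLike.norm_conj, RCLike.norm_ofReal, abs_norm, div_self hn]
    have hc2 : c * f x = (‖f x‖ : 𝕜) := by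
      rw [hc, div_mul_eq_mul_div, RCLike.conj_mul, pow_two, mul_div_assoc,
        div_self (RCLike.ofReal_ne_zero.mpr hn), mul_one]
    refine ⟨c • x, ?_, ?_⟩
    · rw [norm_smul, hc1, one_mul]; exact hx1.le
    · rw [map_smul, smul_eq_mul, hc2, RCLike.ofReal_re]
      exact hx2.le

lemma eq_one_of_re (z : 𝕜) (h : ‖z‖ ≤ 1) (h1 : 1 ≤ RCLike.re z) : z = 1 := by
  have h2 : RCLike.re z ≤ ‖z‖ := RCLike.re_le_norm z
  have h3 : (RCLike.re z : 𝕜) = z := RCLike.re_eq_self_of_le (by linarith)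
  rw [← h3]
  have h4 : RCLike.re z = 1 := by linarith
  rw [h4, RCLike.ofReal_one]

variable {p : ℝ≥0∞} [Fact (1 ≤ p)]

/-- norming functionals are unique on coordinate functionals -/
theorem strict (hp : 2 ≤ p) (hp' : p ≠ ∞) (E : Submodule 𝕜 (lp (fun _ : ℕ => 𝕜) p))
    (i : ℕ) (d : E →L[𝕜] 𝕜) (hd : ∀ ξ : E, d ξ = (ξ : lp (fun _ : ℕ => 𝕜) p) i)
    (x' : E →L[𝕜] 𝕜) (hx' : ‖x'‖ = 1) (ξ η : (E →L[𝕜] 𝕜) →L[𝕜] 𝕜)
    (hξ : ∀ g, ‖ξ g‖ ≤ ‖g‖) (hη : ∀ g, ‖η g‖ ≤ ‖g‖) (h1 : ξ x' = 1) (h2 : η x' = 1) :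
    ξ d = η d := by
  by_contra hne
  have hq := two_le_toReal hp hp'
  set q := p.toReal with hqd
  set c : 𝕜 := ξ d - η d with hcd
  have hc : c ≠ 0 := sub_ne_zero.mpr hne
  have hcn : ‖c‖ ≠ 0 := norm_ne_zero_iff.mpr hc
  set δ : ℝ := ‖c‖ with hδ
  have hδ0 : 0 < δ := norm_pos_iff.mpr hc
  set θ : 𝕜 := (starRingEnd 𝕜) c / (δ : 𝕜) with hθ
  have hθ1 : ‖θ‖ = 1 := by
    rw [hθ, norm_div, RCLike.norm_conj, RCLike.norm_ofReal, hδ, abs_norm, div_self hcn]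
  have hθ2 : θ * c = (δ : 𝕜) := by
    rw [hθ, div_mul_eq_mul_div, RCLike.conj_mul, pow_two, mul_div_assoc,
      div_self (RCLike.ofReal_ne_zero.mpr hcn), mul_one]
  have key : ∀ s : ℝ, 0 < s → s < 1 → s * (2 * ‖d‖ + 2) ≤ 2 → 2 * s ≤ δ →
      (2 - s * (2 * ‖d‖ + 2)) ^ q + (δ - 2 * s) ^ q ≤ 2 ^ q := by
    intro s hs0 hs1 hs2 hs3
    obtain ⟨u, hu1, hu2⟩ := exists_almost (x' + (s : 𝕜) • (θ • d)) (s ^ 2) (by positivity)
    obtain ⟨w, hw1, hw2⟩ := exists_almost (x' - (s : 𝕜) • (θ • d)) (s ^ 2) (by positivity)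
    have a1 : 1 + s * RCLike.re (θ * ξ d) ≤ ‖x' + (s : 𝕜) • (θ • d)‖ := by
      have := (RCLike.re_le_norm (ξ (x' + (s : 𝕜) • (θ • d)))).trans (hξ _)
      rw [map_add, map_smul, map_smul, h1, smul_eq_mul, smul_eq_mul, map_add, RCLike.one_re,
        RCLike.re_ofReal_mul] at this
      exact this
    have a2 : 1 - s * RCLike.re (θ * η d) ≤ ‖x' - (s : 𝕜) • (θ • d)‖ := by
      have := (RCLike.re_le_norm (η (x' - (s : 𝕜) • (θ • d)))).trans (hη _)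
      rw [map_sub, map_smul, map_smul, h2, smul_eq_mul, smul_eq_mul, map_sub, RCLike.one_re,
        RCLike.re_ofReal_mul] at this
      exact this
    have a3 : RCLike.re (θ * ξ d) - RCLike.re (θ * η d) = δ := by
      rw [← map_sub, ← mul_sub, ← hcd, hθ2, RCLike.ofReal_re]
    have b1 : RCLike.re ((x' + (s : 𝕜) • (θ • d)) u) =
        RCLike.re (x' u) + s * RCLike.re (θ * d u) := by
      rw [add_apply, smul_apply, smul_apply, smul_eq_mul, smul_eq_mul, map_add,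
        RCLike.re_ofReal_mul]
    have b2 : RCLike.re ((x' - (s : 𝕜) • (θ • d)) w) =
        RCLike.re (x' w) - s * RCLike.re (θ * d w) := by
      rw [sub_apply, smul_apply, smul_apply, smul_eq_mul, smul_eq_mul, map_sub,
        RCLike.re_ofReal_mul]
    rw [b1] at hu2
    rw [b2] at hw2
    have c1 : RCLike.re (x' u) + RCLike.re (x' w) ≤ ‖u + w‖ := by
      have := (RCLike.re_le_norm (x' (u + w))).trans (x'.le_opNorm (u + w))
      rwa [hx', one_mul, map_add, map_add] at this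
    have c2 : RCLike.re (θ * d u) - RCLike.re (θ * d w) ≤ ‖d u - d w‖ := by
      have := RCLike.re_le_norm (θ * (d u - d w))
      rwa [norm_mul, hθ1, one_mul, mul_sub, map_sub] at this
    have c3 : ‖u + w‖ ≤ 2 := (norm_add_le _ _).trans (by linarith)
    have c4 : ‖d u - d w‖ ≤ 2 * ‖d‖ := by
      refine (norm_sub_le _ _).trans ?_
      have e1 := d.le_opNorm u
      have e2 := d.le_opNorm w
      have e3 : ‖d‖ * ‖u‖ ≤ ‖d‖ * 1 := mul_le_mul_of_nonneg_left hu1 d.opNorm_nonneg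
      have e4 : ‖d‖ * ‖w‖ ≤ ‖d‖ * 1 := mul_le_mul_of_nonneg_left hw1 d.opNorm_nonneg
      linarith
    have hX : (0 : ℝ) ≤ ‖d‖ := d.opNorm_nonneg
    have f1 : δ - 2 * s ≤ ‖d u - d w‖ := by
      have : s * (δ - 2 * s) ≤ s * ‖d u - d w‖ := by
        nlinarith [mul_le_mul_of_nonneg_left c2 hs0.le]
      exact le_of_mul_le_mul_left this hs0
    have f2 : 2 - s * (2 * ‖d‖ + 2) ≤ ‖u + w‖ := by
      nlinarith [mul_le_mul_of_nonneg_left c2 hs0.le, mul_le_mul_of_nonneg_left c4 hs0.le,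
        mul_pos hs0 hδ0]
    have g1 := clarkson hp hp' (u : lp (fun _ : ℕ => 𝕜) p) (w : lp (fun _ : ℕ => 𝕜) p) hu1 hw1 i
    rw [hd, hd] at f1
    have g2 : (2 - s * (2 * ‖d‖ + 2)) ^ q ≤ ‖(u : lp (fun _ : ℕ => 𝕜) p) + w‖ ^ q :=
      Real.rpow_le_rpow (by linarith) f2 (by linarith)
    have g3 : (δ - 2 * s) ^ q ≤
        ‖(u : lp (fun _ : ℕ => 𝕜) p) i - (w : lp (fun _ : ℕ => 𝕜) p) i‖ ^ q :=
      Real.rpow_le_rpow (by linarith) f1 (by linarith)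
    linarith
  -- pass to the limit
  have hlim : Tendsto (fun s : ℝ => (2 - s * (2 * ‖d‖ + 2)) ^ q + (δ - 2 * s) ^ q)
      (𝓝[>] 0) (𝓝 (2 ^ q + δ ^ q)) := by
    have h3 : Tendsto (fun s : ℝ => (2 - s * (2 * ‖d‖ + 2)) ^ q + (δ - 2 * s) ^ q)
        (𝓝 0) (𝓝 ((2 - 0 * (2 * ‖d‖ + 2)) ^ q + (δ - 2 * 0) ^ q)) := by
      have hc1 : Continuous (fun s : ℝ => (2 - s * (2 * ‖d‖ + 2)) ^ q + (δ - 2 * s) ^ q) := by
        have hq0 : 0 ≤ q := by linarith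
        exact ((by fun_prop : Continuous (fun s : ℝ => 2 - s * (2 * ‖d‖ + 2))).rpow_const
          (fun _ => Or.inr hq0)).add
          ((by fun_prop : Continuous (fun s : ℝ => δ - 2 * s)).rpow_const (fun _ => Or.inr hq0))
      exact hc1.tendsto 0
    rw [zero_mul, mul_zero, sub_zero, sub_zero] at h3
    exact h3.mono_left nhdsWithin_le_nhds
  have hev : ∀ᶠ s : ℝ in 𝓝[>] 0,
      (2 - s * (2 * ‖d‖ + 2)) ^ q + (δ - 2 * s) ^ q ≤ 2 ^ q := by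
    have hm : 0 < min (min 1 (2 / (2 * ‖d‖ + 2))) (δ / 2) := by
      refine lt_min (lt_min one_pos ?_) (by positivity)
      have : (0 : ℝ) ≤ ‖d‖ := d.opNorm_nonneg
      positivity
    filter_upwards [Ioo_mem_nhdsGT hm] with s hs
    have hX : (0 : ℝ) ≤ ‖d‖ := d.opNorm_nonneg
    have e1 : s < 1 := hs.2.trans_le ((min_le_left _ _).trans (min_le_left _ _))
    have e2 : s < 2 / (2 * ‖d‖ + 2) := hs.2.trans_le ((min_le_left _ _).trans (min_le_right _ _))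
    have e3 : s < δ / 2 := hs.2.trans_le (min_le_right _ _)
    rw [lt_div_iff₀ (by positivity)] at e2
    exact key s hs.1 e1 e2.le (by linarith)
  have := le_of_tendsto hlim hev
  have h9 : 0 < δ ^ q := Real.rpow_pos_of_pos hδ0 q
  linarith

end

end Pool.Agent.Y277.NN
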