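import Pool.Agent.Y277.NN.YC
import Pool.Agent.Y277.NN.XA

/-!
The closed subspace of the space of p-summable sequences.
-/

set_option autoImplicit false
set_option maxHeartbeats 1000000
open scoped ENNReal Topology
open Filter

namespace Pool.Agent.Y277.NN

open Pool.Agent.Helper362.ApNoBap (Data)

section

variable {𝕜 : Type} [RCLike 𝕜] {p : ℝ≥0∞} [Fact (1 ≤ p)]

lemma p_ne_zero (p : ℝ≥0∞) [h : Fact (1 ≤ p)] : p ≠ 0 :=
  (lt_of_lt_of_le one_pos h.out).ne'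

variable (𝕜 p) in
/-- coordinate functionals -/
noncomputable def evl (n : ℕ) : lp (fun _ : ℕ => 𝕜) p →L[𝕜] 𝕜 :=
  LinearMap.mkContinuous
    { toFun := fun x => x n
      map_add' := fun x y => by rw [lp.coeFn_add, Pi.add_apply]
      map_smul' := fun c x => by rw [lp.coeFn_smul, Pi.smul_apply]; rfl } 1 (fun x => by
      rw [one_mul]
      exact lp.norm_apply_le_norm (p_ne_zero p) x n)

lemma evl_apply (n : ℕ) (x : lp (fun _ : ℕ => 𝕜) p) : evl 𝕜 p n x = x n := rfl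

lemma norm_evl_le (n : ℕ) : ‖evl 𝕜 p n‖ ≤ 1 := LinearMap.mkContinuous_norm_le _ zero_le_one _

/-- dominated sequences -/
lemma mem_of_le (hp : 2 ≤ p) (hp' : p ≠ ∞) (f : ℕ → 𝕜) (g : ℕ → ℝ) (hg : Summable g)
    (h : ∀ n, ‖f n‖ ^ p.toReal ≤ g n) : Memℓp f p :=
  memℓp_gen (Summable.of_nonneg_of_le (fun n => by positivity) h hg)

/-- multiplication by a sequence bounded by one -/
noncomputable def mulp (hp : 2 ≤ p) (hp' : p ≠ ∞) (α : ℕ → ℝ) (h : ∀ n, |α n| ≤ 1) :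
    lp (fun _ : ℕ => 𝕜) p →L[𝕜] lp (fun _ : ℕ => 𝕜) p :=
  LinearMap.mkContinuous
    { toFun := fun x => ⟨fun n => (α n : 𝕜) * x n,
        mem_of_le hp hp' _ _ (summable_lp hp hp' x) (fun n => by
          refine Real.rpow_le_rpow (norm_nonneg _) ?_ (by linarith [two_le_toReal hp hp'])
          rw [norm_mul, RCLike.norm_ofReal]
          calc |α n| * ‖x n‖ ≤ 1 * ‖x n‖ := mul_le_mul_of_nonneg_right (h n) (norm_nonneg _)
            _ = _ := one_mul _)⟩
      map_add' := fun x y => by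
        ext n
        show (α n : 𝕜) * ((x + y : lp (fun _ : ℕ => 𝕜) p) n) = (α n : 𝕜) * x n + (α n : 𝕜) * y n
        rw [lp.coeFn_add, Pi.add_apply, mul_add]
      map_smul' := fun c x => by
        ext n
        show (α n : 𝕜) * ((c • x : lp (fun _ : ℕ => 𝕜) p) n) = c * ((α n : 𝕜) * x n)
        rw [lp.coeFn_smul, Pi.smul_apply, smul_eq_mul, mul_left_comm] } 1 (fun x => by
        have hq := two_le_toReal hp hp'
        rw [one_mul]
        refine lp.norm_le_of_tsum_le (by linarith) (norm_nonneg _) ?_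
        rw [norm_rpow hp hp' x]
        refine Summable.tsum_le_tsum (fun n => ?_) (summable_lp hp hp' _) (summable_lp hp hp' x)
        refine Real.rpow_le_rpow (norm_nonneg _) ?_ (by linarith)
        show ‖(α n : 𝕜) * x n‖ ≤ _
        rw [norm_mul, RCLike.norm_ofReal]
        calc |α n| * ‖x n‖ ≤ 1 * ‖x n‖ := mul_le_mul_of_nonneg_right (h n) (norm_nonneg _)
          _ = _ := one_mul _)

lemma mulp_apply (hp : 2 ≤ p) (hp' : p ≠ ∞) (α : ℕ → ℝ) (h : ∀ n, |α n| ≤ 1)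
    (x : lp (fun _ : ℕ => 𝕜) p) (n : ℕ) : mulp hp hp' α h x n = (α n : 𝕜) * x n := rfl

lemma norm_mulp_le (hp : 2 ≤ p) (hp' : p ≠ ∞) (α : ℕ → ℝ) (h : ∀ n, |α n| ≤ 1) :
    ‖mulp (𝕜 := 𝕜) hp hp' α h‖ ≤ 1 := LinearMap.mkContinuous_norm_le _ zero_le_one _

end

section

variable (𝕜 : Type) [RCLike 𝕜] (p : ℝ≥0∞) [Fact (1 ≤ p)] (D : Data) (ω : ℕ → ℝ)

/-- weights of block l -/
noncomputable def om (l n : ℕ) : ℝ :=
  if (D.e n).1 = l ∧ (D.e n).2.1 = 0 then ω (D.e n).2.2 else 0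

/-- generators -/
def gensX : Set (lp (fun _ : ℕ => 𝕜) p) :=
  {ξ | ∃ l, ∃ y ∈ S 𝕜 D, ∀ n, ξ n = (om D ω l n : 𝕜) * y n}

noncomputable def X0 : Submodule 𝕜 (lp (fun _ : ℕ => 𝕜) p) := Submodule.span 𝕜 (gensX 𝕜 p D ω)

noncomputable def XX : Submodule 𝕜 (lp (fun _ : ℕ => 𝕜) p) := (X0 𝕜 p D ω).topologicalClosure

lemma XX_closed : IsClosed (XX 𝕜 p D ω : Set (lp (fun _ : ℕ => 𝕜) p)) :=
  (X0 𝕜 p D ω).isClosed_topologicalClosure

lemma X0_le : X0 𝕜 p D ω ≤ XX 𝕜 p D ω := (X0 𝕜 p D ω).le_topologicalClosure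

variable {𝕜 p}

/-- closed induction principle -/
lemma mem_XX_closed {P : lp (fun _ : ℕ => 𝕜) p → Prop} (hP : IsClosed {x | P x})
    (h0 : P 0) (hg : ∀ l y ξ, y ∈ S 𝕜 D → (∀ n, ξ n = (om D ω l n : 𝕜) * y n) → P ξ)
    (hadd : ∀ x y, P x → P y → P (x + y)) (hs : ∀ (c : 𝕜) x, P x → P (c • x)) :
    ∀ x ∈ XX 𝕜 p D ω, P x := by
  intro x hx
  have h1 : (X0 𝕜 p D ω : Set (lp (fun _ : ℕ => 𝕜) p)) ⊆ {x | P x} := by
    intro y hy
    refine Submodule.span_induction (p := fun y _ => P y) ?_ h0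
      (fun x y _ _ hx hy => hadd x y hx hy) (fun c x _ hx => hs c x hx) hy
    rintro ξ ⟨l, y, hy, h⟩
    exact hg l y ξ hy h
  exact (closure_minimal h1 hP) hx

lemma om_symm (l l' g : ℕ) : om D ω l' (D.e.symm (l, 0, g)) = if l' = l then ω g else 0 := by
  unfold om
  rw [Equiv.apply_symm_apply]
  by_cases h : l' = l
  · subst h; simp
  · have h' : ¬ l = l' := fun h1 => h h1.symm
    simp [h, h']

lemma om_nonneg (hω : ∀ g, 0 < ω g) (l n : ℕ) : 0 ≤ om D ω l n := by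
  unfold om
  split_ifs
  · exact (hω _).le
  · exact le_rfl

lemma hasSum_om (q : ℝ) (hq : 0 < q) (hs : Summable (fun g => ω g ^ q)) (l : ℕ) :
    HasSum (fun n => om D ω l n ^ q) (∑' g, ω g ^ q) := by
  have hinj : Function.Injective (fun g : ℕ => D.e.symm (l, 0, g)) := by
    intro g g' h
    have := D.e.symm.injective h
    simpa using this
  have h1 : (fun n => om D ω l n ^ q) ∘ (fun g : ℕ => D.e.symm (l, 0, g)) =
      fun g => ω g ^ q := by
    funext g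
    show om D ω l (D.e.symm (l, 0, g)) ^ q = _
    rw [om_symm, if_pos rfl]
  refine (hinj.hasSum_iff (fun n hn => ?_)).mp (by rw [h1]; exact hs.hasSum)
  have h2 : om D ω l n = 0 := by
    unfold om
    rw [if_neg]
    rintro ⟨e1, e2⟩
    apply hn
    refine ⟨(D.e n).2.2, ?_⟩
    show D.e.symm (l, 0, (D.e n).2.2) = n
    rw [Equiv.symm_apply_eq, ← e1, ← e2]
  rw [h2, Real.zero_rpow hq.ne']

variable (hp : 2 ≤ p) (hp' : p ≠ ∞) (hω : ∀ g, 0 < ω g)
  (hs : Summable (fun g => ω g ^ p.toReal))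

/-- a bound of the norms of the embeddings -/
noncomputable def kap (p : ℝ≥0∞) (ω : ℕ → ℝ) : ℝ := 1 + ∑' g, ω g ^ p.toReal

include hω in
lemma tsum_om_nonneg : 0 ≤ ∑' g, ω g ^ p.toReal :=
  tsum_nonneg (fun g => Real.rpow_nonneg (hω g).le _)

include hω in
lemma one_le_kap : 1 ≤ kap p ω := by
  have := tsum_om_nonneg (p := p) ω hω
  unfold kap
  linarith

include hp hp' hω in
lemma kap_rpow : ∑' g, ω g ^ p.toReal ≤ kap p ω ^ p.toReal := by
  have hq := two_le_toReal hp hp'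
  have h1 := tsum_om_nonneg (p := p) ω hω
  have h2 := one_le_kap (p := p) ω hω
  calc ∑' g, ω g ^ p.toReal ≤ kap p ω := by unfold kap; linarith
    _ = kap p ω ^ (1 : ℝ) := (Real.rpow_one _).symm
    _ ≤ _ := Real.rpow_le_rpow_of_exponent_le h2 (by linarith)

include hω in
lemma norm_om_mul_le (q : ℝ) (hq : 0 ≤ q) (l n : ℕ) (y : lp (fun _ : ℕ => 𝕜) ∞) :
    ‖(om D ω l n : 𝕜) * y n‖ ^ q ≤ om D ω l n ^ q * ‖y‖ ^ q := by
  have h0 := om_nonneg D ω hω l n
  rw [← Real.mul_rpow h0 (norm_nonneg _)]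
  refine Real.rpow_le_rpow (norm_nonneg _) ?_ hq
  rw [norm_mul, RCLike.norm_ofReal, abs_of_nonneg h0]
  exact mul_le_mul_of_nonneg_left (abs_le_norm y n) h0

/-- the embedding of block l, on all bounded sequences -/
noncomputable def Jfun (l : ℕ) (y : lp (fun _ : ℕ => 𝕜) ∞) : lp (fun _ : ℕ => 𝕜) p :=
  ⟨fun n => (om D ω l n : 𝕜) * y n,
        mem_of_le hp hp' _ _ ((hasSum_om D ω p.toReal (by linarith [two_le_toReal hp hp'])
          hs l).summable.mul_right (‖y‖ ^ p.toReal))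
          (fun n => norm_om_mul_le D ω hω p.toReal (by linarith [two_le_toReal hp hp']) l n _)⟩

lemma Jfun_apply (l : ℕ) (y : lp (fun _ : ℕ => 𝕜) ∞) (n : ℕ) :
    Jfun D ω hp hp' hω hs l y n = (om D ω l n : 𝕜) * y n := rfl

lemma norm_Jfun_le (l : ℕ) (y : lp (fun _ : ℕ => 𝕜) ∞) :
    ‖Jfun D ω hp hp' hω hs l y‖ ≤ kap p ω * ‖y‖ := by
  have hq := two_le_toReal hp hp'
  have hk := one_le_kap (p := p) ω hω
  have hq0 : 0 < p.toReal := lt_of_lt_of_le two_pos hq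
  have hk1 : 0 ≤ kap p ω := zero_le_one.trans hk
  have hH := hasSum_om D ω p.toReal hq0 hs l
  have hk0 : 0 ≤ kap p ω * ‖y‖ := mul_nonneg hk1 (norm_nonneg _)
  refine lp.norm_le_of_tsum_le hq0 hk0 ?_
  rw [Real.mul_rpow hk1 (norm_nonneg _)]
  have h1 : ∀ n, ‖Jfun D ω hp hp' hω hs l y n‖ ^ p.toReal ≤
      om D ω l n ^ p.toReal * ‖y‖ ^ p.toReal := fun n =>
    norm_om_mul_le D ω hω p.toReal hq0.le l n y
  have h2 : Summable (fun n => om D ω l n ^ p.toReal * ‖y‖ ^ p.toReal) :=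
    hH.summable.mul_right _
  have h3 := Summable.tsum_le_tsum h1 (summable_lp hp hp' _) h2
  rw [tsum_mul_right, hH.tsum_eq] at h3
  exact h3.trans (mul_le_mul_of_nonneg_right (kap_rpow ω hp hp' hω)
          (Real.rpow_nonneg (norm_nonneg _) _))

/-- the embedding of block l, on all bounded sequences, as an operator -/
noncomputable def Jbig (l : ℕ) : lp (fun _ : ℕ => 𝕜) ∞ →L[𝕜] lp (fun _ : ℕ => 𝕜) p :=
  LinearMap.mkContinuous
    { toFun := Jfun D ω hp hp' hω hs l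
      map_add' := fun x y => by
        ext n
        show (om D ω l n : 𝕜) * ((x + y : lp (fun _ : ℕ => 𝕜) ∞) n) =
          (om D ω l n : 𝕜) * x n + (om D ω l n : 𝕜) * y n
        rw [lp.coeFn_add, Pi.add_apply, mul_add]
      map_smul' := fun c x => by
        ext n
        show (om D ω l n : 𝕜) * ((c • x : lp (fun _ : ℕ => 𝕜) ∞) n) =
          c * ((om D ω l n : 𝕜) * x n)
        rw [lp.coeFn_smul, Pi.smul_apply, smul_eq_mul, mul_left_comm] }
    (kap p ω) (norm_Jfun_le D ω hp hp' hω hs l)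

end

end Pool.Agent.Y277.NN
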