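import Pool.Agent.Y277.NN.XB
import Pool.Agent.Y277.NN.YD

/-!
The properties of the domain space used in the proof, as a structure.
-/

set_option autoImplicit false
set_option maxHeartbeats 1000000
open scoped ENNReal Topology
open Filter

namespace Pool.Agent.Y277.NN

open Pool.Agent.Helper362.ApNoBap (Data)

/-- the properties of the domain space -/
structure XD (𝕜 : Type) [RCLike 𝕜] (D : Data) (ω : ℕ → ℝ) (X Y : Type) [NormedAddCommGroup X]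
    [NormedSpace 𝕜 X] [NormedAddCommGroup Y] [NormedSpace 𝕜 Y] (yd : YD 𝕜 D Y) where
  /-- coordinate functionals -/
  d : ℕ → ℕ → (X →L[𝕜] 𝕜)
  hd : ∀ l g, ‖d l g‖ ≤ (ω g)⁻¹
  rel : ∀ l h, HasSum (fun g => ((D.A g h / D.w l g : ℝ) : 𝕜) • d l g) 0
  strict : ∀ x' : X →L[𝕜] 𝕜, ‖x'‖ = 1 → ∀ ξ η : (X →L[𝕜] 𝕜) →L[𝕜] 𝕜, (∀ g, ‖ξ g‖ ≤ ‖g‖) →
    (∀ g, ‖η g‖ ≤ ‖g‖) → ξ x' = 1 → η x' = 1 → ∀ l g, ξ (d l g) = η (d l g)
  κ : ℝ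
  hκ : 1 ≤ κ
  /-- embeddings of the blocks -/
  J : ℕ → (Y →L[𝕜] X)
  hJ : ∀ l y, ‖J l y‖ ≤ κ * ‖yd.R (l + 1) y - yd.R l y‖
  hJ' : ∀ l y, ‖J l y‖ ≤ κ * ‖y‖
  dJ : ∀ l g y, d l g (J l y) = yd.co (D.e.symm (l, 0, g)) y
  /-- restrictions to the first blocks -/
  Q : ℕ → X →L[𝕜] X
  ab : ∀ L, ∀ β : ℝ, 0 ≤ β → β ≤ 1 → ∀ x' : X →L[𝕜] 𝕜,
    (1 - β ^ 2) * ‖x'.comp (Q L)‖ + β * ‖x'.comp (ContinuousLinearMap.id 𝕜 X - Q L)‖ ≤ ‖x'‖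
  Qlim : ∀ x, Tendsto (fun L => Q L x) atTop (𝓝 x)
  QJ : ∀ L l y, L ≤ l → Q L (J l y) = 0

section

variable {𝕜 : Type} [RCLike 𝕜] {X : Type} [NormedAddCommGroup X] [NormedSpace 𝕜 X]

lemma rel_abs (d : ℕ → X →L[𝕜] 𝕜) (c : ℕ → 𝕜) (r : ℕ → ℝ) (hr : Summable r)
    (hb : ∀ g, ‖c g‖ * ‖d g‖ ≤ r g) (h0 : ∀ ξ, ∑' g, c g * d g ξ = 0) :
    HasSum (fun g => c g • d g) 0 := by
  have hs : Summable (fun g => c g • d g) :=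
    Summable.of_norm_bounded hr (fun g => by rw [norm_smul]; exact hb g)
  have h1 : ∑' g, c g • d g = 0 := by
    refine ContinuousLinearMap.ext (fun ξ => ?_)
    have h2 : HasSum (fun g => (c g • d g) ξ) ((∑' g, c g • d g) ξ) :=
      hs.hasSum.mapL (ContinuousLinearMap.apply 𝕜 𝕜 ξ)
    rw [← h2.tsum_eq]
    exact h0 ξ
  rw [← h1]
  exact hs.hasSum

/-- almost norming vectors for two pieces -/
lemma ab_abs (Q1 Q2 : X →L[𝕜] X) (α β : ℝ) (hα : 0 ≤ α) (hβ : 0 ≤ β)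
    (h : ∀ u w : X, ‖u‖ ≤ 1 → ‖w‖ ≤ 1 → ‖(α : 𝕜) • Q1 u + (β : 𝕜) • Q2 w‖ ≤ 1)
    (x' : X →L[𝕜] 𝕜) : α * ‖x'.comp Q1‖ + β * ‖x'.comp Q2‖ ≤ ‖x'‖ := by
  refine le_of_forall_pos_le_add (fun ε hε => ?_)
  have hab : 0 < α + β + 1 := by linarith
  obtain ⟨u, hu1, hu2⟩ := exists_almost (x'.comp Q1) (ε / (α + β + 1)) (by positivity)
  obtain ⟨w, hw1, hw2⟩ := exists_almost (x'.comp Q2) (ε / (α + β + 1)) (by positivity)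
  have h1 := h u w hu1 hw1
  have h2 : RCLike.re (x' ((α : 𝕜) • Q1 u + (β : 𝕜) • Q2 w)) ≤ ‖x'‖ := by
    refine (RCLike.re_le_norm _).trans ((x'.le_opNorm _).trans ?_)
    calc ‖x'‖ * ‖(α : 𝕜) • Q1 u + (β : 𝕜) • Q2 w‖ ≤ ‖x'‖ * 1 :=
          mul_le_mul_of_nonneg_left h1 (norm_nonneg _)
      _ = _ := mul_one _
  rw [map_add, map_smul, map_smul, smul_eq_mul, smul_eq_mul, map_add, RCLike.re_ofReal_mul,
    RCLike.re_ofReal_mul] at h2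
  have h3 : ‖x'.comp Q1‖ - ε / (α + β + 1) ≤ RCLike.re (x' (Q1 u)) := hu2
  have h4 : ‖x'.comp Q2‖ - ε / (α + β + 1) ≤ RCLike.re (x' (Q2 w)) := hw2
  have h5 := mul_le_mul_of_nonneg_left h3 hα
  have h6 := mul_le_mul_of_nonneg_left h4 hβ
  have h7 : (α + β) * (ε / (α + β + 1)) ≤ ε := by
    rw [mul_div_assoc', div_le_iff₀ hab]
    nlinarith
  nlinarith

/-- convergence of bounded operators on a dense subset -/
lemma lim_abs (Q : ℕ → X →L[𝕜] X) (hQ : ∀ L, ‖Q L‖ ≤ 1) (Z : Set X) (hZ : Dense Z)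
    (h : ∀ z ∈ Z, ∃ L0, ∀ L ≥ L0, Q L z = z) (x : X) :
    Tendsto (fun L => Q L x) atTop (𝓝 x) := by
  rw [Metric.tendsto_atTop]
  intro ε hε
  obtain ⟨z, hz, hxz⟩ := Metric.mem_closure_iff.mp (hZ x) (ε / 2) (by positivity)
  obtain ⟨L0, hL0⟩ := h z hz
  refine ⟨L0, fun L hL => ?_⟩
  have h1 := hL0 L hL
  have h2 : Q L x - x = Q L (x - z) - (x - z) := by
    rw [map_sub, h1]; abel
  rw [dist_eq_norm, h2]
  rw [dist_eq_norm] at hxz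
  have h3 : ‖Q L (x - z)‖ ≤ 1 * ‖x - z‖ := (Q L).le_of_opNorm_le (hQ L) _
  have h4 := norm_sub_le (Q L (x - z)) (x - z)
  linarith

end

end Pool.Agent.Y277.NN
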