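import Pool.Agent.Y277.NN.XC

/-!
The closed subspace of the space of p-summable sequences has the properties of the structure.
-/

set_option autoImplicit false
set_option maxHeartbeats 1000000
open scoped ENNReal Topology
open Filter

namespace Pool.Agent.Y277.NN

open Pool.Agent.Helper362.ApNoBap (Data)

section

variable {𝕜 : Type} [RCLike 𝕜] {p : ℝ≥0∞} [Fact (1 ≤ p)] (D : Data) (ω : ℕ → ℝ)
  (hp : 2 ≤ p) (hp' : p ≠ ∞) (hω : ∀ g, 0 < ω g)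
  (hs : Summable (fun g => ω g ^ p.toReal))

lemma Jbig_apply (l : ℕ) (y : lp (fun _ : ℕ => 𝕜) ∞) (n : ℕ) :
    Jbig (𝕜 := 𝕜) D ω hp hp' hω hs l y n = (om D ω l n : 𝕜) * y n := rfl

lemma norm_Jbig_le (l : ℕ) (y : lp (fun _ : ℕ => 𝕜) ∞) :
    ‖Jbig (𝕜 := 𝕜) D ω hp hp' hω hs l y‖ ≤ kap p ω * ‖y‖ := norm_Jfun_le D ω hp hp' hω hs l y

lemma Jbig_mem (l : ℕ) (y : lp (fun _ : ℕ => 𝕜) ∞) (hy : y ∈ S 𝕜 D) :
    Jbig (𝕜 := 𝕜) D ω hp hp' hω hs l y ∈ XX 𝕜 p D ω :=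
  X0_le 𝕜 p D ω (Submodule.subset_span ⟨l, y, hy, fun _ => rfl⟩)

/-- the embedding of block l -/
noncomputable def Jp (l : ℕ) : S 𝕜 D →L[𝕜] XX 𝕜 p D ω :=
  ((Jbig (𝕜 := 𝕜) D ω hp hp' hω hs l).comp (S 𝕜 D).subtypeL).codRestrict (XX 𝕜 p D ω)
    (fun y => Jbig_mem (𝕜 := 𝕜) D ω hp hp' hω hs l y y.2)

lemma Jp_coe (l : ℕ) (y : S 𝕜 D) (n : ℕ) :
    ((Jp D ω hp hp' hω hs l y : XX 𝕜 p D ω) : lp (fun _ : ℕ => 𝕜) p) n =
      (om D ω l n : 𝕜) * (y : lp (fun _ : ℕ => 𝕜) ∞) n := rfl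

lemma norm_Jp_le (l : ℕ) (y : S 𝕜 D) : ‖Jp D ω hp hp' hω hs l y‖ ≤ kap p ω * ‖y‖ :=
  norm_Jbig_le D ω hp hp' hω hs l (y : lp (fun _ : ℕ => 𝕜) ∞)

/-- only the coordinates of block l matter -/
lemma norm_Jp_le' (l : ℕ) (y : S 𝕜 D) :
    ‖Jp D ω hp hp' hω hs l y‖ ≤ kap p ω * ‖RS 𝕜 D (l + 1) y - RS 𝕜 D l y‖ := by
  have h1 : Jp D ω hp hp' hω hs l y = Jp D ω hp hp' hω hs l (RS 𝕜 D (l + 1) y - RS 𝕜 D l y) := by
    refine Subtype.ext (lp.ext (funext fun n => ?_))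
    rw [Jp_coe, Jp_coe, Submodule.coe_sub, lp.coeFn_sub, Pi.sub_apply, RS_coe, RS_coe, R_apply,
      R_apply]
    by_cases h : (D.e n).1 = l
    · rw [if_pos (by omega), if_neg (by omega)]
      ring
    · have h2 : om D ω l n = 0 := by
        unfold om
        rw [if_neg (fun h' => h h'.1)]
      rw [h2]; simp
  rw [h1]
  exact norm_Jp_le D ω hp hp' hω hs l _

variable (𝕜 p) in
/-- coordinate functionals on the space -/
noncomputable def ev (n : ℕ) : XX 𝕜 p D ω →L[𝕜] 𝕜 := (evl 𝕜 p n).comp (XX 𝕜 p D ω).subtypeL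

lemma ev_apply (n : ℕ) (ξ : XX 𝕜 p D ω) :
    ev 𝕜 p D ω n ξ = (ξ : lp (fun _ : ℕ => 𝕜) p) n := rfl

variable (𝕜 p) in
/-- normalized coordinate functionals of the limit coordinates -/
noncomputable def dg (l g : ℕ) : XX 𝕜 p D ω →L[𝕜] 𝕜 :=
  (((ω g)⁻¹ : ℝ) : 𝕜) • ev 𝕜 p D ω (D.e.symm (l, 0, g))

lemma dg_apply (l g : ℕ) (ξ : XX 𝕜 p D ω) : dg 𝕜 p D ω l g ξ =
    (((ω g)⁻¹ : ℝ) : 𝕜) * (ξ : lp (fun _ : ℕ => 𝕜) p) (D.e.symm (l, 0, g)) := rfl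

include hω in
lemma norm_dg_le (l g : ℕ) : ‖dg 𝕜 p D ω l g‖ ≤ (ω g)⁻¹ := by
  have h0 := inv_pos.mpr (hω g)
  refine ContinuousLinearMap.opNorm_le_bound _ h0.le (fun ξ => ?_)
  rw [dg_apply, norm_mul, RCLike.norm_ofReal, abs_of_pos h0]
  exact mul_le_mul_of_nonneg_left
    (lp.norm_apply_le_norm (p_ne_zero p) (ξ : lp (fun _ : ℕ => 𝕜) p) _) h0.le

lemma dg_Jp (l g : ℕ) (y : S 𝕜 D) : dg 𝕜 p D ω l g (Jp D ω hp hp' hω hs l y) =
    (y : lp (fun _ : ℕ => 𝕜) ∞) (D.e.symm (l, 0, g)) := by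
  rw [dg_apply, Jp_coe, om_symm, if_pos rfl, ← mul_assoc, ← RCLike.ofReal_mul,
    inv_mul_cancel₀ (hω g).ne', RCLike.ofReal_one, one_mul]

include hω in
lemma coef_bound (hA : ∀ g h, |D.A g h| ≤ ω g * D.r g) (l h g : ℕ) :
    |D.A g h / D.w l g| * (ω g)⁻¹ ≤ D.r g / D.eps l := by
  rw [abs_div, abs_of_pos (D.w_pos l g)]
  have h1 : |D.A g h| * (ω g)⁻¹ ≤ D.r g := by
    have := mul_le_mul_of_nonneg_right (hA g h) (inv_pos.mpr (hω g)).le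
    have h2 : ω g * D.r g * (ω g)⁻¹ = D.r g := by
      have := (hω g).ne'
      field_simp
    rwa [h2] at this
  have h3 : |D.A g h| / D.w l g * (ω g)⁻¹ = (|D.A g h| * (ω g)⁻¹) / D.w l g := by ring
  rw [h3]
  exact div_le_div₀ (D.r_nonneg g) h1 (D.heps l) (D.hw l g)

include hω in
/-- the relations between the coordinates -/
theorem rel_big (hA : ∀ g h, |D.A g h| ≤ ω g * D.r g) (l h : ℕ)
    (ξ : lp (fun _ : ℕ => 𝕜) p) (hξ : ξ ∈ XX 𝕜 p D ω) :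
    ∑' g, ((D.A g h / D.w l g : ℝ) : 𝕜) * ((((ω g)⁻¹ : ℝ) : 𝕜) * ξ (D.e.symm (l, 0, g))) = 0 := by
  have hsum' : Summable (fun g => (((D.A g h / D.w l g) * (ω g)⁻¹ : ℝ) : 𝕜) •
      evl 𝕜 p (D.e.symm (l, 0, g))) := by
    refine Summable.of_norm_bounded (D.hr.div_const (D.eps l)) (fun g => ?_)
    rw [norm_smul, RCLike.norm_ofReal, abs_mul, abs_of_pos (inv_pos.mpr (hω g))]
    calc |D.A g h / D.w l g| * (ω g)⁻¹ * ‖evl 𝕜 p (D.e.symm (l, 0, g))‖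
        ≤ |D.A g h / D.w l g| * (ω g)⁻¹ * 1 :=
          mul_le_mul_of_nonneg_left (norm_evl_le _)
            (mul_nonneg (abs_nonneg _) (inv_pos.mpr (hω g)).le)
      _ = |D.A g h / D.w l g| * (ω g)⁻¹ := mul_one _
      _ ≤ _ := coef_bound D ω hω hA l h g
  set F : lp (fun _ : ℕ => 𝕜) p →L[𝕜] 𝕜 := ∑' g, (((D.A g h / D.w l g) * (ω g)⁻¹ : ℝ) : 𝕜) •
      evl 𝕜 p (D.e.symm (l, 0, g)) with hF
  have hFs : ∀ ξ : lp (fun _ : ℕ => 𝕜) p, HasSum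
      (fun g => (((D.A g h / D.w l g) * (ω g)⁻¹ : ℝ) : 𝕜) * ξ (D.e.symm (l, 0, g))) (F ξ) := by
    intro ξ
    exact hsum'.hasSum.mapL (ContinuousLinearMap.apply 𝕜 𝕜 ξ)
  have hF0 : ∀ ξ ∈ XX 𝕜 p D ω, F ξ = 0 := by
    refine mem_XX_closed D ω (isClosed_eq F.continuous continuous_const) (map_zero _)
      (fun l' y ξ hy hξ => ?_) ?_ ?_
    · have h1 := hFs ξ
      by_cases hl : l' = l
      · have h2 := Phi_zero D l h y hy
        rw [Phi_apply] at h2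
        rw [← h1.tsum_eq, ← h2]
        refine tsum_congr (fun g => ?_)
        rw [hξ, om_symm, if_pos hl]
        unfold phi
        have hw : (D.w l g : 𝕜) ≠ 0 := by
          rw [Ne, RCLike.ofReal_eq_zero]; exact (D.w_pos l g).ne'
        have ho : (ω g : 𝕜) ≠ 0 := by
          rw [Ne, RCLike.ofReal_eq_zero]; exact (hω g).ne'
        push_cast
        field_simp
      · rw [← h1.tsum_eq]
        have h3 : ∀ g, (((D.A g h / D.w l g) * (ω g)⁻¹ : ℝ) : 𝕜) * ξ (D.e.symm (l, 0, g)) = 0 := by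
          intro g
          rw [hξ, om_symm, if_neg hl]; simp
        simp_rw [h3, tsum_zero]
    · intro x y hx hy
      rw [map_add, hx, hy, add_zero]
    · intro c x hx
      rw [map_smul, hx, smul_zero]
  have h1 := (hFs ξ).tsum_eq
  rw [hF0 ξ hξ] at h1
  rw [← h1]
  refine tsum_congr (fun g => ?_)
  rw [RCLike.ofReal_mul, mul_assoc]

end

end Pool.Agent.Y277.NN
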