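import Pool.Agent.Y277.NN.XE

/-!
The closed subspace of the space of p-summable sequences has the properties of the structure.
-/

set_option autoImplicit false
set_option maxHeartbeats 1000000
open scoped ENNReal Topology
open Filter

namespace Pool.Agent.Y277.NN

open Pool.Agent.Helper362.ApNoBap (Data)

section

variable {𝕜 : Type} [RCLike 𝕜] {p : ℝ≥0∞} [Fact (1 ≤ p)] (D : Data) (ω : ℕ → ℝ)
  (hp : 2 ≤ p) (hp' : p ≠ ∞) (hω : ∀ g, 0 < ω g)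
  (hs : Summable (fun g => ω g ^ p.toReal))

/-- indicator of the first blocks -/
noncomputable def ind (L n : ℕ) : ℝ := if (D.e n).1 < L then 1 else 0

lemma ind_le (L n : ℕ) : |ind D L n| ≤ 1 := by
  unfold ind
  split_ifs <;> simp

variable (𝕜) in
/-- restriction to the first blocks -/
noncomputable def QQ (L : ℕ) : lp (fun _ : ℕ => 𝕜) p →L[𝕜] lp (fun _ : ℕ => 𝕜) p :=
  mulp hp hp' (ind D L) (ind_le D L)

lemma QQ_apply (L : ℕ) (x : lp (fun _ : ℕ => 𝕜) p) (n : ℕ) :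
    QQ 𝕜 D hp hp' L x n = (ind D L n : 𝕜) * x n := rfl

lemma norm_QQ_le (L : ℕ) : ‖QQ 𝕜 D hp hp' L‖ ≤ 1 := norm_mulp_le hp hp' _ _

lemma QQ_gen_lt (L l : ℕ) (hl : l < L) (y : lp (fun _ : ℕ => 𝕜) ∞) (ξ : lp (fun _ : ℕ => 𝕜) p)
    (hξ : ∀ n, ξ n = (om D ω l n : 𝕜) * y n) : QQ 𝕜 D hp hp' L ξ = ξ := by
  refine lp.ext (funext fun n => ?_)
  rw [QQ_apply, hξ]
  by_cases h : (D.e n).1 = l
  · have h1 : ind D L n = 1 := by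
      unfold ind
      rw [if_pos (by omega)]
    rw [h1, RCLike.ofReal_one, one_mul]
  · have h2 : om D ω l n = 0 := by
      unfold om
      rw [if_neg (fun h' => h h'.1)]
    rw [h2]; simp

lemma QQ_gen_ge (L l : ℕ) (hl : L ≤ l) (y : lp (fun _ : ℕ => 𝕜) ∞) (ξ : lp (fun _ : ℕ => 𝕜) p)
    (hξ : ∀ n, ξ n = (om D ω l n : 𝕜) * y n) : QQ 𝕜 D hp hp' L ξ = 0 := by
  refine lp.ext (funext fun n => ?_)
  rw [QQ_apply, hξ]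
  by_cases h : (D.e n).1 = l
  · have h1 : ind D L n = 0 := by
      unfold ind
      rw [if_neg (by omega)]
    rw [h1]; simp
  · have h2 : om D ω l n = 0 := by
      unfold om
      rw [if_neg (fun h' => h h'.1)]
    rw [h2]; simp

lemma QQ_mem (L : ℕ) : ∀ ξ ∈ XX 𝕜 p D ω, QQ 𝕜 D hp hp' L ξ ∈ XX 𝕜 p D ω := by
  refine mem_XX_closed D ω ((XX_closed 𝕜 p D ω).preimage (QQ 𝕜 D hp hp' L).continuous) ?_
    (fun l y ξ hy hξ => ?_) ?_ ?_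
  · rw [map_zero]; exact (XX 𝕜 p D ω).zero_mem
  · by_cases hl : l < L
    · rw [QQ_gen_lt D ω hp hp' L l hl y ξ hξ]
      exact X0_le 𝕜 p D ω (Submodule.subset_span ⟨l, y, hy, hξ⟩)
    · rw [QQ_gen_ge D ω hp hp' L l (by omega) y ξ hξ]
      exact (XX 𝕜 p D ω).zero_mem
  · intro x y hx hy
    rw [map_add]; exact (XX 𝕜 p D ω).add_mem hx hy
  · intro c x hx
    rw [map_smul]; exact (XX 𝕜 p D ω).smul_mem c hx

lemma QQ_stab : ∀ ξ ∈ X0 𝕜 p D ω, ∃ L0, ∀ L ≥ L0, QQ 𝕜 D hp hp' L ξ = ξ := by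
  intro ξ hξ
  refine Submodule.span_induction (p := fun x _ => ∃ L0, ∀ L ≥ L0, QQ 𝕜 D hp hp' L x = x)
    ?_ ?_ ?_ ?_ hξ
  · rintro ξ ⟨l, y, _, h⟩
    exact ⟨l + 1, fun L hL => QQ_gen_lt D ω hp hp' L l (by omega) y ξ h⟩
  · exact ⟨0, fun L _ => map_zero _⟩
  · rintro x y _ _ ⟨L1, h1⟩ ⟨L2, h2⟩
    refine ⟨max L1 L2, fun L hL => ?_⟩
    rw [map_add, h1 L (le_trans (le_max_left _ _) hL), h2 L (le_trans (le_max_right _ _) hL)]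
  · rintro c x _ ⟨L1, h1⟩
    exact ⟨L1, fun L hL => by rw [map_smul, h1 L hL]⟩

variable (𝕜) in
/-- restriction to the first blocks on the space -/
noncomputable def QX (L : ℕ) : XX 𝕜 p D ω →L[𝕜] XX 𝕜 p D ω :=
  ((QQ 𝕜 D hp hp' L).comp (XX 𝕜 p D ω).subtypeL).codRestrict (XX 𝕜 p D ω)
    (fun y => QQ_mem (𝕜 := 𝕜) D ω hp hp' L y y.2)

lemma QX_coe (L : ℕ) (ξ : XX 𝕜 p D ω) :
    ((QX 𝕜 D ω hp hp' L ξ : XX 𝕜 p D ω) : lp (fun _ : ℕ => 𝕜) p) =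
      QQ 𝕜 D hp hp' L (ξ : lp (fun _ : ℕ => 𝕜) p) := rfl

lemma norm_QX_le (L : ℕ) : ‖QX 𝕜 D ω hp hp' L‖ ≤ 1 := by
  refine ContinuousLinearMap.opNorm_le_bound _ zero_le_one (fun x => ?_)
  exact (QQ 𝕜 D hp hp' L).le_of_opNorm_le (norm_QQ_le D hp hp' L) (x : lp (fun _ : ℕ => 𝕜) p)

lemma QX_Jp (L l : ℕ) (y : S 𝕜 D) (hl : L ≤ l) :
    QX 𝕜 D ω hp hp' L (Jp D ω hp hp' hω hs l y) = 0 := by
  refine Subtype.ext ?_
  rw [QX_coe]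
  exact QQ_gen_ge D ω hp hp' L l hl (y : lp (fun _ : ℕ => 𝕜) ∞) _
    (fun n => Jp_coe D ω hp hp' hω hs l y n)

lemma QX_lim (ξ : XX 𝕜 p D ω) : Tendsto (fun L => QX 𝕜 D ω hp hp' L ξ) atTop (𝓝 ξ) := by
  refine lim_abs (X := XX 𝕜 p D ω) (QX 𝕜 D ω hp hp') (norm_QX_le D ω hp hp')
    {z : XX 𝕜 p D ω | (z : lp (fun _ : ℕ => 𝕜) p) ∈ X0 𝕜 p D ω} (fun x => ?_) (fun z hz => ?_) ξ
  · rw [Metric.mem_closure_iff]
    intro ε hε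
    have hx : (x : lp (fun _ : ℕ => 𝕜) p) ∈ closure (X0 𝕜 p D ω : Set (lp (fun _ : ℕ => 𝕜) p)) :=
      x.2
    obtain ⟨z, hz, hxz⟩ := Metric.mem_closure_iff.mp hx ε hε
    exact ⟨⟨z, X0_le 𝕜 p D ω hz⟩, hz, hxz⟩
  · obtain ⟨L0, h⟩ := QQ_stab D ω hp hp' (z : lp (fun _ : ℕ => 𝕜) p) hz
    exact ⟨L0, fun L hL => Subtype.ext (h L hL)⟩

lemma QX_ab (L : ℕ) (β : ℝ) (hβ0 : 0 ≤ β) (hβ1 : β ≤ 1) (x' : XX 𝕜 p D ω →L[𝕜] 𝕜) :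
    (1 - β ^ 2) * ‖x'.comp (QX 𝕜 D ω hp hp' L)‖ +
      β * ‖x'.comp (ContinuousLinearMap.id 𝕜 (XX 𝕜 p D ω) - QX 𝕜 D ω hp hp' L)‖ ≤ ‖x'‖ := by
  have hα0 : 0 ≤ 1 - β ^ 2 := by nlinarith
  refine ab_abs (X := XX 𝕜 p D ω) _ _ _ _ hα0 hβ0 (fun u w hu hw => ?_) x'
  refine disjoint_norm_le hp hp' (u : lp (fun _ : ℕ => 𝕜) p) (w : lp (fun _ : ℕ => 𝕜) p)
    ((((1 - β ^ 2 : ℝ) : 𝕜) • QX 𝕜 D ω hp hp' L u + (β : 𝕜) •
      (ContinuousLinearMap.id 𝕜 (XX 𝕜 p D ω) - QX 𝕜 D ω hp hp' L) w : XX 𝕜 p D ω) :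
        lp (fun _ : ℕ => 𝕜) p) hu hw β hβ0 hβ1 (fun n => ?_)
  have h1 : ((((1 - β ^ 2 : ℝ) : 𝕜) • QX 𝕜 D ω hp hp' L u + (β : 𝕜) •
      (ContinuousLinearMap.id 𝕜 (XX 𝕜 p D ω) - QX 𝕜 D ω hp hp' L) w : XX 𝕜 p D ω) :
        lp (fun _ : ℕ => 𝕜) p) n =
      ((1 - β ^ 2 : ℝ) : 𝕜) * ((ind D L n : 𝕜) * (u : lp (fun _ : ℕ => 𝕜) p) n) +
        (β : 𝕜) * ((w : lp (fun _ : ℕ => 𝕜) p) n -
          (ind D L n : 𝕜) * (w : lp (fun _ : ℕ => 𝕜) p) n) := rfl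
  rw [h1]
  by_cases h : (D.e n).1 < L
  · left
    have h2 : ind D L n = 1 := by
      unfold ind
      rw [if_pos h]
    rw [h2, RCLike.ofReal_one, one_mul, one_mul, sub_self, mul_zero, add_zero, norm_mul,
      RCLike.norm_ofReal, abs_of_nonneg hα0]
  · right
    have h2 : ind D L n = 0 := by
      unfold ind
      rw [if_neg h]
    rw [h2, RCLike.ofReal_zero, zero_mul, zero_mul, mul_zero, zero_add, sub_zero, norm_mul,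
      RCLike.norm_ofReal, abs_of_nonneg hβ0]

/-- the structure on the closed subspace -/
noncomputable def xdX (hA : ∀ g h, |D.A g h| ≤ ω g * D.r g) :
    XD 𝕜 D ω (XX 𝕜 p D ω) (S 𝕜 D) (ydS 𝕜 D) where
  d := dg 𝕜 p D ω
  hd := norm_dg_le D ω hω
  rel := fun l h => rel_abs (X := XX 𝕜 p D ω) _ _ (fun g => D.r g / D.eps l)
    (D.hr.div_const (D.eps l)) (fun g => by
      rw [RCLike.norm_ofReal]
      exact (mul_le_mul_of_nonneg_left (norm_dg_le D ω hω l g) (abs_nonneg _)).trans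
        (coef_bound D ω hω hA l h g)) (fun ξ => rel_big D ω hω hA l h _ ξ.2)
  strict := fun x' hx' ξ η hξ hη h1 h2 l g => by
    have h := strict hp hp' (XX 𝕜 p D ω) (D.e.symm (l, 0, g)) (ev 𝕜 p D ω (D.e.symm (l, 0, g)))
      (fun _ => rfl) x' hx' ξ η hξ hη h1 h2
    show ξ ((((ω g)⁻¹ : ℝ) : 𝕜) • ev 𝕜 p D ω (D.e.symm (l, 0, g))) =
      η ((((ω g)⁻¹ : ℝ) : 𝕜) • ev 𝕜 p D ω (D.e.symm (l, 0, g)))
    rw [map_smul, map_smul, h]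
  κ := kap p ω
  hκ := one_le_kap ω hω
  J := Jp D ω hp hp' hω hs
  hJ := norm_Jp_le' D ω hp hp' hω hs
  hJ' := norm_Jp_le D ω hp hp' hω hs
  dJ := fun l g y => dg_Jp D ω hp hp' hω hs l g y
  Q := QX 𝕜 D ω hp hp'
  ab := QX_ab D ω hp hp'
  Qlim := QX_lim D ω hp hp'
  QJ := fun L l y hl => QX_Jp D ω hp hp' hω hs L l y hl

end

end Pool.Agent.Y277.NN
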