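import Pool.Agent.Helper362.ApB

/-!
The spaces of the construction, over the real and over the complex scalars: subspaces of the
bounded sequences.
-/

set_option autoImplicit false
open scoped ENNReal Topology
open Filter

namespace Pool.Agent.Y277.NN

open Pool.Agent.Helper362.ApNoBap (Data)

section

variable {𝕜 : Type} [RCLike 𝕜]

lemma memI (f : ℕ → 𝕜) (C : ℝ) (h : ∀ n, ‖f n‖ ≤ C) : Memℓp f ∞ := by
  refine memℓp_infty ⟨C, ?_⟩
  rintro _ ⟨n, rfl⟩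
  exact h n

lemma abs_le_norm (x : lp (fun _ : ℕ => 𝕜) ∞) (n : ℕ) : ‖x n‖ ≤ ‖x‖ :=
  lp.norm_apply_le_norm (by simp : (∞ : ℝ≥0∞) ≠ 0) x n

lemma norm_le (x : lp (fun _ : ℕ => 𝕜) ∞) (C : ℝ) (hC : 0 ≤ C) (h : ∀ n, ‖x n‖ ≤ C) : ‖x‖ ≤ C :=
  lp.norm_le_of_forall_le hC h

/-- weighted composition operator on bounded sequences -/
noncomputable def op (α : ℕ → ℝ) (π : ℕ → ℕ) (C : ℝ) (h : ∀ n, |α n| ≤ C) :
    lp (fun _ : ℕ => 𝕜) ∞ →L[𝕜] lp (fun _ : ℕ => 𝕜) ∞ :=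
  LinearMap.mkContinuous
    { toFun := fun x => ⟨fun n => (α n : 𝕜) * x (π n), memI _ (C * ‖x‖) (fun n => by
        rw [norm_mul, RCLike.norm_ofReal]
        exact mul_le_mul (h n) (abs_le_norm x _) (norm_nonneg _) ((abs_nonneg _).trans (h n)))⟩
      map_add' := fun x y => by
        ext n
        show (α n : 𝕜) * ((x + y : lp (fun _ : ℕ => 𝕜) ∞) (π n)) =
          (α n : 𝕜) * x (π n) + (α n : 𝕜) * y (π n)
        rw [lp.coeFn_add, Pi.add_apply, mul_add]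
      map_smul' := fun c x => by
        ext n
        show (α n : 𝕜) * ((c • x : lp (fun _ : ℕ => 𝕜) ∞) (π n)) = c * ((α n : 𝕜) * x (π n))
        rw [lp.coeFn_smul, Pi.smul_apply, smul_eq_mul, mul_left_comm] } C (fun x => by
        refine norm_le _ _ (mul_nonneg ((abs_nonneg _).trans (h 0)) (norm_nonneg _)) (fun n => ?_)
        show ‖(α n : 𝕜) * x (π n)‖ ≤ _
        rw [norm_mul, RCLike.norm_ofReal]
        exact mul_le_mul (h n) (abs_le_norm x _) (norm_nonneg _) ((abs_nonneg _).trans (h n)))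

lemma op_apply (α : ℕ → ℝ) (π : ℕ → ℕ) (C : ℝ) (h : ∀ n, |α n| ≤ C)
    (x : lp (fun _ : ℕ => 𝕜) ∞) (n : ℕ) : (op (𝕜 := 𝕜) α π C h x) n = (α n : 𝕜) * x (π n) := rfl

lemma norm_op_le (α : ℕ → ℝ) (π : ℕ → ℕ) (C : ℝ) (h : ∀ n, |α n| ≤ C) :
    ‖op (𝕜 := 𝕜) α π C h‖ ≤ C :=
  LinearMap.mkContinuous_norm_le _ ((abs_nonneg _).trans (h 0)) _

end

section

variable (𝕜 : Type) [RCLike 𝕜] (D : Data)

/-- the rows as bounded sequences -/
noncomputable def row (g : ℕ) : lp (fun _ : ℕ => 𝕜) ∞ :=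
  ⟨fun h => (D.A g h : 𝕜), memI _ (D.r g) (fun h => by
    rw [RCLike.norm_ofReal]; exact D.hA g h)⟩

lemma row_apply (g h : ℕ) : row 𝕜 D g h = (D.A g h : 𝕜) := rfl

lemma norm_row_le (g : ℕ) (c : ℝ) (h : ∀ h, |D.A g h| ≤ c) : ‖row 𝕜 D g‖ ≤ c :=
  norm_le _ _ ((abs_nonneg _).trans (h 0)) (fun n => by
    rw [row_apply, RCLike.norm_ofReal]; exact h n)

/-- the vector of the sequence that vanishes before k and equals y from k on -/
noncomputable def J (l k : ℕ) : lp (fun _ : ℕ => 𝕜) ∞ →L[𝕜] lp (fun _ : ℕ => 𝕜) ∞ :=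
  op (D.jc l k) (fun n => (D.e n).2.2) 1 (D.abs_jc_le l k)

variable {𝕜}

lemma J_apply (l k : ℕ) (y : lp (fun _ : ℕ => 𝕜) ∞) (n : ℕ) :
    J 𝕜 D l k y n = (D.jc l k n : 𝕜) * y (D.e n).2.2 := rfl

lemma norm_J_le (l k : ℕ) (y : lp (fun _ : ℕ => 𝕜) ∞) : ‖J 𝕜 D l k y‖ ≤ ‖y‖ := by
  have := (J 𝕜 D l k).le_of_opNorm_le (norm_op_le _ _ _ (D.abs_jc_le l k)) y
  simpa using this

lemma norm_J_sub_le (l k k' : ℕ) (y : lp (fun _ : ℕ => 𝕜) ∞) :
    ‖J 𝕜 D l k y - J 𝕜 D l k' y‖ ≤ D.eps l * ‖y‖ := by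
  refine norm_le _ _ (mul_nonneg (D.heps l).le (norm_nonneg _)) (fun n => ?_)
  rw [lp.coeFn_sub, Pi.sub_apply, J_apply, J_apply, ← sub_mul, norm_mul, ← RCLike.ofReal_sub,
    RCLike.norm_ofReal]
  refine mul_le_mul ?_ (abs_le_norm _ _) (norm_nonneg _) (D.heps l).le
  unfold Data.jc
  have h1 := D.heps l
  split_ifs <;> simp [abs_of_pos h1, h1.le]

variable (𝕜)

/-- generators -/
def gens : Set (lp (fun _ : ℕ => 𝕜) ∞) := {x | ∃ l k g, g < k ∧ x = J 𝕜 D l k (row 𝕜 D g)}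

noncomputable def S0 : Submodule 𝕜 (lp (fun _ : ℕ => 𝕜) ∞) := Submodule.span 𝕜 (gens 𝕜 D)

noncomputable def S : Submodule 𝕜 (lp (fun _ : ℕ => 𝕜) ∞) := (S0 𝕜 D).topologicalClosure

lemma S_closed : IsClosed (S 𝕜 D : Set (lp (fun _ : ℕ => 𝕜) ∞)) :=
  (S0 𝕜 D).isClosed_topologicalClosure

lemma S0_le : S0 𝕜 D ≤ S 𝕜 D := (S0 𝕜 D).le_topologicalClosure

lemma gen_mem (l k g : ℕ) (h : g < k) : J 𝕜 D l k (row 𝕜 D g) ∈ S 𝕜 D :=
  S0_le 𝕜 D (Submodule.subset_span ⟨l, k, g, h, rfl⟩)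

variable {𝕜}

/-- closed induction principle -/
lemma mem_S_closed {P : lp (fun _ : ℕ => 𝕜) ∞ → Prop} (hP : IsClosed {x | P x})
    (h0 : P 0) (hg : ∀ l k g, g < k → P (J 𝕜 D l k (row 𝕜 D g)))
    (hadd : ∀ x y, P x → P y → P (x + y)) (hs : ∀ (c : 𝕜) x, P x → P (c • x)) :
    ∀ x ∈ S 𝕜 D, P x := by
  intro x hx
  have h1 : (S0 𝕜 D : Set (lp (fun _ : ℕ => 𝕜) ∞)) ⊆ {x | P x} := by
    intro y hy
    refine Submodule.span_induction (p := fun y _ => P y) ?_ h0 (fun x y _ _ hx hy => hadd x y hx hy)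
      (fun c x _ hx => hs c x hx) hy
    rintro _ ⟨l, k, g, h, rfl⟩
    exact hg l k g h
  exact (closure_minimal h1 hP) hx

lemma continuous_coord (n : ℕ) : Continuous (fun x : lp (fun _ : ℕ => 𝕜) ∞ => x n) := by
  have h : LipschitzWith 1 (fun x : lp (fun _ : ℕ => 𝕜) ∞ => x n) := by
    refine LipschitzWith.of_dist_le_mul (fun x y => ?_)
    have h1 := abs_le_norm (x - y) n
    have h2 : dist x y = ‖x - y‖ := dist_eq_norm x y
    rw [NNReal.coe_one, one_mul, dist_eq_norm, h2]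
    exact h1
  exact h.continuous

lemma isClosed_c0 : IsClosed {x : lp (fun _ : ℕ => 𝕜) ∞ |
    Tendsto (fun n : ℕ => x n) cofinite (𝓝 0)} := by
  refine isClosed_of_closure_subset (fun x hx => ?_)
  rw [Set.mem_ofPred_eq, Metric.tendsto_nhds]
  intro ε hε
  obtain ⟨y, hy, hxy⟩ := Metric.mem_closure_iff.mp hx (ε / 2) (by positivity)
  have h2 := (Metric.tendsto_nhds.mp hy) (ε / 2) (by positivity)
  filter_upwards [h2] with n hn
  rw [dist_eq_norm, sub_zero] at hn ⊢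
  have h3 := abs_le_norm (x - y) n
  rw [dist_eq_norm] at hxy
  have h4 : ‖x n - y n‖ ≤ ‖x - y‖ := by simpa using h3
  have h5 : ‖x n‖ ≤ ‖x n - y n‖ + ‖y n‖ := by
    calc ‖x n‖ = ‖(x n - y n) + y n‖ := by rw [sub_add_cancel]
      _ ≤ _ := norm_add_le _ _
  linarith

lemma tendsto_J_row (l k g : ℕ) :
    Tendsto (fun n : ℕ => J 𝕜 D l k (row 𝕜 D g) n) cofinite (𝓝 0) := by
  rw [Metric.tendsto_nhds]
  intro ε hε
  have h1 := (Metric.tendsto_nhds.mp (D.hA0 g)) ε hε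
  rw [eventually_cofinite] at h1 ⊢
  have hfin : Set.Finite (({l} : Set ℕ) ×ˢ (Set.Iic k ×ˢ {x | ¬ dist (D.A g x) 0 < ε})) :=
    (Set.finite_singleton l).prod ((Set.finite_Iic k).prod h1)
  refine (hfin.preimage (f := D.e) D.e.injective.injOn).subset (fun n hn => ?_)
  rw [Set.mem_ofPred_eq, J_apply, row_apply, dist_eq_norm, sub_zero, norm_mul,
    RCLike.norm_ofReal, RCLike.norm_ofReal] at hn
  have hj := D.abs_jc_le l k n
  have hne : D.jc l k n ≠ 0 := by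
    intro h
    rw [h, abs_zero, zero_mul] at hn
    exact hn hε
  refine ⟨?_, ?_, ?_⟩
  · by_contra hc
    have hc' : ¬ (D.e n).1 = l := hc
    exact hne (by unfold Data.jc; rw [if_neg hc'])
  · by_contra hc
    apply hne
    unfold Data.jc
    have h1 : ¬ (D.e n).2.1 ≤ k := hc
    have h2 : ¬ (D.e n).2.1 = 0 := by omega
    simp [h1, h2]
  · rw [Set.mem_ofPred_eq, Real.dist_eq, sub_zero]
    intro hc
    apply hn
    calc |D.jc l k n| * |D.A g (D.e n).2.2| ≤ 1 * |D.A g (D.e n).2.2| :=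
          mul_le_mul_of_nonneg_right hj (abs_nonneg _)
      _ < ε := by rw [one_mul]; exact hc

lemma S_c0 : ∀ x ∈ S 𝕜 D, Tendsto (fun n : ℕ => x n) cofinite (𝓝 0) := by
  refine mem_S_closed D isClosed_c0 ?_ (fun l k g _ => tendsto_J_row D l k g) ?_ ?_
  · simp
  · intro x y hx hy
    simpa using hx.add hy
  · intro c x hx
    simpa using hx.const_mul c

end

end Pool.Agent.Y277.NN
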