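import Pool.Agent.Y277.NN.YA

/-!
Finite rank projections on the space and the approximation property.
-/

set_option autoImplicit false
open scoped ENNReal Topology
open Filter

namespace Pool.Agent.Y277.NN

open Pool.Agent.Helper362.ApNoBap (Data)

variable (𝕜 : Type) [RCLike 𝕜] (D : Data)

/-- the finite rank projections -/
noncomputable def P (L N : ℕ) : lp (fun _ : ℕ => 𝕜) ∞ →L[𝕜] lp (fun _ : ℕ => 𝕜) ∞ :=
  op (D.a1 L N) id 1 (D.abs_a1_le L N) +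
    op (D.a2 L N) (fun n => D.e.symm ((D.e n).1, N + 1, (D.e n).2.2)) (D.B L) (D.abs_a2_le L N)

lemma P_apply (L N : ℕ) (x : lp (fun _ : ℕ => 𝕜) ∞) (n : ℕ) :
    P 𝕜 D L N x n = (D.a1 L N n : 𝕜) * x n +
      (D.a2 L N n : 𝕜) * x (D.e.symm ((D.e n).1, N + 1, (D.e n).2.2)) := by
  unfold P
  rw [add_apply, lp.coeFn_add, Pi.add_apply, op_apply, op_apply]
  rfl

lemma norm_P_le (L N : ℕ) : ‖P 𝕜 D L N‖ ≤ 1 + D.B L :=
  (norm_add_le _ _).trans (add_le_add (norm_op_le _ _ _ _) (norm_op_le _ _ _ _))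

/-- restriction to the first L blocks -/
noncomputable def R (L : ℕ) : lp (fun _ : ℕ => 𝕜) ∞ →L[𝕜] lp (fun _ : ℕ => 𝕜) ∞ :=
  op (fun n => if (D.e n).1 < L then 1 else 0) id 1 (fun n => by split_ifs <;> simp)

lemma R_apply (L : ℕ) (x : lp (fun _ : ℕ => 𝕜) ∞) (n : ℕ) :
    R 𝕜 D L x n = (if (D.e n).1 < L then 1 else 0) * x n := by
  show (((if (D.e n).1 < L then 1 else 0 : ℝ)) : 𝕜) * x n = _
  split_ifs <;> simp

lemma norm_R_le (L : ℕ) : ‖R 𝕜 D L‖ ≤ 1 := norm_op_le _ _ _ _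

variable {𝕜}

lemma R_J_lt (L l k : ℕ) (hl : l < L) (y : lp (fun _ : ℕ => 𝕜) ∞) :
    R 𝕜 D L (J 𝕜 D l k y) = J 𝕜 D l k y := by
  ext n
  rw [R_apply, J_apply]
  by_cases h : (D.e n).1 < L
  · rw [if_pos h, one_mul]
  · have hne : (D.e n).1 ≠ l := by omega
    unfold Data.jc
    rw [if_neg hne]; simp

lemma R_J_ge (L l k : ℕ) (hl : L ≤ l) (y : lp (fun _ : ℕ => 𝕜) ∞) :
    R 𝕜 D L (J 𝕜 D l k y) = 0 := by
  ext n
  rw [R_apply, J_apply]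
  by_cases h : (D.e n).1 < L
  · have hne : (D.e n).1 ≠ l := by omega
    unfold Data.jc
    rw [if_neg hne]; simp
  · rw [if_neg h]; simp

lemma P_J_le (L N l k : ℕ) (hl : l < L) (hk : k ≤ N) (y : lp (fun _ : ℕ => 𝕜) ∞) :
    P 𝕜 D L N (J 𝕜 D l k y) = J 𝕜 D l k y := by
  ext n
  rw [P_apply, J_apply, J_apply]
  have h2 : D.jc l k (D.e.symm ((D.e n).1, N + 1, (D.e n).2.2)) = 0 := by
    unfold Data.jc
    rw [Equiv.apply_symm_apply]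
    simp only
    by_cases h1 : (D.e n).1 = l
    · rw [if_pos h1, if_neg (by omega), if_neg (by omega)]
    · rw [if_neg h1]
  rw [h2, RCLike.ofReal_zero, zero_mul, mul_zero, add_zero]
  unfold Data.a1
  by_cases h : (D.e n).1 < L ∧ (D.e n).2.1 ≤ N
  · rw [if_pos h, RCLike.ofReal_one, one_mul]
  · have h3 : D.jc l k n = 0 := by
      unfold Data.jc
      by_cases h4 : (D.e n).1 = l
      · rw [if_pos h4]
        have h5 : ¬ (D.e n).2.1 ≤ k := by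
          intro h6
          apply h
          omega
        have h6 : ¬ (D.e n).2.1 = 0 := by omega
        rw [if_neg h6, if_neg h5]
      · rw [if_neg h4]
    rw [h3]; simp

lemma coef_gt (L N l k n : ℕ) (hk : N < k) :
    D.a1 L N n * D.jc l k n +
      D.a2 L N n * D.jc l k (D.e.symm ((D.e n).1, N + 1, (D.e n).2.2)) = 0 := by
  by_cases hl : (D.e n).1 = l
  · have h2 : D.jc l k (D.e.symm ((D.e n).1, N + 1, (D.e n).2.2)) = - D.eps l := by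
      unfold Data.jc
      rw [Equiv.apply_symm_apply]
      simp only
      rw [if_pos hl, if_neg (by omega), if_pos (by omega)]
    rw [h2]
    unfold Data.a1 Data.a2 Data.jc
    rw [if_pos hl, hl]
    have he := (D.heps l).ne'
    by_cases hL : l < L
    · by_cases h0 : (D.e n).2.1 = 0
      · simp only [hL, h0, if_true, true_and, Nat.zero_le]
        field_simp
        ring
      · by_cases h1 : (D.e n).2.1 ≤ N
        · have h3 : (D.e n).2.1 ≤ k := by omega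
          simp only [hL, h0, h1, h3, if_true, if_false, true_and]
          ring
        · simp [hL, h0, h1]
    · simp [hL]
  · have h2 : D.jc l k (D.e.symm ((D.e n).1, N + 1, (D.e n).2.2)) = 0 := by
      unfold Data.jc
      rw [Equiv.apply_symm_apply]
      simp only
      rw [if_neg hl]
    have h3 : D.jc l k n = 0 := by
      unfold Data.jc
      rw [if_neg hl]
    rw [h2, h3]; simp

lemma P_J_gt (L N l k : ℕ) (hk : N < k) (y : lp (fun _ : ℕ => 𝕜) ∞) :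
    P 𝕜 D L N (J 𝕜 D l k y) = 0 := by
  ext n
  rw [P_apply, J_apply, J_apply, lp.coeFn_zero, Pi.zero_apply, Equiv.apply_symm_apply]
  have h1 := coef_gt D L N l k n hk
  have h2 : (((D.a1 L N n * D.jc l k n +
      D.a2 L N n * D.jc l k (D.e.symm ((D.e n).1, N + 1, (D.e n).2.2)) : ℝ)) : 𝕜) = 0 := by
    rw [h1, RCLike.ofReal_zero]
  rw [RCLike.ofReal_add, RCLike.ofReal_mul, RCLike.ofReal_mul] at h2
  linear_combination y (D.e n).2.2 * h2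

lemma P_J_ge (L N l k : ℕ) (hl : L ≤ l) (y : lp (fun _ : ℕ => 𝕜) ∞) :
    P 𝕜 D L N (J 𝕜 D l k y) = 0 := by
  ext n
  rw [P_apply, J_apply, J_apply, lp.coeFn_zero, Pi.zero_apply]
  by_cases hl' : (D.e n).1 = l
  · unfold Data.a1 Data.a2
    have h1 : ¬ (D.e n).1 < L := by omega
    simp [h1]
  · have h2 : D.jc l k (D.e.symm ((D.e n).1, N + 1, (D.e n).2.2)) = 0 := by
      unfold Data.jc
      rw [Equiv.apply_symm_apply]
      simp only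
      rw [if_neg hl']
    have h3 : D.jc l k n = 0 := by
      unfold Data.jc
      rw [if_neg hl']
    rw [h2, h3]; simp

lemma map_S (Q : lp (fun _ : ℕ => 𝕜) ∞ →L[𝕜] lp (fun _ : ℕ => 𝕜) ∞)
    (hQ : ∀ l k g, g < k → Q (J 𝕜 D l k (row 𝕜 D g)) ∈ S 𝕜 D) :
    ∀ x ∈ S 𝕜 D, Q x ∈ S 𝕜 D := by
  refine mem_S_closed D ((S_closed 𝕜 D).preimage Q.continuous) ?_ hQ ?_ ?_
  · rw [map_zero]; exact (S 𝕜 D).zero_mem
  · intro x y hx hy
    rw [map_add]; exact (S 𝕜 D).add_mem hx hy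
  · intro c x hx
    rw [map_smul]; exact (S 𝕜 D).smul_mem c hx

lemma P_mem (L N : ℕ) : ∀ x ∈ S 𝕜 D, P 𝕜 D L N x ∈ S 𝕜 D := by
  refine map_S D _ (fun l k g h => ?_)
  by_cases hl : l < L
  · by_cases hk : k ≤ N
    · rw [P_J_le D L N l k hl hk]; exact gen_mem 𝕜 D l k g h
    · rw [P_J_gt D L N l k (by omega)]; exact (S 𝕜 D).zero_mem
  · rw [P_J_ge D L N l k (by omega)]; exact (S 𝕜 D).zero_mem

lemma R_mem (L : ℕ) : ∀ x ∈ S 𝕜 D, R 𝕜 D L x ∈ S 𝕜 D := by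
  refine map_S D _ (fun l k g h => ?_)
  by_cases hl : l < L
  · rw [R_J_lt D L l k hl]; exact gen_mem 𝕜 D l k g h
  · rw [R_J_ge D L l k (by omega)]; exact (S 𝕜 D).zero_mem

variable (𝕜)

/-- finite dimensional range -/
noncomputable def W (L N : ℕ) : Submodule 𝕜 (lp (fun _ : ℕ => 𝕜) ∞) :=
  Submodule.span 𝕜 ((fun q : ℕ × ℕ × ℕ => J 𝕜 D q.1 q.2.1 (row 𝕜 D q.2.2)) ''
    (↑(Finset.range L ×ˢ (Finset.range (N + 1) ×ˢ Finset.range N)) : Set (ℕ × ℕ × ℕ)))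

instance W_fin (L N : ℕ) : FiniteDimensional 𝕜 (W 𝕜 D L N) :=
  FiniteDimensional.span_of_finite 𝕜 ((Finset.finite_toSet _).image _)

variable {𝕜}

lemma P_mem_W (L N : ℕ) : ∀ x ∈ S 𝕜 D, P 𝕜 D L N x ∈ W 𝕜 D L N := by
  have hcl : IsClosed (W 𝕜 D L N : Set (lp (fun _ : ℕ => 𝕜) ∞)) :=
    (W 𝕜 D L N).closed_of_finiteDimensional
  refine mem_S_closed D (hcl.preimage (P 𝕜 D L N).continuous) ?_ (fun l k g h => ?_) ?_ ?_
  · rw [map_zero]; exact (W 𝕜 D L N).zero_mem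
  · by_cases hl : l < L
    · by_cases hk : k ≤ N
      · rw [P_J_le D L N l k hl hk]
        refine Submodule.subset_span ⟨(l, k, g), ?_, rfl⟩
        simp only [Finset.coe_product, Finset.coe_range, Set.mem_prod, Set.mem_Iio]
        omega
      · rw [P_J_gt D L N l k (by omega)]; exact (W 𝕜 D L N).zero_mem
    · rw [P_J_ge D L N l k (by omega)]; exact (W 𝕜 D L N).zero_mem
  · intro x y hx hy
    rw [map_add]; exact (W 𝕜 D L N).add_mem hx hy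
  · intro c x hx
    rw [map_smul]; exact (W 𝕜 D L N).smul_mem c hx

variable (𝕜)

noncomputable def T (L N : ℕ) : S 𝕜 D →L[𝕜] S 𝕜 D :=
  ((P 𝕜 D L N).comp (S 𝕜 D).subtypeL).codRestrict (S 𝕜 D) (fun x => P_mem (𝕜 := 𝕜) D L N x x.2)

/-- restriction operators -/
noncomputable def RS (L : ℕ) : S 𝕜 D →L[𝕜] S 𝕜 D :=
  ((R 𝕜 D L).comp (S 𝕜 D).subtypeL).codRestrict (S 𝕜 D) (fun x => R_mem (𝕜 := 𝕜) D L x x.2)

lemma norm_RS_le (L : ℕ) : ‖RS 𝕜 D L‖ ≤ 1 := by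
  refine ContinuousLinearMap.opNorm_le_bound _ zero_le_one (fun x => ?_)
  exact (R 𝕜 D L).le_of_opNorm_le (norm_R_le 𝕜 D L) _

lemma norm_T_le (L N : ℕ) : ‖T 𝕜 D L N‖ ≤ 1 + D.B L := by
  have := D.one_le_B L
  refine ContinuousLinearMap.opNorm_le_bound _ (by linarith) (fun x => ?_)
  exact (P 𝕜 D L N).le_of_opNorm_le (norm_P_le 𝕜 D L N) _

variable {𝕜}

lemma T_coe (L N : ℕ) (x : S 𝕜 D) :
    ((T 𝕜 D L N x : S 𝕜 D) : lp (fun _ : ℕ => 𝕜) ∞) = P 𝕜 D L N x := rfl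

lemma RS_coe (L : ℕ) (x : S 𝕜 D) :
    ((RS 𝕜 D L x : S 𝕜 D) : lp (fun _ : ℕ => 𝕜) ∞) = R 𝕜 D L x := rfl

variable (𝕜)

lemma T_fin (L N : ℕ) :
    FiniteDimensional 𝕜 (LinearMap.range (T 𝕜 D L N : S 𝕜 D →ₗ[𝕜] S 𝕜 D)) := by
  let f : LinearMap.range (T 𝕜 D L N : S 𝕜 D →ₗ[𝕜] S 𝕜 D) →ₗ[𝕜] W 𝕜 D L N :=
    LinearMap.codRestrict (W 𝕜 D L N)
      ((S 𝕜 D).subtype.comp (LinearMap.range (T 𝕜 D L N : S 𝕜 D →ₗ[𝕜] S 𝕜 D)).subtype)
      (by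
        rintro ⟨x, ⟨y, rfl⟩⟩
        exact P_mem_W (𝕜 := 𝕜) D L N y y.2)
  have hf : Function.Injective f := by
    intro x y hxy
    have h1 : ((f x : W 𝕜 D L N) : lp (fun _ : ℕ => 𝕜) ∞) = ((f y : W 𝕜 D L N) : _) := by
      rw [hxy]
    exact Subtype.ext (Subtype.ext h1)
  exact FiniteDimensional.of_injective f hf

variable {𝕜}

lemma R_stab (x : lp (fun _ : ℕ => 𝕜) ∞) (hx : x ∈ S0 𝕜 D) :
    ∃ L0, ∀ L ≥ L0, R 𝕜 D L x = x := by
  refine Submodule.span_induction (p := fun x _ => ∃ L0, ∀ L ≥ L0, R 𝕜 D L x = x) ?_ ?_ ?_ ?_ hx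
  · rintro _ ⟨l, k, g, h, rfl⟩
    exact ⟨l + 1, fun L hL => R_J_lt D L l k (by omega) _⟩
  · exact ⟨0, fun L _ => map_zero _⟩
  · rintro x y _ _ ⟨L1, h1⟩ ⟨L2, h2⟩
    refine ⟨max L1 L2, fun L hL => ?_⟩
    rw [map_add, h1 L (le_trans (le_max_left _ _) hL), h2 L (le_trans (le_max_right _ _) hL)]
  · rintro c x _ ⟨L1, h1⟩
    exact ⟨L1, fun L hL => by rw [map_smul, h1 L hL]⟩

lemma P_stab (L : ℕ) (x : lp (fun _ : ℕ => 𝕜) ∞) (hx : x ∈ S0 𝕜 D) :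
    ∃ N0, ∀ N ≥ N0, P 𝕜 D L N x = R 𝕜 D L x := by
  refine Submodule.span_induction (p := fun x _ => ∃ N0, ∀ N ≥ N0, P 𝕜 D L N x = R 𝕜 D L x)
    ?_ ?_ ?_ ?_ hx
  · rintro _ ⟨l, k, g, h, rfl⟩
    by_cases hl : l < L
    · exact ⟨k, fun N hN => by rw [P_J_le D L N l k hl hN, R_J_lt D L l k hl]⟩
    · exact ⟨0, fun N _ => by rw [P_J_ge D L N l k (by omega), R_J_ge D L l k (by omega)]⟩
  · exact ⟨0, fun L _ => by rw [map_zero, map_zero]⟩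
  · rintro x y _ _ ⟨L1, h1⟩ ⟨L2, h2⟩
    refine ⟨max L1 L2, fun L hL => ?_⟩
    rw [map_add, map_add, h1 L (le_trans (le_max_left _ _) hL),
      h2 L (le_trans (le_max_right _ _) hL)]
  · rintro c x _ ⟨L1, h1⟩
    exact ⟨L1, fun L hL => by rw [map_smul, map_smul, h1 L hL]⟩

/-- pointwise convergence of bounded sequences of operators can be checked on the generators -/
lemma ptwise (T : ℕ → S 𝕜 D →L[𝕜] S 𝕜 D) (T0 : S 𝕜 D →L[𝕜] S 𝕜 D) (C : ℝ)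
    (hC : ∀ m, ‖T m‖ ≤ C) (hT0 : ‖T0‖ ≤ C)
    (h : ∀ x : S 𝕜 D, (x : lp (fun _ : ℕ => 𝕜) ∞) ∈ S0 𝕜 D → ∃ N0, ∀ N ≥ N0, T N x = T0 x)
    (x : S 𝕜 D) : Tendsto (fun m => T m x) atTop (𝓝 (T0 x)) := by
  have hC0 : 0 ≤ C := le_trans (norm_nonneg T0) hT0
  rw [Metric.tendsto_atTop]
  intro ε hε
  have hx : (x : lp (fun _ : ℕ => 𝕜) ∞) ∈ closure (S0 𝕜 D : Set (lp (fun _ : ℕ => 𝕜) ∞)) := x.2
  obtain ⟨d, hd, hxd⟩ := Metric.mem_closure_iff.mp hx (ε / (2 * C + 1)) (by positivity)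
  let d' : S 𝕜 D := ⟨d, S0_le 𝕜 D hd⟩
  obtain ⟨N0, hN0⟩ := h d' hd
  refine ⟨N0, fun m hm => ?_⟩
  have h1 := hN0 m hm
  have h2 : T m x - T0 x = T m (x - d') - T0 (x - d') := by
    rw [map_sub, map_sub, h1]; abel
  rw [dist_eq_norm, h2]
  have h3 : ‖x - d'‖ < ε / (2 * C + 1) := by
    have h4 : ‖x - d'‖ = dist (x : lp (fun _ : ℕ => 𝕜) ∞) d :=
      (dist_eq_norm (x : lp (fun _ : ℕ => 𝕜) ∞) d).symm
    rw [h4]; exact hxd
  have h5 : ‖T m (x - d')‖ ≤ C * ‖x - d'‖ := (T m).le_of_opNorm_le (hC m) _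
  have h6 : ‖T0 (x - d')‖ ≤ C * ‖x - d'‖ := T0.le_of_opNorm_le hT0 _
  have h7 := norm_sub_le (T m (x - d')) (T0 (x - d'))
  have h8 : (2 * C + 1) * ‖x - d'‖ < ε := by
    rw [lt_div_iff₀ (by positivity)] at h3
    linarith
  nlinarith [norm_nonneg (x - d')]

variable (𝕜)

lemma tendsto_RS (x : S 𝕜 D) : Tendsto (fun L => RS 𝕜 D L x) atTop (𝓝 x) := by
  have := ptwise D (RS 𝕜 D) (ContinuousLinearMap.id 𝕜 (S 𝕜 D)) 1 (norm_RS_le 𝕜 D)
    ContinuousLinearMap.norm_id_le (fun x hx => by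
      obtain ⟨L0, hL0⟩ := R_stab D (x : lp (fun _ : ℕ => 𝕜) ∞) hx
      exact ⟨L0, fun L hL => Subtype.ext (hL0 L hL)⟩) x
  exact this

lemma tendsto_T (L : ℕ) (x : S 𝕜 D) : Tendsto (fun N => T 𝕜 D L N x) atTop (𝓝 (RS 𝕜 D L x)) := by
  have hB := D.one_le_B L
  refine ptwise D (fun N => T 𝕜 D L N) (RS 𝕜 D L) (1 + D.B L) (fun N => norm_T_le 𝕜 D L N) ?_
    (fun x hx => ?_) x
  · have := norm_RS_le 𝕜 D L; linarith
  · obtain ⟨N0, hN0⟩ := P_stab D L (x : lp (fun _ : ℕ => 𝕜) ∞) hx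
    exact ⟨N0, fun N hN => Subtype.ext (hN0 N hN)⟩

end Pool.Agent.Y277.NN
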