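import Pool.Agent.Y277.NN.YB
import Pool.Agent.Helper362.ApC

/-!
Limit coordinates, the relations between them, the basic vectors, the approximation property.
-/

set_option autoImplicit false
open scoped ENNReal Topology
open Filter

namespace Pool.Agent.Y277.NN

open Pool.Agent.Helper362.ApNoBap (Data)

variable {𝕜 : Type} [RCLike 𝕜] (D : Data)

/-- the limit coordinates in block l -/
noncomputable def phi (l g : ℕ) (x : lp (fun _ : ℕ => 𝕜) ∞) : 𝕜 :=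
  x (D.e.symm (l, 0, g)) / (D.w l g : 𝕜)

lemma phi_add (l g : ℕ) (x y : lp (fun _ : ℕ => 𝕜) ∞) :
    phi D l g (x + y) = phi D l g x + phi D l g y := by
  unfold phi
  rw [lp.coeFn_add, Pi.add_apply, add_div]

lemma phi_smul (l g : ℕ) (c : 𝕜) (x : lp (fun _ : ℕ => 𝕜) ∞) :
    phi D l g (c • x) = c * phi D l g x := by
  unfold phi
  rw [lp.coeFn_smul, Pi.smul_apply, smul_eq_mul, mul_div_assoc]

lemma norm_phi_le_w (l g : ℕ) (x : lp (fun _ : ℕ => 𝕜) ∞) : ‖phi D l g x‖ ≤ ‖x‖ / D.w l g := by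
  unfold phi
  rw [norm_div, RCLike.norm_ofReal, abs_of_pos (D.w_pos l g)]
  exact div_le_div_of_nonneg_right (abs_le_norm x _) (D.w_pos l g).le

lemma norm_phi_le (l g : ℕ) (x : lp (fun _ : ℕ => 𝕜) ∞) : ‖phi D l g x‖ ≤ ‖x‖ / D.eps l :=
  (norm_phi_le_w D l g x).trans
    (div_le_div_of_nonneg_left (norm_nonneg _) (D.heps l) (D.hw l g))

lemma phi_J (l l' k g : ℕ) (y : lp (fun _ : ℕ => 𝕜) ∞) :
    phi D l g (J 𝕜 D l' k y) = if l' = l then y g else 0 := by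
  unfold phi
  rw [J_apply, Equiv.apply_symm_apply]
  unfold Data.jc
  rw [Equiv.apply_symm_apply]
  simp only [if_true]
  have hw : (D.w l g : 𝕜) ≠ 0 := by
    rw [Ne, RCLike.ofReal_eq_zero]; exact (D.w_pos l g).ne'
  by_cases h : l' = l
  · subst h
    simp only [if_true]
    field_simp
  · have h' : ¬ l = l' := fun h1 => h h1.symm
    simp [h, h']

lemma summable_phi (l h : ℕ) (x : lp (fun _ : ℕ => 𝕜) ∞) :
    Summable (fun g => phi D l g x * (D.A g h : 𝕜)) := by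
  refine Summable.of_norm_bounded (g := fun g => (‖x‖ / D.eps l) * D.r g) (D.hr.mul_left _)
    (fun g => ?_)
  rw [norm_mul, RCLike.norm_ofReal]
  exact mul_le_mul (norm_phi_le D l g x) (D.hA g h) (abs_nonneg _)
    (div_nonneg (norm_nonneg _) (D.heps l).le)

noncomputable def Phi (l h : ℕ) : lp (fun _ : ℕ => 𝕜) ∞ →L[𝕜] 𝕜 :=
  LinearMap.mkContinuous
    { toFun := fun x => ∑' g, phi D l g x * (D.A g h : 𝕜)
      map_add' := fun x y => by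
        rw [← (summable_phi D l h x).tsum_add (summable_phi D l h y)]
        refine tsum_congr (fun g => ?_)
        rw [phi_add, add_mul]
      map_smul' := fun c x => by
        rw [RingHom.id_apply, smul_eq_mul, ← tsum_mul_left]
        refine tsum_congr (fun g => ?_)
        rw [phi_smul, mul_assoc] } (1 / D.eps l * ∑' g, D.r g) (fun x => by
        show ‖∑' g, phi D l g x * (D.A g h : 𝕜)‖ ≤ _
        have h1 : ∀ g, ‖phi D l g x * (D.A g h : 𝕜)‖ ≤ (‖x‖ / D.eps l) * D.r g := fun g => by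
          rw [norm_mul, RCLike.norm_ofReal]
          exact mul_le_mul (norm_phi_le D l g x) (D.hA g h) (abs_nonneg _)
            (div_nonneg (norm_nonneg _) (D.heps l).le)
        have h2 := tsum_of_norm_bounded ((D.hr.mul_left (‖x‖ / D.eps l)).hasSum) h1
        rw [tsum_mul_left] at h2
        calc _ ≤ _ := h2
          _ = _ := by ring)

lemma Phi_apply (l h : ℕ) (x : lp (fun _ : ℕ => 𝕜) ∞) :
    Phi (𝕜 := 𝕜) D l h x = ∑' g, phi D l g x * (D.A g h : 𝕜) := rfl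

lemma Phi_zero (l h : ℕ) : ∀ x ∈ S 𝕜 D, Phi (𝕜 := 𝕜) D l h x = 0 := by
  refine mem_S_closed D (isClosed_eq (Phi (𝕜 := 𝕜) D l h).continuous continuous_const) (map_zero _)
    (fun l' k g _ => ?_) ?_ ?_
  · rw [Phi_apply]
    by_cases hl : l' = l
    · simp only [phi_J, hl, if_true, row_apply]
      have h1 := D.hsq g h
      have h2 : ∀ k, (D.A g k : 𝕜) * (D.A k h : 𝕜) = ((D.A g k * D.A k h : ℝ) : 𝕜) := fun k => by
        rw [RCLike.ofReal_mul]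
      simp_rw [h2]
      rw [← RCLike.ofReal_tsum, h1, RCLike.ofReal_zero]
    · simp [phi_J, hl]
  · intro x y hx hy
    rw [map_add, hx, hy, add_zero]
  · intro c x hx
    rw [map_smul, hx, smul_zero]

variable (𝕜)

/-- the vectors of block l -/
noncomputable def v (l k g : ℕ) : S 𝕜 D :=
  if h : g < k then ⟨J 𝕜 D l k (row 𝕜 D g), gen_mem 𝕜 D l k g h⟩ else 0

variable {𝕜}

lemma v_coe (l k g : ℕ) (h : g < k) :
    ((v 𝕜 D l k g : S 𝕜 D) : lp (fun _ : ℕ => 𝕜) ∞) = J 𝕜 D l k (row 𝕜 D g) := by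
  unfold v
  rw [dif_pos h]

lemma norm_v_le (l k g : ℕ) (c : ℝ) (hc : ∀ h, |D.A g h| ≤ c) : ‖v 𝕜 D l k g‖ ≤ c := by
  have hc0 : 0 ≤ c := (abs_nonneg _).trans (hc 0)
  by_cases h : g < k
  · have h1 : ‖v 𝕜 D l k g‖ = ‖((v 𝕜 D l k g : S 𝕜 D) : lp (fun _ : ℕ => 𝕜) ∞)‖ := rfl
    rw [h1, v_coe D l k g h]
    exact (norm_J_le D l k _).trans (norm_row_le 𝕜 D g c hc)
  · unfold v
    rw [dif_neg h, norm_zero]
    exact hc0

lemma norm_v_sub_le (l k M g : ℕ) (c : ℝ) (hc : ∀ h, |D.A g h| ≤ c) (hk : g < k) (hM : g < M) :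
    ‖v 𝕜 D l k g - v 𝕜 D l M g‖ ≤ D.eps l * c := by
  have h1 : ‖v 𝕜 D l k g - v 𝕜 D l M g‖ =
      ‖((v 𝕜 D l k g - v 𝕜 D l M g : S 𝕜 D) : lp (fun _ : ℕ => 𝕜) ∞)‖ := rfl
  rw [h1, Submodule.coe_sub, v_coe D l k g hk, v_coe D l M g hM]
  exact (norm_J_sub_le D l k M _).trans
    (mul_le_mul_of_nonneg_left (norm_row_le 𝕜 D g c hc) (D.heps l).le)

/-- the combination of the basic vectors given by coefficients that satisfy the relations -/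
lemma norm_comb_le (l k : ℕ) (c : ℕ → 𝕜) (C : ℝ) (hC : ∀ g h, ‖c g * (D.A g h : 𝕜)‖ ≤ C * D.r g)
    (hc : ∀ h, ∑' g, c g * (D.A g h : 𝕜) = 0) :
    ‖∑ g ∈ Finset.range k, c g • v 𝕜 D l k g‖ ≤ C * D.tail k := by
  have hs : ∀ h, Summable (fun g => c g * (D.A g h : 𝕜)) := fun h =>
    Summable.of_norm_bounded (D.hr.mul_left C) (fun g => hC g h)
  have key : ∀ h, ‖∑ g ∈ Finset.range k, c g * (D.A g h : 𝕜)‖ ≤ C * D.tail k := by
    intro h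
    have h2 := (hs h).sum_add_tsum_nat_add k
    rw [hc h] at h2
    have h4 : ∑ g ∈ Finset.range k, c g * (D.A g h : 𝕜) =
        - ∑' g, c (g + k) * (D.A (g + k) h : 𝕜) := eq_neg_of_add_eq_zero_left h2
    rw [h4, norm_neg]
    have h6 := tsum_of_norm_bounded (((D.summable_tail k).mul_left C).hasSum)
      (f := fun g => c (g + k) * (D.A (g + k) h : 𝕜)) (fun g => hC (g + k) h)
    rw [tsum_mul_left] at h6
    exact h6
  have hC0 : 0 ≤ C * D.tail k := (norm_nonneg _).trans (key 0)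
  have h1 : ((∑ g ∈ Finset.range k, c g • v 𝕜 D l k g : S 𝕜 D) : lp (fun _ : ℕ => 𝕜) ∞) =
      J 𝕜 D l k (∑ g ∈ Finset.range k, c g • row 𝕜 D g) := by
    rw [map_sum, AddSubmonoidClass.coe_finsetSum]
    refine Finset.sum_congr rfl (fun g hg => ?_)
    rw [Submodule.coe_smul, map_smul, v_coe D l k g (Finset.mem_range.mp hg)]
  have h2 : ‖∑ g ∈ Finset.range k, c g • v 𝕜 D l k g‖ =
      ‖((∑ g ∈ Finset.range k, c g • v 𝕜 D l k g : S 𝕜 D) : lp (fun _ : ℕ => 𝕜) ∞)‖ := rfl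
  rw [h2, h1]
  refine (norm_J_le D l k _).trans (norm_le _ _ hC0 (fun h => ?_))
  have h3 : (∑ g ∈ Finset.range k, c g • row 𝕜 D g : lp (fun _ : ℕ => 𝕜) ∞) h =
      ∑ g ∈ Finset.range k, c g * (D.A g h : 𝕜) := by
    rw [lp.coeFn_sum, Finset.sum_apply]
    refine Finset.sum_congr rfl (fun g _ => ?_)
    rw [lp.coeFn_smul, Pi.smul_apply, smul_eq_mul, row_apply]
  rw [h3]
  exact key h

lemma cover (K : Set (S 𝕜 D)) (hK : IsCompact K) (ρ : ℝ) (hρ : 0 < ρ) :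
    ∃ F : Finset (lp (fun _ : ℕ => 𝕜) ∞), (∀ d ∈ F, d ∈ S0 𝕜 D) ∧
      ∀ x ∈ K, ∃ d ∈ F, ‖(x : lp (fun _ : ℕ => 𝕜) ∞) - d‖ < ρ := by
  have h := hK.elim_finite_subcover
    (fun d : S0 𝕜 D => {x : S 𝕜 D | ‖(x : lp (fun _ : ℕ => 𝕜) ∞) - (d : _)‖ < ρ})
    (fun d => isOpen_lt (by fun_prop) continuous_const) (by
      intro x _
      have hx : (x : lp (fun _ : ℕ => 𝕜) ∞) ∈ closure (S0 𝕜 D : Set (lp (fun _ : ℕ => 𝕜) ∞)) := x.2
      obtain ⟨y, hy, hxy⟩ := Metric.mem_closure_iff.mp hx ρ hρ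
      rw [Set.mem_iUnion]
      refine ⟨⟨y, hy⟩, ?_⟩
      have h2 : dist (x : lp (fun _ : ℕ => 𝕜) ∞) y = ‖(x : lp (fun _ : ℕ => 𝕜) ∞) - y‖ :=
        dist_eq_norm _ _
      show ‖(x : lp (fun _ : ℕ => 𝕜) ∞) - y‖ < ρ
      rw [← h2]; exact hxy)
  obtain ⟨t, ht⟩ := h
  refine ⟨t.map ⟨Subtype.val, Subtype.val_injective⟩, ?_, ?_⟩
  · intro d hd
    obtain ⟨d', _, rfl⟩ := Finset.mem_map.mp hd
    exact d'.2
  · intro x hx
    obtain ⟨d, hd, hxd⟩ := Set.mem_iUnion₂.mp (ht hx)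
    exact ⟨d, Finset.mem_map.mpr ⟨d, hd, rfl⟩, hxd⟩

lemma exists_uniform (F : Finset (lp (fun _ : ℕ => 𝕜) ∞)) (p : ℕ → lp (fun _ : ℕ => 𝕜) ∞ → Prop)
    (h : ∀ d ∈ F, ∃ N0, ∀ N ≥ N0, p N d) : ∃ N, ∀ d ∈ F, p N d := by
  classical
  choose! f hf using h
  refine ⟨F.sup f, fun d hd => hf d hd _ (Finset.le_sup hd)⟩

variable (𝕜)

theorem AP (K : Set (S 𝕜 D)) (hK : IsCompact K) (ε : ℝ) (hε : 0 < ε) :
    ∃ T : S 𝕜 D →L[𝕜] S 𝕜 D, FiniteDimensional 𝕜 (LinearMap.range (T : S 𝕜 D →ₗ[𝕜] S 𝕜 D)) ∧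
      ∀ x ∈ K, ‖T x - x‖ ≤ ε := by
  obtain ⟨F, hF, hFK⟩ := cover D K hK (ε / 4) (by positivity)
  obtain ⟨L, hL⟩ := exists_uniform F (fun L d => R 𝕜 D L d = d) (fun d hd => R_stab D d (hF d hd))
  have hB := D.one_le_B L
  obtain ⟨F', hF', hFK'⟩ := cover D K hK (ε / (4 * (2 + D.B L))) (by positivity)
  obtain ⟨N, hN⟩ := exists_uniform F' (fun N d => P 𝕜 D L N d = R 𝕜 D L d)
    (fun d hd => P_stab D L d (hF' d hd))
  refine ⟨T 𝕜 D L N, T_fin 𝕜 D L N, fun x hx => ?_⟩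
  obtain ⟨d, hd, hxd⟩ := hFK x hx
  obtain ⟨d', hd', hxd'⟩ := hFK' x hx
  have e1 : ‖T 𝕜 D L N x - x‖ = ‖P 𝕜 D L N x - (x : lp (fun _ : ℕ => 𝕜) ∞)‖ := rfl
  rw [e1]
  have e2 : P 𝕜 D L N (x : lp (fun _ : ℕ => 𝕜) ∞) - (x : lp (fun _ : ℕ => 𝕜) ∞) =
      (P 𝕜 D L N ((x : lp (fun _ : ℕ => 𝕜) ∞) - d') - R 𝕜 D L ((x : lp (fun _ : ℕ => 𝕜) ∞) - d')) +
      (R 𝕜 D L ((x : lp (fun _ : ℕ => 𝕜) ∞) - d) - ((x : lp (fun _ : ℕ => 𝕜) ∞) - d)) := by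
    rw [map_sub, map_sub, map_sub, hN d' hd', hL d hd]
    abel
  rw [e2]
  have b1 : ‖P 𝕜 D L N ((x : lp (fun _ : ℕ => 𝕜) ∞) - d')‖ ≤
      (1 + D.B L) * ‖(x : lp (fun _ : ℕ => 𝕜) ∞) - d'‖ :=
    (P 𝕜 D L N).le_of_opNorm_le (norm_P_le 𝕜 D L N) _
  have b2 : ‖R 𝕜 D L ((x : lp (fun _ : ℕ => 𝕜) ∞) - d')‖ ≤
      1 * ‖(x : lp (fun _ : ℕ => 𝕜) ∞) - d'‖ :=
    (R 𝕜 D L).le_of_opNorm_le (norm_R_le 𝕜 D L) _
  have b3 : ‖R 𝕜 D L ((x : lp (fun _ : ℕ => 𝕜) ∞) - d)‖ ≤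
      1 * ‖(x : lp (fun _ : ℕ => 𝕜) ∞) - d‖ :=
    (R 𝕜 D L).le_of_opNorm_le (norm_R_le 𝕜 D L) _
  have c1 := norm_add_le
    (P 𝕜 D L N ((x : lp (fun _ : ℕ => 𝕜) ∞) - d') - R 𝕜 D L ((x : lp (fun _ : ℕ => 𝕜) ∞) - d'))
    (R 𝕜 D L ((x : lp (fun _ : ℕ => 𝕜) ∞) - d) - ((x : lp (fun _ : ℕ => 𝕜) ∞) - d))
  have c2 := norm_sub_le (P 𝕜 D L N ((x : lp (fun _ : ℕ => 𝕜) ∞) - d'))
    (R 𝕜 D L ((x : lp (fun _ : ℕ => 𝕜) ∞) - d'))
  have c3 := norm_sub_le (R 𝕜 D L ((x : lp (fun _ : ℕ => 𝕜) ∞) - d))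
    ((x : lp (fun _ : ℕ => 𝕜) ∞) - d)
  have c4 : (2 + D.B L) * ‖(x : lp (fun _ : ℕ => 𝕜) ∞) - d'‖ ≤ ε / 4 := by
    have h1 : (2 + D.B L) * ‖(x : lp (fun _ : ℕ => 𝕜) ∞) - d'‖ ≤
        (2 + D.B L) * (ε / (4 * (2 + D.B L))) :=
      mul_le_mul_of_nonneg_left hxd'.le (by linarith)
    have h2 : (2 + D.B L) * (ε / (4 * (2 + D.B L))) = ε / 4 := by
      have : (2 + D.B L) ≠ 0 := by linarith
      field_simp
    linarith
  nlinarith [norm_nonneg ((x : lp (fun _ : ℕ => 𝕜) ∞) - d'),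
    norm_nonneg ((x : lp (fun _ : ℕ => 𝕜) ∞) - d)]

end Pool.Agent.Y277.NN
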